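import Mathlib

set_option autoImplicit false

/-!
Interpretations and bi-interpretability (parameters allowed) of first-order structures in
possibly different languages; the languages of groups and of arithmetic; partially commutative
metabelian groups.
-/

namespace Pool.Agent.H146Z.BiDefs

open FirstOrder FirstOrder.Language

/-- The `j`-th block of a family of `n`-tuples. -/
def row {A ι : Type} {n : ℕ} (w : ι × Fin n → A) (j : ι) : Fin n → A := fun i => w (j, i)

/-- `f` restricted to `D ⊆ A ^ n` is (the coordinate map of) an interpretation of the
`LB`-structure `B` in the `LA`-structure `A`, parameters from `A` allowed: `f` maps `D` onto `B`,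
and `D`, the kernel of `f` on `D`, and the preimages under `f` of the graphs of the functions and
of the relations of `B` are definable in `A`. -/
structure IsInterp (LA LB : FirstOrder.Language.{0, 0}) (A B : Type) [LA.Structure A] [LB.Structure B]
    (n : ℕ) (D : Set (Fin n → A)) (f : (Fin n → A) → B) : Prop where
  surj : ∀ y : B, ∃ u ∈ D, f u = y
  dom : (Set.univ : Set A).Definable LA D
  ker : (Set.univ : Set A).Definable LA
    {w : Fin 2 × Fin n → A | row w 0 ∈ D ∧ row w 1 ∈ D ∧ f (row w 0) = f (row w 1)}
  func : ∀ (k : ℕ) (F : LB.Functions k), (Set.univ : Set A).Definable LA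
    {w : Option (Fin k) × Fin n → A | (∀ j, row w j ∈ D) ∧
      Structure.funMap F (fun j => f (row w (some j))) = f (row w none)}
  rel : ∀ (k : ℕ) (r : LB.Relations k), (Set.univ : Set A).Definable LA
    {w : Fin k × Fin n → A | (∀ j, row w j ∈ D) ∧ Structure.RelMap r (fun j => f (row w j))}

/-- The graph of the coordinate map of the composite interpretation of `A` in itself: the pairs
`(u, a)` where `u` is an `m`-tuple of elements of `D ⊆ A ^ n` whose image under `f` lies in
`D' ⊆ B ^ m` and is sent to `a` by `g`. -/
def compGraph {A B : Type} {n m : ℕ} (D : Set (Fin n → A)) (f : (Fin n → A) → B)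
    (D' : Set (Fin m → B)) (g : (Fin m → B) → A) : Set (Option (Fin m × Fin n) → A) :=
  {w | (∀ j, row (w ∘ some) j ∈ D) ∧ (fun j => f (row (w ∘ some) j)) ∈ D' ∧
    g (fun j => f (row (w ∘ some) j)) = w none}

/-- `A` and `B` are bi-interpretable (with parameters): there are interpretations of `B` in `A`
and of `A` in `B` such that the isomorphism between `A` and its copy interpreted in `A` via `B`
is definable in `A`, and likewise for `B`. -/
def BiInterp (LA LB : FirstOrder.Language.{0, 0}) (A B : Type) [LA.Structure A] [LB.Structure B] : Prop :=
  ∃ (n : ℕ) (D : Set (Fin n → A)) (f : (Fin n → A) → B)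
    (m : ℕ) (D' : Set (Fin m → B)) (g : (Fin m → B) → A),
    IsInterp LA LB A B n D f ∧ IsInterp LB LA B A m D' g ∧
    (Set.univ : Set A).Definable LA (compGraph D f D' g) ∧
    (Set.univ : Set B).Definable LB (compGraph D' g D f)

/-- Function symbols of the language of groups. -/
inductive GrpFunc : ℕ → Type
  | one : GrpFunc 0
  | inv : GrpFunc 1
  | mul : GrpFunc 2

/-- The language of groups `(·, ⁻¹, 1)`. -/
def Lgrp : FirstOrder.Language.{0, 0} := ⟨GrpFunc, fun _ => Empty⟩

instance grpStructure (G : Type) [Group G] : Lgrp.Structure G where
  funMap := fun {_} F v => match F with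
    | GrpFunc.one => 1
    | GrpFunc.inv => (v 0)⁻¹
    | GrpFunc.mul => v 0 * v 1
  RelMap := fun {_} r _ => Empty.elim r

/-- Function symbols of the language of arithmetic. -/
inductive ArFunc : ℕ → Type
  | zero : ArFunc 0
  | one : ArFunc 0
  | add : ArFunc 2
  | mul : ArFunc 2

/-- The language of arithmetic `(+, ·, 0, 1)`. -/
def Lar : FirstOrder.Language.{0, 0} := ⟨ArFunc, fun _ => Empty⟩

instance natStructure : Lar.Structure ℕ where
  funMap := fun {_} F v => match F with
    | ArFunc.zero => 0
    | ArFunc.one => 1
    | ArFunc.add => v 0 + v 1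
    | ArFunc.mul => v 0 * v 1
  RelMap := fun {_} r _ => Empty.elim r

/-- The free metabelian group on `V`: the free group modulo its second derived subgroup. -/
def FreeMetab (V : Type) : Type := FreeGroup V ⧸ derivedSeries (FreeGroup V) 2

instance freeMetabGroup (V : Type) : Group (FreeMetab V) :=
  QuotientGroup.Quotient.group (derivedSeries (FreeGroup V) 2)

/-- The generator of the free metabelian group corresponding to `v`. -/
def fgen {V : Type} (v : V) : FreeMetab V := QuotientGroup.mk (FreeGroup.of v)

/-- The normal subgroup of the free metabelian group generated by the commutators of adjacent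
vertices. -/
def edgeSubgroup {V : Type} (Γ : SimpleGraph V) : Subgroup (FreeMetab V) :=
  Subgroup.normalClosure
    {x : FreeMetab V | ∃ u v, Γ.Adj u v ∧ x = fgen u * fgen v * (fgen u)⁻¹ * (fgen v)⁻¹}

instance edgeSubgroup_normal {V : Type} (Γ : SimpleGraph V) : (edgeSubgroup Γ).Normal :=
  Subgroup.normalClosure_normal

/-- The partially commutative metabelian group of the graph `Γ`: the free metabelian group on the
vertices modulo the normal subgroup generated by the commutators of adjacent vertices. -/
def PCM {V : Type} (Γ : SimpleGraph V) : Type := FreeMetab V ⧸ edgeSubgroup Γ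

instance pcmGroup {V : Type} (Γ : SimpleGraph V) : Group (PCM Γ) :=
  QuotientGroup.Quotient.group (edgeSubgroup Γ)

end Pool.Agent.H146Z.BiDefs
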