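import Pool.Agent.H146Z.BiDefs

set_option autoImplicit false

/-!
A Feferman-Vaught type finiteness property of definable sets in a product of two groups, and its
consequence: such a product with two infinite factors is not bi-interpretable with arithmetic.
-/

namespace Pool.Agent.H146Z.BiFV

open Pool.Agent.H146Z.BiDefs FirstOrder FirstOrder.Language

/-- The relation has finitely many distinct fibres. -/
def FR {X Y : Type} (r : X → Y → Prop) : Prop := (Set.range fun y => {x | r x y}).Finite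

section closure

variable {X Y X' Y' : Type}

theorem FR.congr {r r' : X → Y → Prop} (h : FR r) (e : ∀ x y, r x y ↔ r' x y) : FR r' := by
  have : r = r' := by
    funext x y
    exact propext (e x y)
  rwa [← this]

theorem FR.comp {r : X → Y → Prop} (h : FR r) (α : X' → X) (β : Y' → Y) :
    FR (fun x y => r (α x) (β y)) :=
  (Set.Finite.image (fun s => α ⁻¹' s) h).subset (by
    rintro _ ⟨y, rfl⟩
    exact ⟨_, ⟨β y, rfl⟩, rfl⟩)

theorem FR.not {r : X → Y → Prop} (h : FR r) : FR (fun x y => ¬ r x y) :=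
  (Set.Finite.image (fun s => sᶜ) h).subset (by
    rintro _ ⟨y, rfl⟩
    exact ⟨_, ⟨y, rfl⟩, rfl⟩)

theorem FR.and {r r' : X → Y → Prop} (h : FR r) (h' : FR r') : FR (fun x y => r x y ∧ r' x y) :=
  (Set.Finite.image2 (fun s t => s ∩ t) h h').subset (by
    rintro _ ⟨y, rfl⟩
    exact ⟨_, ⟨y, rfl⟩, _, ⟨y, rfl⟩, rfl⟩)

theorem FR.imp {r r' : X → Y → Prop} (h : FR r) (h' : FR r') : FR (fun x y => r x y → r' x y) :=
  (h.and h'.not).not.congr (fun x y => by tauto)

theorem FR.ex {r : X × X' → Y × Y' → Prop} (h : FR r) :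
    FR (fun x y => ∃ x' y', r (x, x') (y, y')) :=
  (Set.Finite.image (fun T : Set (Set (X × X')) => {x | ∃ x', ∃ s ∈ T, (x, x') ∈ s})
    (Set.Finite.finite_subsets h)).subset (by
    rintro _ ⟨y, rfl⟩
    refine ⟨Set.range (fun y' => {p | r p (y, y')}), ?_, ?_⟩
    · rintro _ ⟨y', rfl⟩
      exact ⟨(y, y'), rfl⟩
    · ext x
      constructor
      · rintro ⟨x', _, ⟨y', rfl⟩, hx⟩
        exact ⟨x', y', hx⟩
      · rintro ⟨x', y', hx⟩
        exact ⟨x', _, ⟨y', rfl⟩, hx⟩)

theorem FR.all {r : X × X' → Y × Y' → Prop} (h : FR r) :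
    FR (fun x y => ∀ x' y', r (x, x') (y, y')) :=
  h.not.ex.not.congr (fun x y => by simp)

theorem FR.rect (p : X → Prop) (q : Y → Prop) : FR (fun x y => p x ∧ q y) :=
  (Set.toFinite ({{x | p x}, ∅} : Set (Set X))).subset (by
    rintro _ ⟨y, rfl⟩
    by_cases hy : q y
    · left
      ext x
      simp [hy]
    · right
      ext x
      simp [hy])

theorem FR.forall_fin {ι : Type} [Finite ι] {r : ι → X → Y → Prop} (h : ∀ i, FR (r i)) :
    FR (fun x y => ∀ i, r i x y) :=
  (Set.Finite.image (fun F : ι → Set X => ⋂ i, F i) (Set.Finite.pi' h)).subset (by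
    rintro _ ⟨y, rfl⟩
    refine ⟨fun i => {x | r i x y}, fun i => ⟨y, rfl⟩, ?_⟩
    ext x
    simp)

theorem FR.exists_fin {ι : Type} [Finite ι] {r : ι → X → Y → Prop} (h : ∀ i, FR (r i)) :
    FR (fun x y => ∃ i, r i x y) :=
  (FR.forall_fin (fun i => (h i).not)).not.congr (fun x y => by simp)

end closure

section product

variable {G H M : Type} [Group G] [Group H] [Group M] (e : G × H →* M)

theorem realize_term {α : Type} (t : Lgrp.Term α) (v : α → G) (v' : α → H) :
    t.realize (fun i => e (v i, v' i)) = e (t.realize v, t.realize v') := by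
  induction t with
  | var i => rfl
  | func F ts ih =>
    cases F with
    | one => exact (map_one e).symm
    | inv =>
      show ((ts 0).realize (fun i => e (v i, v' i)))⁻¹ =
        e (((ts 0).realize v)⁻¹, ((ts 0).realize v')⁻¹)
      rw [ih 0, ← map_inv]
      rfl
    | mul =>
      show (ts 0).realize (fun i => e (v i, v' i)) * (ts 1).realize (fun i => e (v i, v' i)) =
        e ((ts 0).realize v * (ts 1).realize v, (ts 0).realize v' * (ts 1).realize v')
      rw [ih 0, ih 1, ← map_mul]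
      rfl

variable (hs : Function.Surjective e)
  (hi : ∀ a b c d, e (a, b) = e (c, d) ↔ e (a, 1) = e (c, 1) ∧ e (1, b) = e (1, d))

include hs hi

theorem fr_bounded {α : Type} {n : ℕ} (φ : Lgrp.BoundedFormula α n) :
    FR (fun (p : (α → G) × (Fin n → G)) (q : (α → H) × (Fin n → H)) =>
      φ.Realize (fun i => e (p.1 i, q.1 i)) (fun i => e (p.2 i, q.2 i))) := by
  induction φ with
  | falsum => exact (FR.rect (fun _ => False) (fun _ => False)).congr (fun x y => by
      simp [BoundedFormula.Realize])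
  | equal t₁ t₂ =>
    refine (FR.rect
      (fun p => e (t₁.realize (Sum.elim p.1 p.2), 1) = e (t₂.realize (Sum.elim p.1 p.2), 1))
      (fun q => e (1, t₁.realize (Sum.elim q.1 q.2)) = e (1, t₂.realize (Sum.elim q.1 q.2)))).congr
      (fun p q => ?_)
    have h : Sum.elim (fun i => e (p.1 i, q.1 i)) (fun i => e (p.2 i, q.2 i)) =
        fun i => e (Sum.elim p.1 p.2 i, Sum.elim q.1 q.2 i) := by
      funext i
      cases i <;> rfl
    show _ ↔ t₁.realize _ = t₂.realize _
    rw [h, realize_term, realize_term]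
    exact (hi _ _ _ _).symm
  | rel R _ => exact Empty.elim R
  | imp φ ψ ih1 ih2 => exact ih1.imp ih2
  | @all n φ ih =>
    refine (FR.all (ih.comp
      (fun p : ((α → G) × (Fin n → G)) × G => (p.1.1, (Fin.snoc p.1.2 p.2 : Fin (n + 1) → G)))
      (fun q : ((α → H) × (Fin n → H)) × H =>
        (q.1.1, (Fin.snoc q.1.2 q.2 : Fin (n + 1) → H))))).congr (fun p q => ?_)
    have h : ∀ a b, (fun i => e ((Fin.snoc p.2 a : Fin (n + 1) → G) i,
        (Fin.snoc q.2 b : Fin (n + 1) → H) i)) =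
        (Fin.snoc (fun i => e (p.2 i, q.2 i)) (e (a, b)) : Fin (n + 1) → M) := by
      intro a b
      funext i
      refine Fin.lastCases ?_ (fun j => ?_) i <;> simp
    rw [BoundedFormula.realize_all]
    constructor
    · intro H0 z
      obtain ⟨⟨a, b⟩, rfl⟩ := hs z
      rw [← h]
      exact H0 a b
    · intro H0 a b
      show φ.Realize _ _
      simp only []
      rw [h]
      exact H0 _

theorem fr_definable {α : Type} {s : Set (α → M)} (h : (Set.univ : Set M).Definable Lgrp s) :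
    FR (fun (x : α → G) (y : α → H) => (fun i => e (x i, y i)) ∈ s) := by
  obtain ⟨φ, rfl⟩ := Set.definable_iff_exists_formula_sum.1 h
  choose σ hσ using hs
  refine ((fr_bounded e (fun z => ⟨σ z, hσ z⟩) hi φ).comp
    (fun x : α → G => (Sum.elim (fun z : (Set.univ : Set M) => (σ z.1).1) x, default))
    (fun y : α → H => (Sum.elim (fun z : (Set.univ : Set M) => (σ z.1).2) y, default))).congr
    (fun x y => ?_)
  show _ ↔ φ.Realize _
  unfold Formula.Realize
  refine iff_of_eq ?_
  congr 1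
  · funext i
    cases i with
    | inl z => exact hσ z.1
    | inr i => rfl
  · exact Subsingleton.elim _ _

theorem not_biInterp (hG : (Set.range fun a => e (a, 1)).Infinite)
    (hH : (Set.range fun b => e (1, b)).Infinite) : ¬ BiInterp Lgrp Lar M ℕ := by
  rintro ⟨n, D, f, m, D', g, hf, hg, hc, -⟩
  have hsurj : ∀ {ι : Type} (w : ι → M), ∃ (x : ι → G) (y : ι → H),
      (fun i => e (x i, y i)) = w := by
    intro ι w
    choose σ hσ using hs
    exact ⟨fun i => (σ (w i)).1, fun i => (σ (w i)).2, funext fun i => hσ (w i)⟩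
  have hadd := fr_definable e hs hi (hf.func 2 ArFunc.add)
  have hle : FR (fun (x : (Fin n → G) × (Fin n → G)) (y : (Fin n → H) × (Fin n → H)) =>
      (fun i => e (x.1 i, y.1 i)) ∈ D ∧ (fun i => e (x.2 i, y.2 i)) ∈ D ∧
        f (fun i => e (x.1 i, y.1 i)) ≤ f (fun i => e (x.2 i, y.2 i))) := by
    refine (FR.ex (hadd.comp
      (fun (x : ((Fin n → G) × (Fin n → G)) × (Fin n → G)) (k : Option (Fin 2) × Fin n) =>
        Option.elim k.1 (x.1.2 k.2) (fun j => if j = 0 then x.1.1 k.2 else x.2 k.2))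
      (fun (y : ((Fin n → H) × (Fin n → H)) × (Fin n → H)) (k : Option (Fin 2) × Fin n) =>
        Option.elim k.1 (y.1.2 k.2) (fun j => if j = 0 then y.1.1 k.2 else y.2 k.2)))).congr
      (fun x y => ?_)
    constructor
    · rintro ⟨x', y', h1, h2⟩
      refine ⟨h1 (some 0), h1 none, ?_⟩
      have h3 : f (fun i => e (x.1 i, y.1 i)) + f (fun i => e (x' i, y' i)) =
        f (fun i => e (x.2 i, y.2 i)) := h2
      omega
    · rintro ⟨h1, h2, h3⟩
      obtain ⟨u, hu, hfu⟩ := hf.surj (f (fun i => e (x.2 i, y.2 i)) - f (fun i => e (x.1 i, y.1 i)))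
      obtain ⟨x', y', rfl⟩ := hsurj u
      refine ⟨x', y', ?_, ?_⟩
      · intro j
        rcases j with _ | j
        · exact h2
        · fin_cases j
          · exact h1
          · exact hu
      · show f (fun i => e (x.1 i, y.1 i)) + f (fun i => e (x' i, y' i)) =
          f (fun i => e (x.2 i, y.2 i))
        omega
  obtain ⟨Rep, hRep⟩ : ∃ Rep : (Fin m × Fin n → M) → M → Prop, ∀ u a, Rep u a ↔
      ((∀ j, row u j ∈ D) ∧ (fun j => f (row u j)) ∈ D' ∧ g (fun j => f (row u j)) = a) :=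
    ⟨_, fun _ _ => Iff.rfl⟩
  have hrep : FR (fun (x : (Fin m × Fin n → G) × G) (y : (Fin m × Fin n → H) × H) =>
      Rep (fun i => e (x.1 i, y.1 i)) (e (x.2, y.2))) := by
    refine ((fr_definable e hs hi hc).comp
      (fun (x : (Fin m × Fin n → G) × G) (k : Option (Fin m × Fin n)) => Option.elim k x.2 x.1)
      (fun (y : (Fin m × Fin n → H) × H) (k : Option (Fin m × Fin n)) =>
        Option.elim k y.2 y.1)).congr (fun x y => ?_)
    rw [hRep]
    rfl
  have hR : FR (fun (x : G) (y : H) => ∃ u, Rep u (e (x, 1)) ∧ ∀ v, Rep v (e (1, y)) →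
      ∀ i, ∃ j, f (row u i) ≤ f (row v j)) := by
    have h1 := hrep.comp (fun x : G × (Fin m × Fin n → G) => (x.2, x.1))
      (fun y : H × (Fin m × Fin n → H) => (y.2, (1 : H)))
    have h2 := hrep.comp
      (fun x : (G × (Fin m × Fin n → G)) × (Fin m × Fin n → G) => (x.2, (1 : G)))
      (fun y : (H × (Fin m × Fin n → H)) × (Fin m × Fin n → H) => (y.2, y.1.1))
    have h3 := FR.forall_fin (fun i : Fin m => FR.exists_fin (fun j : Fin m => hle.comp
      (fun x : (G × (Fin m × Fin n → G)) × (Fin m × Fin n → G) => (row x.1.2 i, row x.2 j))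
      (fun y : (H × (Fin m × Fin n → H)) × (Fin m × Fin n → H) => (row y.1.2 i, row y.2 j))))
    refine (FR.ex (h1.and (FR.all (h2.imp h3)))).congr (fun x y => ?_)
    constructor
    · rintro ⟨x', y', ha, hb⟩
      refine ⟨_, ha, fun v hv i => ?_⟩
      obtain ⟨x'', y'', rfl⟩ := hsurj v
      obtain ⟨j, -, -, hj⟩ := hb x'' y'' hv i
      exact ⟨j, hj⟩
    · rintro ⟨u, ha, hb⟩
      obtain ⟨x', y', rfl⟩ := hsurj u
      refine ⟨x', y', ha, fun x'' y'' hv i => ?_⟩
      obtain ⟨j, hj⟩ := hb _ hv i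
      exact ⟨j, ((hRep _ _).1 ha).1 i, ((hRep _ _).1 hv).1 j, hj⟩
  have hex : ∀ a : M, ∃ u, Rep u a := by
    intro a
    obtain ⟨t, ht, hga⟩ := hg.surj a
    choose τ hτ using hf.surj
    refine ⟨fun k => τ (t k.1) k.2, (hRep _ _).2 ?_⟩
    have h : (fun j => f (row (fun k : Fin m × Fin n => τ (t k.1) k.2) j)) = t :=
      funext fun j => (hτ (t j)).2
    rw [h]
    exact ⟨fun j => (hτ (t j)).1, ht, hga⟩
  have hfin : ∀ N : ℕ, {a : M | ∃ u, Rep u a ∧ ∀ i, f (row u i) ≤ N}.Finite := by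
    intro N
    have h0 : {t : Fin m → ℕ | ∀ i, t i ∈ Set.Iic N}.Finite :=
      Set.Finite.pi' (fun _ => Set.finite_Iic N)
    refine (h0.image g).subset ?_
    rintro a ⟨u, hu, hN⟩
    exact ⟨_, hN, ((hRep _ _).1 hu).2.2⟩
  apply hG
  have hU := hR.biUnion (t := fun s => (fun a => e (a, 1)) '' s) (by
    rintro _ ⟨y, rfl⟩
    obtain ⟨v, hv⟩ := hex (e (1, y))
    refine (hfin (Finset.univ.sup fun j => f (row v j))).subset ?_
    rintro _ ⟨x, ⟨u, hu, hx⟩, rfl⟩
    refine ⟨u, hu, fun i => ?_⟩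
    obtain ⟨j, hj⟩ := hx v hv i
    exact hj.trans (Finset.le_sup (f := fun j => f (row v j)) (Finset.mem_univ j)))
  refine hU.subset ?_
  rintro _ ⟨x, rfl⟩
  obtain ⟨u, hu⟩ := hex (e (x, 1))
  obtain ⟨_, ⟨y, rfl⟩, hy⟩ := hH.exists_notMem_finite (hfin (Finset.univ.sup fun i => f (row u i)))
  simp only [Set.mem_iUnion]
  refine ⟨_, ⟨y, rfl⟩, x, ⟨u, hu, fun v hv i => ?_⟩, rfl⟩
  by_contra hn
  push Not at hn
  exact hy ⟨v, hv, fun j => (hn j).le.trans
    (Finset.le_sup (f := fun i => f (row u i)) (Finset.mem_univ i))⟩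

end product

end Pool.Agent.H146Z.BiFV
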