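import Pool.Agent.H146Z.BiFV

set_option autoImplicit false

/-!
Partially commutative metabelian groups: universal property, splitting along a join of graphs,
and trivial centre of two-generated factors through an affine representation.
-/

namespace Pool.Agent.H146Z.BiGrp

open Pool.Agent.H146Z.BiDefs Pool.Agent.H146Z.BiFV

section pcm

variable {V : Type} (Γ : SimpleGraph V)

/-- The generator of `PCM Γ` corresponding to a vertex. -/
def gen (v : V) : PCM Γ := QuotientGroup.mk (fgen v)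

/-- The canonical map from the free group. -/
def toPCM : FreeGroup V →* PCM Γ :=
  (QuotientGroup.mk' (edgeSubgroup Γ)).comp
    (show FreeGroup V →* FreeMetab V from QuotientGroup.mk' (derivedSeries (FreeGroup V) 2))

theorem toPCM_surj : Function.Surjective (toPCM Γ) :=
  (QuotientGroup.mk'_surjective (edgeSubgroup Γ)).comp
    (QuotientGroup.mk'_surjective (derivedSeries (FreeGroup V) 2))

theorem toPCM_of (v : V) : toPCM Γ (FreeGroup.of v) = gen Γ v := rfl

theorem pcm_met : derivedSeries (PCM Γ) 2 = ⊥ := by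
  rw [← map_derivedSeries_eq (toPCM_surj Γ) 2, eq_bot_iff]
  rintro _ ⟨x, hx, rfl⟩
  have h : (QuotientGroup.mk' (derivedSeries (FreeGroup V) 2)) x = 1 :=
    (QuotientGroup.eq_one_iff x).2 hx
  exact (congrArg (QuotientGroup.mk' (edgeSubgroup Γ)) h).trans (map_one _)

theorem gen_comm {u v : V} (h : Γ.Adj u v) : Commute (gen Γ u) (gen Γ v) := by
  have h1 : gen Γ u * gen Γ v * (gen Γ u)⁻¹ * (gen Γ v)⁻¹ = 1 :=
    (QuotientGroup.eq_one_iff (N := edgeSubgroup Γ)
      (fgen u * fgen v * (fgen u)⁻¹ * (fgen v)⁻¹)).2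
      (Subgroup.subset_normalClosure ⟨u, v, h, rfl⟩)
  exact commutatorElement_eq_one_iff_commute.1 h1

/-- The universal property. -/
def lift {H : Type} [Group H] (hH : derivedSeries H 2 = ⊥) (f : V → H)
    (hf : ∀ u v, Γ.Adj u v → Commute (f u) (f v)) : PCM Γ →* H :=
  QuotientGroup.lift (edgeSubgroup Γ) (show FreeMetab V →* H from
    QuotientGroup.lift (derivedSeries (FreeGroup V) 2) (FreeGroup.lift f) (fun x hx => by
    have h := map_derivedSeries_le_derivedSeries (FreeGroup.lift f) 2 ⟨x, hx, rfl⟩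
    rw [hH] at h
    exact h)) (Subgroup.normalClosure_le_normal (by
      rintro _ ⟨u, v, huv, rfl⟩
      have h := commutatorElement_eq_one_iff_commute.2 (hf u v huv)
      show FreeGroup.lift f (FreeGroup.of u * FreeGroup.of v * (FreeGroup.of u)⁻¹ *
        (FreeGroup.of v)⁻¹) = 1
      simpa [commutatorElement_def] using h))

theorem lift_gen {H : Type} [Group H] (hH : derivedSeries H 2 = ⊥) (f : V → H)
    (hf : ∀ u v, Γ.Adj u v → Commute (f u) (f v)) (v : V) : lift Γ hH f hf (gen Γ v) = f v := by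
  show FreeGroup.lift f (FreeGroup.of v) = f v
  simp

theorem pcm_ind {P : PCM Γ → Prop} (h1 : P 1) (hg : ∀ v, P (gen Γ v))
    (hi : ∀ x, P x → P x⁻¹) (hm : ∀ x y, P x → P y → P (x * y)) (x : PCM Γ) : P x := by
  obtain ⟨w, rfl⟩ := toPCM_surj Γ x
  induction w using FreeGroup.induction_on with
  | C1 => simpa using h1
  | of v => exact hg v
  | inv_of v ih => simpa using hi _ ih
  | mul x y ihx ihy => simpa using hm _ _ ihx ihy

theorem pcm_ext {H : Type} [Group H] {φ ψ : PCM Γ →* H} (h : ∀ v, φ (gen Γ v) = ψ (gen Γ v))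
    (x : PCM Γ) : φ x = ψ x := by
  induction x using pcm_ind with
  | h1 => simp
  | hg v => exact h v
  | hi x ih => simp [ih]
  | hm x y ihx ihy => simp [ihx, ihy]

open Classical in
/-- The retraction killing the generators outside `S`. -/
noncomputable def proj (S : Set V) : PCM Γ →* PCM Γ :=
  lift Γ (pcm_met Γ) (fun v => if v ∈ S then gen Γ v else 1) (fun u v h => by
    split_ifs
    · exact gen_comm Γ h
    · exact Commute.one_right _
    · exact Commute.one_left _
    · exact Commute.one_left _)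

theorem proj_mem {S : Set V} {v : V} (h : v ∈ S) : proj Γ S (gen Γ v) = gen Γ v := by
  unfold proj
  rw [lift_gen, if_pos h]

theorem proj_notMem {S : Set V} {v : V} (h : v ∉ S) : proj Γ S (gen Γ v) = 1 := by
  unfold proj
  rw [lift_gen, if_neg h]

theorem proj_proj (S : Set V) (x : PCM Γ) : proj Γ S (proj Γ S x) = proj Γ S x := by
  refine pcm_ext Γ (φ := (proj Γ S).comp (proj Γ S)) (ψ := proj Γ S) (fun v => ?_) x
  by_cases h : v ∈ S
  · simp [proj_mem Γ h]
  · simp [proj_notMem Γ h]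

theorem proj_compl (S T : Set V) (hST : ∀ v, v ∈ S → v ∉ T) (x : PCM Γ) :
    proj Γ S (proj Γ T x) = 1 := by
  refine pcm_ext Γ (φ := (proj Γ S).comp (proj Γ T)) (ψ := 1) (fun v => ?_) x
  by_cases h : v ∈ T
  · simp [proj_mem Γ h, proj_notMem Γ (fun h' => hST v h' h)]
  · simp [proj_notMem Γ h]

variable {S : Set V} (hS : ∀ u ∈ S, ∀ v, v ∉ S → Γ.Adj u v)

include hS

theorem proj_comm (x y : PCM Γ) : Commute (proj Γ S x) (proj Γ Sᶜ y) := by
  induction x using pcm_ind with
  | h1 => simp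
  | hi x ih => simpa using ih.inv_left
  | hm x x' ih ih' => simpa using ih.mul_left ih'
  | hg u =>
    by_cases hu : u ∈ S
    · rw [proj_mem Γ hu]
      induction y using pcm_ind with
      | h1 => simp
      | hi y ih => simpa using ih.inv_right
      | hm y y' ih ih' => simpa using ih.mul_right ih'
      | hg v =>
        by_cases hv : v ∈ S
        · rw [proj_notMem Γ (S := Sᶜ) (fun h => h hv)]
          exact Commute.one_right _
        · rw [proj_mem Γ (S := Sᶜ) hv]
          exact gen_comm Γ (hS u hu v hv)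
    · rw [proj_notMem Γ hu]
      exact Commute.one_left _

/-- The splitting map. -/
noncomputable def spl : PCM Γ × PCM Γ →* PCM Γ :=
  MonoidHom.noncommCoprod (proj Γ S) (proj Γ Sᶜ) (proj_comm Γ hS)

theorem spl_apply (x y : PCM Γ) : spl Γ hS (x, y) = proj Γ S x * proj Γ Sᶜ y := rfl

theorem spl_diag (x : PCM Γ) : proj Γ S x * proj Γ Sᶜ x = x := by
  refine pcm_ext Γ (φ := (spl Γ hS).comp ((MonoidHom.id _).prod (MonoidHom.id _)))
    (ψ := MonoidHom.id _) (fun v => ?_) x
  show proj Γ S (gen Γ v) * proj Γ Sᶜ (gen Γ v) = gen Γ v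
  by_cases h : v ∈ S
  · rw [proj_mem Γ h, proj_notMem Γ (S := Sᶜ) (fun h' => h' h), mul_one]
  · rw [proj_notMem Γ h, proj_mem Γ (S := Sᶜ) h, one_mul]

omit hS in
theorem gen_pow_inj (v : V) : Function.Injective fun k : ℕ => gen Γ v ^ k := by
  have hZ : derivedSeries (Multiplicative ℤ) 2 = ⊥ := by
    rw [eq_bot_iff, derivedSeries_succ, Subgroup.commutator_le]
    intro x _ y _
    exact commutatorElement_eq_one_iff_commute.2 (Commute.all _ _)
  intro k l h
  have h1 := congrArg (lift Γ hZ (fun _ => Multiplicative.ofAdd (1 : ℤ))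
    (fun _ _ _ => Commute.refl _)) h
  simp only [map_pow, lift_gen] at h1
  have h2 := congrArg Multiplicative.toAdd h1
  simpa using h2

theorem not_biInterp_join (h1 : S.Nonempty) (h2 : Sᶜ.Nonempty) :
    ¬ BiInterp Lgrp Lar (PCM Γ) ℕ := by
  refine not_biInterp (spl Γ hS) (fun x => ⟨(x, x), spl_diag Γ hS x⟩) (fun a b c d => ?_) ?_ ?_
  · simp only [spl_apply, map_one, mul_one, one_mul]
    constructor
    · intro h
      have ha := congrArg (proj Γ S) h
      have hb := congrArg (proj Γ Sᶜ) h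
      simp only [map_mul, proj_proj, proj_compl Γ S Sᶜ (fun v hv h' => h' hv),
        proj_compl Γ Sᶜ S (fun v hv => hv), mul_one, one_mul] at ha hb
      exact ⟨ha, hb⟩
    · rintro ⟨ha, hb⟩
      rw [ha, hb]
  · obtain ⟨v, hv⟩ := h1
    refine (Set.infinite_range_of_injective (gen_pow_inj Γ v)).mono ?_
    rintro _ ⟨k, rfl⟩
    refine ⟨gen Γ v ^ k, ?_⟩
    simp only [spl_apply, map_one, mul_one, map_pow, proj_mem Γ hv]
  · obtain ⟨v, hv⟩ := h2
    refine (Set.infinite_range_of_injective (gen_pow_inj Γ v)).mono ?_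
    rintro _ ⟨k, rfl⟩
    refine ⟨gen Γ v ^ k, ?_⟩
    simp only [spl_apply, map_one, one_mul, map_pow, proj_mem Γ hv]

end pcm

section affine

/-- Laurent polynomials in two variables. -/
abbrev R : Type := AddMonoidAlgebra ℤ (ℤ × ℤ)

/-- Monomials. -/
noncomputable def X (u : ℤ × ℤ) : R := AddMonoidAlgebra.single u 1

theorem X_add (u v : ℤ × ℤ) : X (u + v) = X u * X v := by
  simp [X, AddMonoidAlgebra.single_mul_single]

theorem X_zero : X 0 = 1 := rfl

theorem X_neg (u : ℤ × ℤ) : X u * X (-u) = 1 := by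
  rw [← X_add, add_neg_cancel, X_zero]

theorem X_eq_one {u : ℤ × ℤ} (h : X u = 1) : u = 0 := by
  rw [← X_zero] at h
  exact AddMonoidAlgebra.single_left_injective (one_ne_zero (α := ℤ)) h

/-- Affine maps `z ↦ X u * z + t`. -/
@[ext] structure W : Type where
  t : R
  u : ℤ × ℤ

noncomputable instance : Mul W := ⟨fun g h => ⟨g.t + X g.u * h.t, g.u + h.u⟩⟩
noncomputable instance : One W := ⟨⟨0, 0⟩⟩
noncomputable instance : Inv W := ⟨fun g => ⟨-(X (-g.u) * g.t), -g.u⟩⟩

theorem mul_t (g h : W) : (g * h).t = g.t + X g.u * h.t := rfl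
theorem mul_u (g h : W) : (g * h).u = g.u + h.u := rfl
theorem one_t : (1 : W).t = 0 := rfl
theorem one_u : (1 : W).u = 0 := rfl
theorem inv_t (g : W) : (g⁻¹).t = -(X (-g.u) * g.t) := rfl
theorem inv_u (g : W) : (g⁻¹).u = -g.u := rfl

noncomputable instance : Group W := Group.ofLeftAxioms
  (fun a b c => by
    ext1
    · simp only [mul_t, mul_u, X_add]
      ring
    · simp only [mul_u, add_assoc])
  (fun a => by
    ext1
    · simp only [mul_t, one_t, one_u, X_zero]
      ring
    · simp only [mul_u, one_u, zero_add])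
  (fun a => by
    ext1
    · simp only [mul_t, inv_t, inv_u, one_t]
      ring
    · simp only [mul_u, inv_u, one_u, neg_add_cancel])

/-- The linear part. -/
def lin : W →* Multiplicative (ℤ × ℤ) where
  toFun g := Multiplicative.ofAdd g.u
  map_one' := rfl
  map_mul' _ _ := rfl

theorem W_met : derivedSeries W 2 = ⊥ := by
  have h : derivedSeries W 1 ≤ lin.ker := by
    rw [derivedSeries_succ, Subgroup.commutator_le]
    intro x _ y _
    rw [MonoidHom.mem_ker, map_commutatorElement]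
    exact commutatorElement_eq_one_iff_commute.2 (Commute.all _ _)
  rw [eq_bot_iff, derivedSeries_succ, Subgroup.commutator_le]
  intro x hx y hy
  have hx0 : x.u = 0 := h hx
  have hy0 : y.u = 0 := h hy
  refine commutatorElement_eq_one_iff_commute.2 ?_
  show x * y = y * x
  ext1
  · simp only [mul_t, hx0, hy0, X_zero]
    ring
  · simp only [mul_u, add_comm]

/-- The map `z ↦ x z + 1`. -/
noncomputable def WA : W := ⟨1, (1, 0)⟩

/-- The map `z ↦ y z`. -/
noncomputable def WB : W := ⟨0, (0, 1)⟩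

/-- Translations. -/
noncomputable def tr (r : R) : W := ⟨r, 0⟩

theorem tr_add (r s : R) : tr (r + s) = tr r * tr s := by
  ext1
  · simp [tr, mul_t, X_zero]
  · simp [tr, mul_u]

/-- Translations as a homomorphism. -/
noncomputable def trHom : Multiplicative R →* W where
  toFun r := tr r.toAdd
  map_one' := rfl
  map_mul' _ _ := tr_add _ _

theorem tr_zpow (r : R) (n : ℤ) : tr r ^ n = tr (n • r) := by
  have h := map_zpow trHom (Multiplicative.ofAdd r) n
  exact h.symm

theorem conj_tr (g : W) (r : R) : g * tr r * g⁻¹ = tr (X g.u * r) := by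
  ext1
  · simp only [tr, mul_t, mul_u, inv_t, add_zero]
    have h := X_neg g.u
    linear_combination (-g.t) * h
  · simp [tr, mul_u, inv_u]

theorem comm_AB : WA * WB * WA⁻¹ * WB⁻¹ = tr (1 - X (0, 1)) := by
  ext1
  · simp only [tr, WA, WB, mul_t, mul_u, inv_t, inv_u, mul_zero, add_zero, neg_zero, mul_one]
    have h : X ((1, 0) + (0, 1)) * X (-(1, 0)) = X (0, 1) := by
      rw [← X_add]
      congr 1
    linear_combination -h
  · simp [tr, WA, WB, mul_u, inv_u]

theorem kappa_ne : (1 - X (0, 1) : R) ≠ 0 := by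
  intro h
  have h1 : X (0, 1) = 1 := by linear_combination -h
  have h2 := X_eq_one h1
  simp at h2

theorem pow_u (i j : ℤ) : (WA ^ i * WB ^ j).u = (i, j) := by
  have h : lin (WA ^ i * WB ^ j) = Multiplicative.ofAdd (i, j) := by
    rw [map_mul, map_zpow, map_zpow]
    show Multiplicative.ofAdd ((1, 0) : ℤ × ℤ) ^ i * Multiplicative.ofAdd ((0, 1) : ℤ × ℤ) ^ j = _
    rw [← ofAdd_zsmul, ← ofAdd_zsmul, ← ofAdd_add]
    congr 1
    simp
  exact h

theorem central_W {g : W} (ha : Commute g WA) (hb : Commute g WB) : g = 1 := by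
  have h1 := congrArg W.t hb.eq
  have h2 := congrArg W.t ha.eq
  simp only [mul_t, WA, WB, mul_zero, add_zero, zero_add, mul_one] at h1 h2
  have h3 : (1 - X (0, 1)) * g.t = 0 := by linear_combination h1
  have h4 : g.t = 0 := (mul_eq_zero.1 h3).resolve_left kappa_ne
  rw [h4] at h2
  have h5 : X g.u = 1 := by linear_combination h2
  ext1
  · exact h4
  · exact X_eq_one h5

end affine

section key

variable {M : Type} [Group M] (hM : derivedSeries M 2 = ⊥)

include hM

theorem comm_of_mem {x y : M} (hx : x ∈ commutator M) (hy : y ∈ commutator M) : x * y = y * x := by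
  have h : x * y * x⁻¹ * y⁻¹ ∈ derivedSeries M 2 := Subgroup.commutator_mem_commutator hx hy
  rw [hM] at h
  exact (commutatorElement_eq_one_iff_commute.1 h).eq

theorem conj_swap (g h : M) {k : M} (hk : k ∈ commutator M) :
    g * h * k * (g * h)⁻¹ = h * g * k * (h * g)⁻¹ := by
  have h1 : g⁻¹ * h⁻¹ * g⁻¹⁻¹ * h⁻¹⁻¹ ∈ commutator M :=
    Subgroup.commutator_mem_commutator (Subgroup.mem_top g⁻¹) (Subgroup.mem_top h⁻¹)
  have h2 := comm_of_mem hM h1 hk
  calc g * h * k * (g * h)⁻¹
      = h * g * ((g⁻¹ * h⁻¹ * g⁻¹⁻¹ * h⁻¹⁻¹) * k) * (g * h)⁻¹ := by group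
    _ = h * g * k * (h * g)⁻¹ := by
      rw [h2]
      group

theorem key {V : Type} (ψ : FreeGroup V →* M) (a b : M)
    (hψ : ∀ v, ψ (FreeGroup.of v) = a ∨ ψ (FreeGroup.of v) = b ∨ ψ (FreeGroup.of v) = 1)
    (ρ : M →* W) (hρa : ρ a = WA) (hρb : ρ b = WB) (w : FreeGroup V)
    (h1 : Commute (ψ w) a) (h2 : Commute (ψ w) b) : ψ w = 1 := by
  obtain ⟨c, hc⟩ : ∃ c, c = a * b * a⁻¹ * b⁻¹ := ⟨_, rfl⟩
  have hcK : c ∈ commutator M := by
    rw [hc]
    exact Subgroup.commutator_mem_commutator (Subgroup.mem_top a) (Subgroup.mem_top b)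
  obtain ⟨T, hT⟩ : ∃ T : ℤ × ℤ → M, ∀ p, T p = a ^ p.1 * b ^ p.2 * c * (a ^ p.1 * b ^ p.2)⁻¹ :=
    ⟨_, fun _ => rfl⟩
  have hnorm : (commutator M).Normal := inferInstance
  have hTK : ∀ p, T p ∈ commutator M := fun p => by
    rw [hT]
    exact hnorm.conj_mem _ hcK _
  obtain ⟨N, hN⟩ : ∃ N : Subgroup M, N = Subgroup.closure (Set.range T) := ⟨_, rfl⟩
  have hTN : ∀ p, T p ∈ N := fun p => by
    rw [hN]
    exact Subgroup.subset_closure ⟨p, rfl⟩
  have hconj : ∀ g : M, (∀ p, ∃ q, g * T p * g⁻¹ = T q) → ∀ n ∈ N, g * n * g⁻¹ ∈ N := by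
    intro g hg n hn
    rw [hN] at hn
    induction hn using Subgroup.closure_induction with
    | mem x hx =>
      obtain ⟨p, rfl⟩ := hx
      obtain ⟨q, hq⟩ := hg p
      rw [hq]
      exact hTN q
    | one => simp
    | mul x y _ _ hx hy =>
      have : g * (x * y) * g⁻¹ = (g * x * g⁻¹) * (g * y * g⁻¹) := by group
      rw [this]
      exact N.mul_mem hx hy
    | inv x _ hx =>
      have : g * x⁻¹ * g⁻¹ = (g * x * g⁻¹)⁻¹ := by group
      rw [this]
      exact N.inv_mem hx
  have hA : ∀ (k : ℤ) p, ∃ q, a ^ k * T p * (a ^ k)⁻¹ = T q := by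
    intro k p
    refine ⟨(k + p.1, p.2), ?_⟩
    rw [hT, hT]
    group
  have hB : ∀ (k : ℤ) p, ∃ q, b ^ k * T p * (b ^ k)⁻¹ = T q := by
    intro k p
    refine ⟨(p.1, k + p.2), ?_⟩
    rw [hT, hT]
    have h3 : b ^ p.2 * c * (b ^ p.2)⁻¹ ∈ commutator M := hnorm.conj_mem _ hcK _
    have h4 := conj_swap hM (b ^ k) (a ^ p.1) h3
    calc b ^ k * (a ^ p.1 * b ^ p.2 * c * (a ^ p.1 * b ^ p.2)⁻¹) * (b ^ k)⁻¹
        = b ^ k * a ^ p.1 * (b ^ p.2 * c * (b ^ p.2)⁻¹) * (b ^ k * a ^ p.1)⁻¹ := by group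
      _ = _ := by
        rw [h4]
        group
  have hall : ∀ x : FreeGroup V, (∀ n ∈ N, ψ x * n * (ψ x)⁻¹ ∈ N) ∧
      (∀ n ∈ N, (ψ x)⁻¹ * n * (ψ x)⁻¹⁻¹ ∈ N) := by
    intro x
    induction x using FreeGroup.induction_on with
    | C1 => simp
    | of v =>
      rcases hψ v with h | h | h
      · rw [h]
        exact ⟨hconj a (by simpa using hA 1), hconj a⁻¹ (by simpa using hA (-1))⟩
      · rw [h]
        exact ⟨hconj b (by simpa using hB 1), hconj b⁻¹ (by simpa using hB (-1))⟩
      · rw [h]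
        simp
    | inv_of v ih =>
      rw [map_inv]
      exact ⟨ih.2, by simpa using ih.1⟩
    | mul x y ihx ihy =>
      rw [map_mul]
      constructor
      · intro n hn
        have : ψ x * ψ y * n * (ψ x * ψ y)⁻¹ = ψ x * (ψ y * n * (ψ y)⁻¹) * (ψ x)⁻¹ := by group
        rw [this]
        exact ihx.1 _ (ihy.1 n hn)
      · intro n hn
        have : (ψ x * ψ y)⁻¹ * n * (ψ x * ψ y)⁻¹⁻¹ =
          (ψ y)⁻¹ * ((ψ x)⁻¹ * n * (ψ x)⁻¹⁻¹) * (ψ y)⁻¹⁻¹ := by group
        rw [this]
        exact ihy.2 _ (ihx.2 n hn)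
  have haN : a ∈ Subgroup.normalizer (N : Set M) := by
    rw [Subgroup.mem_normalizer_iff]
    intro n
    refine ⟨hconj a (by simpa using hA 1) n, fun hn => ?_⟩
    have := hconj a⁻¹ (by simpa using hA (-1)) _ hn
    simpa [mul_assoc] using this
  have hbN : b ∈ Subgroup.normalizer (N : Set M) := by
    rw [Subgroup.mem_normalizer_iff]
    intro n
    refine ⟨hconj b (by simpa using hB 1) n, fun hn => ?_⟩
    have := hconj b⁻¹ (by simpa using hB (-1)) _ hn
    simpa [mul_assoc] using this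
  have hψN : ∀ x, ψ x ∈ Subgroup.normalizer (N : Set M) := by
    intro x
    rw [Subgroup.mem_normalizer_iff]
    intro n
    refine ⟨(hall x).1 n, fun hn => ?_⟩
    have := (hall x).2 _ hn
    simpa [mul_assoc] using this
  let P := Subgroup.normalizer (N : Set M)
  let π : P →* P ⧸ N.subgroupOf P := QuotientGroup.mk' _
  let a' : P := ⟨a, haN⟩
  let b' : P := ⟨b, hbN⟩
  have hab : Commute (π a') (π b') := by
    refine commutatorElement_eq_one_iff_commute.1 ?_
    rw [← map_commutatorElement]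
    refine (QuotientGroup.eq_one_iff _).2 ?_
    have h := hTN (0, 0)
    rw [hT, hc] at h
    show a * b * a⁻¹ * b⁻¹ ∈ N
    simpa using h
  let ψ' : FreeGroup V →* P := ψ.codRestrict P hψN
  have hnf : ∀ x, ∃ i j : ℤ, π (ψ' x) = π a' ^ i * π b' ^ j := by
    intro x
    induction x using FreeGroup.induction_on with
    | C1 => exact ⟨0, 0, by simp⟩
    | of v =>
      rcases hψ v with h | h | h
      · have : ψ' (FreeGroup.of v) = a' := Subtype.ext h
        exact ⟨1, 0, by simp [this]⟩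
      · have : ψ' (FreeGroup.of v) = b' := Subtype.ext h
        exact ⟨0, 1, by simp [this]⟩
      · have : ψ' (FreeGroup.of v) = 1 := Subtype.ext h
        exact ⟨0, 0, by simp [this]⟩
    | inv_of v ih =>
      obtain ⟨i, j, h⟩ := ih
      refine ⟨-i, -j, ?_⟩
      rw [map_inv, map_inv, h, mul_inv_rev, ← zpow_neg, ← zpow_neg]
      exact (hab.zpow_zpow (-i) (-j)).eq.symm
    | mul x y ihx ihy =>
      obtain ⟨i, j, h⟩ := ihx
      obtain ⟨i', j', h'⟩ := ihy
      refine ⟨i + i', j + j', ?_⟩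
      rw [map_mul, map_mul, h, h', zpow_add, zpow_add]
      have h3 := (hab.zpow_zpow i' j).eq
      calc π a' ^ i * π b' ^ j * (π a' ^ i' * π b' ^ j')
          = π a' ^ i * (π b' ^ j * π a' ^ i') * π b' ^ j' := by group
        _ = _ := by
          rw [← h3]
          simp only [mul_assoc]
  obtain ⟨i, j, hij⟩ := hnf w
  have hmem : (a ^ i * b ^ j)⁻¹ * ψ w ∈ N := by
    rw [← map_zpow, ← map_zpow, ← map_mul] at hij
    have h := QuotientGroup.eq.1 hij.symm
    exact h
  let K := commutator M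
  let _ : CommGroup K := { (inferInstance : Group K) with
    mul_comm := fun x y => Subtype.ext (comm_of_mem hM x.2 y.2) }
  let φ : ((ℤ × ℤ) →₀ ℤ) → K := fun r => r.prod (fun p n => (⟨T p, hTK p⟩ : K) ^ n)
  have hφadd : ∀ r s, φ (r + s) = φ r * φ s := fun r s =>
    Finsupp.prod_add_index' (fun _ => zpow_zero _) (fun _ _ _ => zpow_add _ _ _)
  have hφs : ∀ p n, φ (Finsupp.single p n) = (⟨T p, hTK p⟩ : K) ^ n := fun p n =>
    Finsupp.prod_single_index (zpow_zero _)
  have hφ0 : φ 0 = 1 := rfl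
  have hNφ : ∀ n ∈ N, ∃ r, (φ r : M) = n := by
    intro n hn
    rw [hN] at hn
    induction hn using Subgroup.closure_induction with
    | mem x hx =>
      obtain ⟨p, rfl⟩ := hx
      exact ⟨Finsupp.single p 1, by rw [hφs, zpow_one]⟩
    | one => exact ⟨0, rfl⟩
    | mul x y _ _ hx hy =>
      obtain ⟨r, rfl⟩ := hx
      obtain ⟨s, rfl⟩ := hy
      exact ⟨r + s, by rw [hφadd]; rfl⟩
    | inv x _ hx =>
      obtain ⟨r, rfl⟩ := hx
      refine ⟨-r, ?_⟩
      have h : φ (-r) * φ r = 1 := by rw [← hφadd, neg_add_cancel, hφ0]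
      rw [eq_inv_of_mul_eq_one_left h]
      rfl
  have hρT : ∀ p, ρ (T p) = tr (X p * (1 - X (0, 1))) := by
    intro p
    rw [hT, hc]
    simp only [map_mul, map_inv, map_zpow, hρa, hρb]
    rw [comm_AB, conj_tr, pow_u]
  have hρφ : ∀ r, ρ (φ r) = tr (AddMonoidAlgebra.ofCoeff r * (1 - X (0, 1))) := by
    intro r
    induction r using Finsupp.induction_linear with
    | zero =>
      rw [hφ0]
      show ρ 1 = tr ((0 : R) * _)
      rw [map_one, zero_mul]
      rfl
    | add r s hr hs =>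
      rw [hφadd]
      show ρ (φ r * φ s) =
        tr ((AddMonoidAlgebra.ofCoeff r + AddMonoidAlgebra.ofCoeff s) * (1 - X (0, 1)))
      rw [map_mul, hr, hs, add_mul, tr_add]
    | single p n =>
      rw [hφs]
      show ρ (T p ^ n) = tr (AddMonoidAlgebra.single p n * (1 - X (0, 1)))
      rw [map_zpow, hρT, tr_zpow, ← smul_mul_assoc]
      congr 2
      simp [X]
  obtain ⟨r, hr⟩ := hNφ _ hmem
  have hw : ψ w = a ^ i * b ^ j * φ r := by
    rw [hr]
    group
  have hone : ρ (ψ w) = 1 := central_W (hρa ▸ h1.map ρ) (hρb ▸ h2.map ρ)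
  rw [hw, map_mul, map_mul, map_zpow, map_zpow, hρa, hρb, hρφ] at hone
  have hu := congrArg W.u hone
  rw [mul_u, pow_u] at hu
  have hi0 : i = 0 := by simpa [tr, one_u] using congrArg Prod.fst hu
  have hj0 : j = 0 := by simpa [tr, one_u] using congrArg Prod.snd hu
  rw [hi0, hj0, zpow_zero, zpow_zero, one_mul, one_mul] at hone
  have ht : AddMonoidAlgebra.ofCoeff r * (1 - X (0, 1)) = 0 := congrArg W.t hone
  have hr0 : AddMonoidAlgebra.ofCoeff r = (0 : R) := (mul_eq_zero.1 ht).resolve_right kappa_ne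
  have hr1 : r = 0 := congrArg AddMonoidAlgebra.coeff hr0
  rw [hw, hi0, hj0, hr1, hφ0]
  simp

end key

theorem proj_central {V : Type} (Γ : SimpleGraph V) (a b : V) (hne : a ≠ b) (hab : ¬ Γ.Adj a b)
    (x : PCM Γ) (hx : x ∈ Subgroup.center (PCM Γ)) : proj Γ {a, b} x = 1 := by
  classical
  obtain ⟨w, rfl⟩ := toPCM_surj Γ x
  have ha : a ∈ ({a, b} : Set V) := by simp
  have hb : b ∈ ({a, b} : Set V) := by simp
  let ρ : PCM Γ →* W := lift Γ W_met (fun v => if v = a then WA else if v = b then WB else 1)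
    (fun u v huv => by
      by_cases hua : u = a
      · by_cases hva : v = a
        · simp [hua, hva]
        · by_cases hvb : v = b
          · exact absurd (hua ▸ hvb ▸ huv) hab
          · simp [hva, hvb]
      · by_cases hub : u = b
        · by_cases hva : v = a
          · exact absurd (hub ▸ hva ▸ huv).symm hab
          · by_cases hvb : v = b
            · simp [hub, hvb]
            · simp [hva, hvb]
        · simp [hua, hub])
  refine key (pcm_met Γ) ((proj Γ {a, b}).comp (toPCM Γ)) (gen Γ a) (gen Γ b) (fun v => ?_) ρ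
    ?_ ?_ w ?_ ?_
  · show proj Γ {a, b} (gen Γ v) = _ ∨ proj Γ {a, b} (gen Γ v) = _ ∨ proj Γ {a, b} (gen Γ v) = _
    by_cases hv : v ∈ ({a, b} : Set V)
    · rw [proj_mem Γ hv]
      rcases hv with rfl | rfl
      · exact Or.inl rfl
      · exact Or.inr (Or.inl rfl)
    · exact Or.inr (Or.inr (proj_notMem Γ hv))
  · show lift Γ _ _ _ _ = _
    rw [lift_gen]
    simp
  · show lift Γ _ _ _ _ = _
    rw [lift_gen]
    simp [hne.symm]
  · have h : Commute (toPCM Γ w) (gen Γ a) := ((Subgroup.mem_center_iff.1 hx) _).symm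
    have h1 := h.map (proj Γ {a, b})
    rwa [proj_mem Γ ha] at h1
  · have h : Commute (toPCM Γ w) (gen Γ b) := ((Subgroup.mem_center_iff.1 hx) _).symm
    have h1 := h.map (proj Γ {a, b})
    rwa [proj_mem Γ hb] at h1

end Pool.Agent.H146Z.BiGrp
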