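import Pool.Agent.Helper304.LapChain

set_option autoImplicit false

/-!
Localisation of weak derivatives, a Poincare inequality on the ball of radius one half, and the
first variation identity for the map `cosh (max s 0) * (cos t, sin t)`.
-/

namespace Pool.Agent.H146Z.Cm

open MeasureTheory Filter Topology Set Helper304Lap
open scoped ContDiff

variable {N : ℕ}

/-- The ball of radius one half. -/
def B (N : ℕ) : Set (E N) := Metric.ball 0 (1 / 2)

theorem B_meas : MeasurableSet (B N) := Metric.isOpen_ball.measurableSet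

theorem coord_le {x : E N} (hx : x ∈ B N) (i : Fin N) : |x i| ≤ 1 / 2 := by
  have h1 : ‖x‖ < 1 / 2 := by simpa [B] using hx
  have h2 : ‖x i‖ ≤ ‖x‖ := PiLp.norm_apply_le x i
  rw [Real.norm_eq_abs] at h2
  linarith

theorem pd_congr {φ ψ : E N → ℝ} {x : E N} (i : Fin N) (h : φ =ᶠ[𝓝 x] ψ) :
    pd i φ x = pd i ψ x := by
  unfold pd
  rw [h.fderiv_eq]

theorem bump_tst (χ : ContDiffBump (0 : E N)) : Tst (χ : E N → ℝ) :=
  ⟨χ.contDiff, χ.hasCompactSupport⟩

theorem pd_cut (χ : ContDiffBump (0 : E N)) (φ : E N → ℝ) (i : Fin N) {x : E N}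
    (hx : ‖x‖ < χ.rIn) : pd i (fun y => φ y * χ y) x = pd i φ x := by
  apply pd_congr
  have h := χ.eventuallyEq_one_of_mem_ball (x := x) (by simpa using hx)
  filter_upwards [h] with y hy
  rw [hy]
  simp

theorem loc {S : Set (E N)} (hS : MeasurableSet S) {r : ℝ} (hr : r < 1 / 2)
    (hSr : ∀ x ∈ S, ‖x‖ ≤ r) {W V : E N → ℝ} {i : Fin N} (hW : IntegrableOn W (B N))
    (hV : IntegrableOn V (B N)) (h0 : ∀ᵐ x ∂(volume.restrict (B N \ S)), W x = 0)
    (hweak : ∀ φ, Tst φ → tsupport φ ⊆ B N →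
      ∫ x in B N, W x * pd i φ x = - ∫ x in B N, V x * φ x) :
    WD i (S.indicator W) (S.indicator V) := by
  have hSB : S ⊆ B N := fun x hx => by
    have := hSr x hx
    simp only [B, Metric.mem_ball, dist_zero_right]
    linarith
  obtain ⟨ρ, hρ0, hρ1, hρ2⟩ : ∃ ρ : ℝ, 0 < ρ ∧ r < ρ ∧ ρ < 1 / 2 :=
    ⟨(max r 0 + 1 / 2) / 2, by have := le_max_right r 0; linarith,
      by have := le_max_left r 0; linarith,
      by have : max r 0 < 1 / 2 := max_lt hr (by norm_num); linarith⟩
  let χ : ContDiffBump (0 : E N) := ⟨ρ, (ρ + 1 / 2) / 2, hρ0, by linarith⟩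
  have hχB : tsupport (χ : E N → ℝ) ⊆ B N := by
    rw [χ.tsupport_eq]
    apply Metric.closedBall_subset_ball
    show (ρ + 1 / 2) / 2 < 1 / 2
    linarith
  have hin : ∀ x ∈ S, ‖x‖ < χ.rIn := fun x hx => (hSr x hx).trans_lt hρ1
  have hχ1 : ∀ x ∈ S, χ x = 1 := fun x hx =>
    χ.one_of_mem_closedBall (by simpa using (hin x hx).le)
  have h0' : ∀ᵐ x, x ∈ B N \ S → W x = 0 := (ae_restrict_iff' (B_meas.diff hS)).1 h0
  have h1 : WD i (S.indicator W) ((B N).indicator (fun x => V x * χ x)) := by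
    intro φ hφ
    have h2 := hweak (fun y => φ y * χ y) (hφ.mul (bump_tst χ))
      ((tsupport_mul_subset_right).trans hχB)
    rw [← integral_indicator B_meas, ← integral_indicator B_meas] at h2
    have e1 : ∫ x, S.indicator W x * pd i φ x =
        ∫ x, (B N).indicator (fun x => W x * pd i (fun y => φ y * χ y) x) x := by
      apply integral_congr_ae
      filter_upwards [h0'] with x hx
      by_cases hxS : x ∈ S
      · rw [indicator_of_mem hxS, indicator_of_mem (hSB hxS), pd_cut χ φ i (hin x hxS)]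
      · by_cases hxB : x ∈ B N
        · rw [indicator_of_notMem hxS, indicator_of_mem hxB, hx ⟨hxB, hxS⟩]
          simp
        · rw [indicator_of_notMem hxS, indicator_of_notMem hxB]
          simp
    rw [e1, h2]
    congr 1
    apply integral_congr_ae
    refine Eventually.of_forall fun x => ?_
    by_cases hxB : x ∈ B N
    · simp only [indicator_of_mem hxB]
      ring
    · simp [indicator_of_notMem hxB]
  have hiW : Integrable (S.indicator W) := (integrable_indicator_iff hS).2 (hW.mono_set hSB)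
  have hiV : Integrable ((B N).indicator (fun x => V x * χ x)) := by
    rw [integrable_indicator_iff B_meas]
    refine Integrable.mul_bdd (c := 1) hV χ.continuous.aestronglyMeasurable ?_
    refine Eventually.of_forall fun x => ?_
    rw [Real.norm_eq_abs, abs_of_nonneg χ.nonneg]
    exact χ.le_one
  have h3 := stampacchia hiW hiV h1 (Z := {0}) (by simp)
  intro φ hφ
  rw [h1 φ hφ]
  congr 1
  apply integral_congr_ae
  filter_upwards [h3] with x hx
  by_cases hxS : x ∈ S
  · rw [indicator_of_mem hxS, indicator_of_mem (hSB hxS), hχ1 x hxS, mul_one]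
  · rw [indicator_of_notMem hxS, hx (by simp [indicator_of_notMem hxS])]

theorem wd_smooth {w V : E N → ℝ} {i : Fin N} (h : WD i w V) (hw : ∀ x, x ∉ B N → w x = 0)
    (hV : ∀ x, x ∉ B N → V x = 0) {ψ : E N → ℝ} (hψ : ContDiff ℝ ∞ ψ) :
    ∫ x, w x * pd i ψ x = - ∫ x, V x * ψ x := by
  let χ : ContDiffBump (0 : E N) := ⟨1, 2, by norm_num, by norm_num⟩
  have hin : ∀ x ∈ B N, ‖x‖ < χ.rIn := fun x hx => by
    have h1 : ‖x‖ < 1 / 2 := by simpa [B] using hx
    show ‖x‖ < 1
    linarith
  have h1 := h (fun y => ψ y * χ y) ((bump_tst χ).smooth_mul hψ)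
  have e1 : ∀ x, w x * pd i (fun y => ψ y * χ y) x = w x * pd i ψ x := by
    intro x
    by_cases hx : x ∈ B N
    · rw [pd_cut χ ψ i (hin x hx)]
    · simp [hw x hx]
  have e2 : ∀ x, V x * (ψ x * χ x) = V x * ψ x := by
    intro x
    by_cases hx : x ∈ B N
    · rw [χ.one_of_mem_closedBall (by simpa using (hin x hx).le), mul_one]
    · simp [hV x hx]
  simpa only [e1, e2] using h1

theorem hasFDerivAt_coord (k : Fin N) (x : E N) :
    HasFDerivAt (fun y : E N => y k) (EuclideanSpace.proj (𝕜 := ℝ) k) x :=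
  (EuclideanSpace.proj (𝕜 := ℝ) k).hasFDerivAt

theorem contDiff_coord (k : Fin N) {n : WithTop ℕ∞} : ContDiff ℝ n (fun y : E N => y k) :=
  (EuclideanSpace.proj (𝕜 := ℝ) k : E N →L[ℝ] ℝ).contDiff

theorem poincare {w V : E N → ℝ} {i : Fin N} (h : WD i w V) (hw : ∀ x, x ∉ B N → w x = 0)
    (hV : ∀ x, x ∉ B N → V x = 0) (hw1 : Integrable w) (hV1 : Integrable V)
    (hw2 : Integrable (fun x => w x ^ 2)) (hV2 : Integrable (fun x => V x ^ 2)) :
    ∫ x, w x ^ 2 ≤ ∫ x, V x ^ 2 := by
  let θ : ℕ → ℝ → ℝ := fun M s => max (-(M : ℝ)) (min (M : ℝ) (2 * s))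
  have hθc : ∀ M, Continuous (θ M) := fun M => by
    simp only [θ]
    fun_prop
  have hθM : ∀ M s, |θ M s| ≤ M := fun M s => by
    have : (0 : ℝ) ≤ M := Nat.cast_nonneg M
    rw [abs_le]
    exact ⟨le_max_left _ _, max_le (by linarith) (min_le_left _ _)⟩
  have hθs : ∀ M s, |θ M s| ≤ 2 * |s| := fun M s => by
    have : (0 : ℝ) ≤ M := Nat.cast_nonneg M
    have h1 := le_abs_self s
    have h2 := neg_abs_le s
    rw [abs_le]
    refine ⟨le_max_of_le_right (le_min (by linarith) (by linarith)),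
      max_le (by linarith) (min_le_of_right_le (by linarith))⟩
  have hP : ∀ M s, |prim (θ M) s| ≤ 2 * s ^ 2 := fun M s => by
    have h1 := intervalIntegral.norm_integral_le_of_norm_le_const (f := θ M) (C := 2 * |s|)
      (a := 0) (b := s) (fun t ht => by
        refine (hθs M t).trans ?_
        have h2 : |t| ≤ |s| := by
          have := Set.abs_sub_left_of_mem_uIcc (Set.uIoc_subset_uIcc ht)
          simpa using this
        linarith)
    rw [sub_zero, mul_assoc, abs_mul_abs_self] at h1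
    rw [sq]
    exact h1
  have hlim : ∀ s, Tendsto (fun M => prim (θ M) s) atTop (𝓝 (s ^ 2)) := fun s => by
    apply tendsto_const_nhds.congr'
    obtain ⟨K, hK⟩ := exists_nat_ge (2 * |s|)
    filter_upwards [eventually_ge_atTop K] with M hM
    have hM' : 2 * |s| ≤ M := hK.trans (by exact_mod_cast hM)
    have e : prim (θ M) s = ∫ t in (0 : ℝ)..s, 2 * t := by
      apply intervalIntegral.integral_congr
      intro t ht
      have h2 : |t| ≤ |s| := by
        have := Set.abs_sub_left_of_mem_uIcc ht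
        simpa using this
      have h3 := le_abs_self t
      have h4 := neg_abs_le t
      show max (-(M : ℝ)) (min (M : ℝ) (2 * t)) = 2 * t
      rw [min_eq_right (by linarith), max_eq_right (by linarith)]
    rw [e, intervalIntegral.integral_const_mul, integral_id]
    ring
  have hstep : ∀ M, ∫ x, prim (θ M) (w x) ≤ ∫ x, (w x ^ 2 + V x ^ 2) / 2 := by
    intro M
    have h1 := chain_cont hw1 hV1 h (hθc M) (hθM M)
    have h2 := wd_smooth h1 (fun x hx => by simp [hw x hx, prim]) (fun x hx => by simp [hV x hx])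
      (contDiff_coord i)
    have h3 : ∀ x : E N, pd i (fun y : E N => y i) x = 1 := fun x => by
      unfold pd
      rw [(hasFDerivAt_coord i x).fderiv]
      simp [bv]
    simp only [h3, mul_one] at h2
    rw [h2, ← integral_neg]
    refine (le_abs_self _).trans ((abs_integral_le_integral_abs).trans ?_)
    apply integral_mono_of_nonneg (Eventually.of_forall fun x => abs_nonneg _)
      ((hw2.add hV2).div_const 2)
    refine Eventually.of_forall fun x => ?_
    by_cases hx : x ∈ B N
    · have h4 := coord_le hx i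
      have h5 := hθs M (w x)
      show |-(θ M (w x) * V x * x i)| ≤ (w x ^ 2 + V x ^ 2) / 2
      rw [abs_neg, abs_mul, abs_mul]
      have h6 : |θ M (w x)| * |V x| * |x i| ≤ (2 * |w x|) * |V x| * (1 / 2) :=
        mul_le_mul (mul_le_mul_of_nonneg_right h5 (abs_nonneg _)) h4 (abs_nonneg _)
          (by positivity)
      have h7 := sq_nonneg (|w x| - |V x|)
      have h8 := sq_abs (w x)
      have h9 := sq_abs (V x)
      nlinarith
    · show |-(θ M (w x) * V x * x i)| ≤ (w x ^ 2 + V x ^ 2) / 2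
      simp [hV x hx, hw x hx]
  have ht : Tendsto (fun M => ∫ x, prim (θ M) (w x)) atTop (𝓝 (∫ x, w x ^ 2)) := by
    apply tendsto_integral_of_dominated_convergence (fun x => 2 * w x ^ 2)
    · intro M
      exact (prim_cont (hθc M).measurable (hθM M)).comp_aestronglyMeasurable
        hw1.aestronglyMeasurable
    · exact hw2.const_mul 2
    · intro M
      exact Eventually.of_forall fun x => hP M (w x)
    · exact Eventually.of_forall fun x => hlim (w x)
  have hle := le_of_tendsto' ht hstep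
  rw [integral_div, integral_add hw2 hV2] at hle
  linarith

theorem dct {f : E N → ℝ} (hf : Integrable f) (h0 : ∀ x, x ∉ B N → f x = 0)
    {a : ℕ → E N → ℝ} {a' : E N → ℝ} (ha : ∀ k, Continuous (a k)) {C : ℝ}
    (hC : ∀ k, ∀ x ∈ B N, |a k x| ≤ C) (hl : ∀ x, Tendsto (fun k => a k x) atTop (𝓝 (a' x))) :
    Tendsto (fun k => ∫ x, f x * a k x) atTop (𝓝 (∫ x, f x * a' x)) := by
  apply tendsto_integral_of_dominated_convergence (fun x => |f x| * C)
  · intro k
    exact hf.aestronglyMeasurable.mul (ha k).aestronglyMeasurable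
  · exact hf.abs.mul_const C
  · intro k
    refine Eventually.of_forall fun x => ?_
    rw [Real.norm_eq_abs, abs_mul]
    by_cases hx : x ∈ B N
    · exact mul_le_mul_of_nonneg_left (hC k x hx) (abs_nonneg _)
    · simp [h0 x hx]
  · exact Eventually.of_forall fun x => (hl x).const_mul _

theorem pd_prod {f g : ℝ → ℝ} {f' g' : ℝ} (k l i : Fin N) {x : E N}
    (hf : HasDerivAt f f' (x k)) (hg : HasDerivAt g g' (x l)) :
    pd i (fun y : E N => f (y k) * g (y l)) x =
      f' * (if k = i then 1 else 0) * g (x l) + f (x k) * (g' * (if l = i then 1 else 0)) := by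
  have h1 := hf.comp_hasFDerivAt x (hasFDerivAt_coord k x)
  have h2 := hg.comp_hasFDerivAt x (hasFDerivAt_coord l x)
  have h3 : HasFDerivAt (fun y : E N => f (y k) * g (y l)) _ x := h1.mul h2
  unfold pd
  rw [h3.fderiv]
  simp [bv]
  split_ifs <;> ring

/-- Smooth approximations of the positive part. -/
noncomputable def qq (k : ℕ) (s : ℝ) : ℝ := (s + √(s ^ 2 + 1 / ((k : ℝ) + 1))) / 2

/-- Their derivatives. -/
noncomputable def qd (k : ℕ) (s : ℝ) : ℝ := (1 + s / √(s ^ 2 + 1 / ((k : ℝ) + 1))) / 2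

theorem qq_pos (k : ℕ) (s : ℝ) : 0 < s ^ 2 + 1 / ((k : ℝ) + 1) := by positivity

theorem qq_smooth (k : ℕ) : ContDiff ℝ ∞ (qq k) := by
  unfold qq
  refine (contDiff_id.add (ContDiff.sqrt (by fun_prop) (fun s => (qq_pos k s).ne'))).div_const 2

theorem qd_cont (k : ℕ) : Continuous (qd k) := by
  unfold qd
  refine (continuous_const.add (continuous_id.div (by fun_prop)
    (fun s => (Real.sqrt_pos.2 (qq_pos k s)).ne'))).div_const 2

theorem qq_deriv (k : ℕ) (s : ℝ) : HasDerivAt (qq k) (qd k s) s := by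
  have h1 : HasDerivAt (fun s : ℝ => s ^ 2 + 1 / ((k : ℝ) + 1)) (2 * s) s := by
    simpa using (hasDerivAt_pow 2 s).add_const (1 / ((k : ℝ) + 1))
  have h2 := ((hasDerivAt_id s).add (h1.sqrt (qq_pos k s).ne')).div_const 2
  have h3 : 0 < √(s ^ 2 + 1 / ((k : ℝ) + 1)) := Real.sqrt_pos.2 (qq_pos k s)
  have e : qd k s = (1 + 2 * s / (2 * √(s ^ 2 + 1 / ((k : ℝ) + 1)))) / 2 := by
    unfold qd
    field_simp
  rw [e]
  exact h2

theorem abs_le_sqrt' (k : ℕ) (s : ℝ) : |s| ≤ √(s ^ 2 + 1 / ((k : ℝ) + 1)) := by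
  apply Real.abs_le_sqrt
  have : 0 < 1 / ((k : ℝ) + 1) := by positivity
  linarith

theorem qq_bd (k : ℕ) {s : ℝ} (hs : |s| ≤ 1 / 2) : |qq k s| ≤ 1 := by
  have h1 := abs_le_sqrt' k s
  have h2 : √(s ^ 2 + 1 / ((k : ℝ) + 1)) ≤ 3 / 2 := by
    rw [Real.sqrt_le_left (by norm_num)]
    have h3 : 1 / ((k : ℝ) + 1) ≤ 1 := by
      rw [div_le_one (by positivity)]
      linarith [(Nat.cast_nonneg k : (0 : ℝ) ≤ k)]
    have h4 := sq_abs s
    have h5 := abs_nonneg s
    nlinarith
  have h3 := le_abs_self s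
  have h4 := neg_abs_le s
  unfold qq
  rw [abs_le]
  constructor <;> linarith

theorem qd_bd (k : ℕ) (s : ℝ) : |1 - qd k s| ≤ 1 := by
  have h1 := abs_le_sqrt' k s
  have h3 : 0 < √(s ^ 2 + 1 / ((k : ℝ) + 1)) := Real.sqrt_pos.2 (qq_pos k s)
  have h4 : |s / √(s ^ 2 + 1 / ((k : ℝ) + 1))| ≤ 1 := by
    rw [abs_div, abs_of_pos h3, div_le_one h3]
    exact h1
  rw [abs_le] at h4 ⊢
  unfold qd
  constructor <;> linarith [h4.1, h4.2]

theorem sqrt_lim (s : ℝ) :
    Tendsto (fun k : ℕ => √(s ^ 2 + 1 / ((k : ℝ) + 1))) atTop (𝓝 |s|) := by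
  have h := ((tendsto_one_div_add_atTop_nhds_zero_nat (𝕜 := ℝ)).const_add (s ^ 2)).sqrt
  rwa [add_zero, Real.sqrt_sq_eq_abs] at h

theorem qq_lim (s : ℝ) : Tendsto (fun k => qq k s) atTop (𝓝 (max s 0)) := by
  have h := ((sqrt_lim s).const_add s).div_const 2
  have e : (s + |s|) / 2 = max s 0 := by
    rcases le_total s 0 with h | h
    · rw [abs_of_nonpos h, max_eq_right h]
      ring
    · rw [abs_of_nonneg h, max_eq_left h]
      ring
  rwa [e] at h

theorem qd_lim (s : ℝ) : Tendsto (fun k => qd k s) atTop (𝓝 ((1 + s / |s|) / 2)) := by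
  by_cases hs : s = 0
  · subst hs
    simp [qd]
  · exact (((tendsto_const_nhds (x := s)).div (sqrt_lim s) (abs_ne_zero.2 hs)).const_add
      1).div_const 2

/-- The radial profile. -/
noncomputable def pa (s : ℝ) : ℝ := Real.cosh (max s 0)

/-- Its derivative. -/
noncomputable def pb (s : ℝ) : ℝ := Real.sinh (max s 0)

/-- The Lagrange multiplier. -/
noncomputable def lam (s : ℝ) : ℝ := Real.cosh (max s 0) * (1 - (1 + s / |s|) / 2)

/-- A combination of cosine and sine. -/
noncomputable def cc (p q t : ℝ) : ℝ := p * Real.cos t + q * Real.sin t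

theorem cc_deriv (p q t : ℝ) : HasDerivAt (cc p q) (cc q (-p) t) t := by
  have h := ((Real.hasDerivAt_cos t).const_mul p).add ((Real.hasDerivAt_sin t).const_mul q)
  have e : cc q (-p) t = p * -Real.sin t + q * Real.cos t := by
    unfold cc
    ring
  rw [e]
  exact h

theorem cc_smooth (p q : ℝ) {n : WithTop ℕ∞} : ContDiff ℝ n (cc p q) := by
  unfold cc
  fun_prop

theorem cc_bd (p q t : ℝ) : |cc p q t| ≤ |p| + |q| := by
  unfold cc
  refine (abs_add_le _ _).trans ?_
  rw [abs_mul, abs_mul]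
  have h1 := Real.abs_cos_le_one t
  have h2 := Real.abs_sin_le_one t
  have h3 := abs_nonneg p
  have h4 := abs_nonneg q
  nlinarith

theorem cosh_bd {y : ℝ} (h : |y| ≤ 1) : |Real.cosh y| ≤ Real.cosh 1 := by
  rw [abs_of_pos (Real.cosh_pos y), Real.cosh_le_cosh]
  simpa using h

theorem sinh_bd {y : ℝ} (h : |y| ≤ 1) : |Real.sinh y| ≤ Real.cosh 1 := by
  rw [Real.abs_sinh]
  refine (Real.sinh_lt_cosh _).le.trans ?_
  rw [Real.cosh_le_cosh]
  simpa using h

theorem firstvar {k l : Fin N} (hkl : k ≠ l) {w V0 V1 : E N → ℝ} (h0 : WD k w V0)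
    (h1 : WD l w V1) (hw : ∀ x, x ∉ B N → w x = 0) (hV0 : ∀ x, x ∉ B N → V0 x = 0)
    (hV1 : ∀ x, x ∉ B N → V1 x = 0) (iw : Integrable w) (iV0 : Integrable V0)
    (iV1 : Integrable V1) (p q : ℝ) :
    (∫ x, V0 x * (pb (x k) * cc p q (x l))) + ∫ x, V1 x * (pa (x k) * cc q (-p) (x l)) =
      ∫ x, w x * (lam (x k) * cc p q (x l)) := by
  have hck : Continuous fun y : E N => y k := (contDiff_coord k (n := 0)).continuous
  have hcl : Continuous fun y : E N => y l := (contDiff_coord l (n := 0)).continuous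
  have hcc : ∀ p q, Continuous fun y : E N => cc p q (y l) := fun p q =>
    (cc_smooth p q (n := 0)).continuous.comp hcl
  have hq : ∀ n, Continuous fun y : E N => qq n (y k) := fun n =>
    (qq_smooth n).continuous.comp hck
  have hd : ∀ n, Continuous fun y : E N => qd n (y k) := fun n => (qd_cont n).comp hck
  have hc1 : 0 < Real.cosh 1 := Real.cosh_pos 1
  have t0 := dct iV0 hV0 (a := fun n x => Real.sinh (qq n (x k)) * cc p q (x l))
    (a' := fun x => pb (x k) * cc p q (x l))
    (fun n => (Real.continuous_sinh.comp (hq n)).mul (hcc p q))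
    (C := Real.cosh 1 * (|p| + |q|))
    (fun n x hx => by
      rw [abs_mul]
      exact mul_le_mul (sinh_bd (qq_bd n (coord_le hx k))) (cc_bd _ _ _) (abs_nonneg _) hc1.le)
    (fun x => ((Real.continuous_sinh.tendsto _).comp (qq_lim (x k))).mul_const _)
  have t1 := dct iV1 hV1 (a := fun n x => Real.cosh (qq n (x k)) * cc q (-p) (x l))
    (a' := fun x => pa (x k) * cc q (-p) (x l))
    (fun n => (Real.continuous_cosh.comp (hq n)).mul (hcc q (-p)))
    (C := Real.cosh 1 * (|q| + |-p|))
    (fun n x hx => by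
      rw [abs_mul]
      exact mul_le_mul (cosh_bd (qq_bd n (coord_le hx k))) (cc_bd _ _ _) (abs_nonneg _) hc1.le)
    (fun x => ((Real.continuous_cosh.tendsto _).comp (qq_lim (x k))).mul_const _)
  have hbd : ∀ n, ∀ x ∈ B N, |Real.cosh (qq n (x k)) * (1 - qd n (x k)) * cc p q (x l)| ≤
      Real.cosh 1 * 1 * (|p| + |q|) := fun n x hx => by
    rw [abs_mul, abs_mul]
    exact mul_le_mul (mul_le_mul (cosh_bd (qq_bd n (coord_le hx k))) (qd_bd _ _) (abs_nonneg _)
      hc1.le) (cc_bd _ _ _) (abs_nonneg _) (by positivity)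
  have t2 := dct iw hw (a := fun n x => Real.cosh (qq n (x k)) * (1 - qd n (x k)) * cc p q (x l))
    (a' := fun x => lam (x k) * cc p q (x l))
    (fun n => ((Real.continuous_cosh.comp (hq n)).mul (continuous_const.sub (hd n))).mul (hcc p q))
    hbd
    (fun x => (((Real.continuous_cosh.tendsto _).comp (qq_lim (x k))).mul
      ((qd_lim (x k)).const_sub 1)).mul_const _)
  refine tendsto_nhds_unique (t0.add t1) (t2.congr fun n => ?_)
  have hsq : ContDiff ℝ ∞ fun y : E N => qq n (y k) := (qq_smooth n).comp (contDiff_coord k)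
  have e0 := wd_smooth h0 hw hV0 (ψ := fun x => Real.sinh (qq n (x k)) * cc p q (x l))
    ((Real.contDiff_sinh.comp hsq).mul ((cc_smooth p q).comp (contDiff_coord l)))
  have e1 := wd_smooth h1 hw hV1 (ψ := fun x => Real.cosh (qq n (x k)) * cc q (-p) (x l))
    ((Real.contDiff_cosh.comp hsq).mul ((cc_smooth q (-p)).comp (contDiff_coord l)))
  have d0 : ∀ x : E N, pd k (fun x : E N => Real.sinh (qq n (x k)) * cc p q (x l)) x =
      Real.cosh (qq n (x k)) * qd n (x k) * cc p q (x l) := fun x => by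
    rw [pd_prod (f := fun s => Real.sinh (qq n s)) k l k (qq_deriv n (x k)).sinh
      (cc_deriv p q (x l))]
    simp [hkl.symm]
  have d1 : ∀ x : E N, pd l (fun x : E N => Real.cosh (qq n (x k)) * cc q (-p) (x l)) x =
      -(Real.cosh (qq n (x k)) * cc p q (x l)) := fun x => by
    rw [pd_prod (f := fun s => Real.cosh (qq n s)) k l l (qq_deriv n (x k)).cosh
      (cc_deriv q (-p) (x l))]
    simp [hkl, cc]
    ring
  simp only [d0] at e0
  simp only [d1] at e1
  have hint : ∀ {a : E N → ℝ} (C : ℝ), Continuous a → (∀ x ∈ B N, |a x| ≤ C) →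
      Integrable (fun x => w x * a x) := by
    intro a C ha hC
    refine (iw.abs.mul_const C).mono' (iw.aestronglyMeasurable.mul ha.aestronglyMeasurable) ?_
    refine Eventually.of_forall fun x => ?_
    rw [Real.norm_eq_abs, abs_mul]
    by_cases hx : x ∈ B N
    · exact mul_le_mul_of_nonneg_left (hC x hx) (abs_nonneg _)
    · simp [hw x hx]
  have i1 := hint (a := fun x => Real.cosh (qq n (x k)) * (1 - qd n (x k)) * cc p q (x l)) _
    (((Real.continuous_cosh.comp (hq n)).mul (continuous_const.sub (hd n))).mul (hcc p q)) (hbd n)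
  have i2 := hint (a := fun x => -(Real.cosh (qq n (x k)) * cc p q (x l)))
    (Real.cosh 1 * (|p| + |q|)) ((Real.continuous_cosh.comp (hq n)).mul (hcc p q)).neg
    (fun x hx => by
      rw [abs_neg, abs_mul]
      exact mul_le_mul (cosh_bd (qq_bd n (coord_le hx k))) (cc_bd _ _ _) (abs_nonneg _) hc1.le)
  have e2 : ∫ x, w x * (Real.cosh (qq n (x k)) * qd n (x k) * cc p q (x l)) =
      -(∫ x, w x * (Real.cosh (qq n (x k)) * (1 - qd n (x k)) * cc p q (x l))) -
        ∫ x, w x * -(Real.cosh (qq n (x k)) * cc p q (x l)) := by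
    rw [← neg_add', ← integral_add i1 i2, ← integral_neg]
    apply integral_congr_ae
    refine Eventually.of_forall fun x => ?_
    simp only []
    ring
  linarith

theorem pa_deriv (s : ℝ) : HasDerivAt pa (pb s) s := by
  rcases lt_trichotomy s 0 with h | h | h
  · have e : pb s = 0 := by simp [pb, max_eq_right h.le]
    rw [e]
    refine (hasDerivAt_const s (1 : ℝ)).congr_of_eventuallyEq ?_
    filter_upwards [Iio_mem_nhds h] with y hy
    simp [pa, max_eq_right (le_of_lt (show y < 0 from hy))]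
  · subst h
    have e : pb 0 = 0 := by simp [pb]
    rw [e]
    have h1 : HasDerivWithinAt pa 0 (Iic 0) 0 :=
      (hasDerivAt_const (0 : ℝ) (1 : ℝ)).hasDerivWithinAt.congr
        (fun y hy => by simp [pa, max_eq_right (show y ≤ 0 from hy)]) (by simp [pa])
    have h2 : HasDerivWithinAt pa 0 (Ici 0) 0 := by
      have h3 := (Real.hasDerivAt_cosh 0).hasDerivWithinAt (s := Ici 0)
      rw [Real.sinh_zero] at h3
      exact h3.congr (fun y hy => by simp [pa, max_eq_left (show 0 ≤ y from hy)]) (by simp [pa])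
    have h4 := h1.union h2
    rwa [Iic_union_Ici, hasDerivWithinAt_univ] at h4
  · have e : pb s = Real.sinh s := by simp [pb, max_eq_left h.le]
    rw [e]
    refine (Real.hasDerivAt_cosh s).congr_of_eventuallyEq ?_
    filter_upwards [Ioi_mem_nhds h] with y hy
    simp [pa, max_eq_left (le_of_lt (show 0 < y from hy))]

theorem pb_cont : Continuous pb := by
  unfold pb
  fun_prop

theorem pa_c1 : ContDiff ℝ 1 pa := by
  rw [contDiff_one_iff_deriv]
  refine ⟨fun s => (pa_deriv s).differentiableAt, ?_⟩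
  have : deriv pa = pb := funext fun s => (pa_deriv s).deriv
  rw [this]
  exact pb_cont

theorem lam_pos {s : ℝ} (h : 0 < s) : lam s = 0 := by
  unfold lam
  rw [abs_of_pos h, div_self h.ne']
  norm_num

theorem lam_bd {s : ℝ} (h : s ≤ 0) : 0 ≤ lam s ∧ lam s ≤ 1 := by
  unfold lam
  rw [max_eq_right h, Real.cosh_zero, one_mul]
  rcases h.eq_or_lt with h | h
  · subst h
    norm_num
  · rw [abs_of_neg h, div_neg, div_self h.ne]
    norm_num

theorem lam_meas : Measurable lam := by
  unfold lam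
  fun_prop

end Pool.Agent.H146Z.Cm
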