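import Mathlib

set_option autoImplicit false

/-!
Sobolev maps between Euclidean spaces and energy minimizing constraint maps.
-/

namespace Pool.Agent.H146Z.Cm

open MeasureTheory
open scoped ContDiff

/-- Euclidean space. -/
abbrev Euc (n : ℕ) : Type := EuclideanSpace ℝ (Fin n)

/-- `u` belongs to `W^{1,2}(Ω; ℝ^m)` and the matrix field `G` is its weak differential on `Ω`:
the components of `u` and the entries of `G` are square integrable on `Ω`, and `G j i` is the
distributional `i`-th partial derivative of the `j`-th component of `u` in `Ω`. -/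
structure IsW12 {n m : ℕ} (Ω : Set (Euc n)) (u : Euc n → Euc m)
    (G : Euc n → Matrix (Fin m) (Fin n) ℝ) : Prop where
  memLp_fun : ∀ j, MemLp (fun x => u x j) 2 (volume.restrict Ω)
  memLp_der : ∀ j i, MemLp (fun x => G x j i) 2 (volume.restrict Ω)
  weak : ∀ j i (φ : Euc n → ℝ), ContDiff ℝ ∞ φ → HasCompactSupport φ → tsupport φ ⊆ Ω →
    ∫ x in Ω, u x j * fderiv ℝ φ x (EuclideanSpace.single i 1) = - ∫ x in Ω, G x j i * φ x

/-- The Dirichlet energy on `S` of a map with differential `G`. -/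
noncomputable def energy {n m : ℕ} (S : Set (Euc n)) (G : Euc n → Matrix (Fin m) (Fin n) ℝ) : ℝ :=
  ∫ x in S, ∑ j, ∑ i, (G x j i) ^ 2

/-- `u`, with weak differential `G`, is a minimizing constraint map from `Ω` to the closure of
`M`: it lies in `W^{1,2}(Ω; closure M)`, and on every open `Ω' ⋐ Ω` its energy is at most that of
every `v ∈ W^{1,2}(Ω; closure M)` which agrees with `u` almost everywhere on `Ω \ Ω'`. -/
def IsMinimizing {n m : ℕ} (Ω : Set (Euc n)) (M : Set (Euc m)) (u : Euc n → Euc m)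
    (G : Euc n → Matrix (Fin m) (Fin n) ℝ) : Prop :=
  IsW12 Ω u G ∧ (∀ᵐ x ∂(volume.restrict Ω), u x ∈ closure M) ∧
    ∀ Ω' : Set (Euc n), IsOpen Ω' → IsCompact (closure Ω') → closure Ω' ⊆ Ω →
      ∀ (v : Euc n → Euc m) (H : Euc n → Matrix (Fin m) (Fin n) ℝ), IsW12 Ω v H →
        (∀ᵐ x ∂(volume.restrict Ω), v x ∈ closure M) →
        (∀ᵐ x ∂(volume.restrict (Ω \ Ω')), v x = u x) → energy Ω' G ≤ energy Ω' H

end Pool.Agent.H146Z.Cm
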