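import Pool.Agent.H146Z.CmDefs
import Pool.Agent.H146Z.CmAna

set_option autoImplicit false

/-!
The map `cosh (max s 0) * (cos t, sin t, 0, ..., 0)` is a minimizing constraint map on the ball of
radius one half for the obstacle given by the closed unit ball.
-/

namespace Pool.Agent.H146Z.Cm

open MeasureTheory Filter Topology Set Helper304Lap
open scoped ContDiff

variable {n m : ℕ}

/-- Coefficient of the cosine in the `j`-th component. -/
def pp (j : Fin (m + 2)) : ℝ := if j = 0 then 1 else 0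

/-- Coefficient of the sine in the `j`-th component. -/
def pq (j : Fin (m + 2)) : ℝ := if j = 1 then 1 else 0

/-- The map. -/
noncomputable def uu (n m : ℕ) (x : E (n + 2)) : E (m + 2) :=
  WithLp.toLp 2 (fun j => pa (x 0) * cc (pp j) (pq j) (x 1))

/-- Its differential. -/
noncomputable def GG (n m : ℕ) (x : E (n + 2)) : Matrix (Fin (m + 2)) (Fin (n + 2)) ℝ :=
  Matrix.of fun j i => if i = 0 then pb (x 0) * cc (pp j) (pq j) (x 1)
    else if i = 1 then pa (x 0) * cc (pq j) (-pp j) (x 1) else 0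

theorem uu_apply (x : E (n + 2)) (j : Fin (m + 2)) :
    uu n m x j = pa (x 0) * cc (pp j) (pq j) (x 1) := rfl

theorem GG_apply (x : E (n + 2)) (j : Fin (m + 2)) (i : Fin (n + 2)) :
    GG n m x j i = if i = 0 then pb (x 0) * cc (pp j) (pq j) (x 1)
      else if i = 1 then pa (x 0) * cc (pq j) (-pp j) (x 1) else 0 := rfl

theorem succ_succ_ne_one {k : ℕ} (i : Fin k) : i.succ.succ ≠ (1 : Fin (k + 2)) := by
  intro h
  have := congrArg Fin.val h
  simp at this

theorem sum_cc (t : ℝ) : ∑ j : Fin (m + 2), cc (pp j) (pq j) t ^ 2 = 1 := by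
  rw [Fin.sum_univ_succ, Fin.sum_univ_succ]
  simp [cc, pp, pq, Fin.succ_ne_zero, succ_succ_ne_one]

theorem sum_GG (x : E (n + 2)) (j : Fin (m + 2)) (V : Fin (n + 2) → ℝ) :
    ∑ i, GG n m x j i * V i = V 0 * (pb (x 0) * cc (pp j) (pq j) (x 1)) +
      V 1 * (pa (x 0) * cc (pq j) (-pp j) (x 1)) := by
  rw [Fin.sum_univ_succ, Fin.sum_univ_succ]
  simp [GG_apply, Fin.succ_ne_zero, succ_succ_ne_one]
  ring

theorem uu_c1 (j : Fin (m + 2)) : ContDiff ℝ 1 (fun x : E (n + 2) => uu n m x j) :=
  (pa_c1.comp (contDiff_coord 0)).mul ((cc_smooth _ _).comp (contDiff_coord 1))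

theorem pd_uu (j : Fin (m + 2)) (i : Fin (n + 2)) (x : E (n + 2)) :
    pd i (fun x : E (n + 2) => uu n m x j) x = GG n m x j i := by
  have h := pd_prod 0 1 i (pa_deriv (x 0)) (cc_deriv (pp j) (pq j) (x 1))
  refine Eq.trans h ?_
  rw [GG_apply]
  by_cases h0 : i = 0
  · subst h0
    simp
  · by_cases h1 : i = 1
    · subst h1
      simp
    · simp [h0, h1, Ne.symm h0, Ne.symm h1]

theorem GG_cont (j : Fin (m + 2)) (i : Fin (n + 2)) :
    Continuous (fun x : E (n + 2) => GG n m x j i) := by
  have h : (fun x : E (n + 2) => GG n m x j i) = pd i (fun x : E (n + 2) => uu n m x j) :=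
    funext fun x => (pd_uu j i x).symm
  rw [h]
  unfold pd
  exact ((uu_c1 j).continuous_fderiv (by simp)).clm_apply continuous_const

instance finB {N : ℕ} : IsFiniteMeasure (volume.restrict (B N)) :=
  isFiniteMeasure_restrict.2 measure_ball_lt_top.ne

theorem memLp_cont {N : ℕ} {f : E N → ℝ} (hf : Continuous f) :
    MemLp f 2 (volume.restrict (B N)) := by
  obtain ⟨C, hC⟩ := (isCompact_closedBall (0 : E N) (1 / 2)).exists_bound_of_continuousOn
    hf.continuousOn
  refine MemLp.of_bound hf.aestronglyMeasurable C ?_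
  rw [ae_restrict_iff' B_meas]
  exact Eventually.of_forall fun x hx => hC x (Metric.ball_subset_closedBall hx)

theorem set_eq {N : ℕ} {f φ : E N → ℝ} (h : tsupport φ ⊆ B N) :
    ∫ x in B N, f x * φ x = ∫ x, f x * φ x := by
  apply setIntegral_eq_integral_of_forall_compl_eq_zero
  intro x hx
  rw [image_eq_zero_of_notMem_tsupport (fun h' => hx (h h')), mul_zero]

theorem tsupport_pd {N : ℕ} (i : Fin N) (φ : E N → ℝ) : tsupport (pd i φ) ⊆ tsupport φ := by
  refine Subset.trans ?_ (tsupport_fderiv_subset ℝ (f := φ))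
  apply closure_mono
  intro x hx h
  apply hx
  unfold pd
  rw [h]
  rfl

theorem uu_W12 : IsW12 (B (n + 2)) (uu n m) (GG n m) := by
  refine ⟨fun j => memLp_cont (uu_c1 j).continuous, fun j i => memLp_cont (GG_cont j i), ?_⟩
  intro j i φ h1 h2 h3
  have h := ibp1 (φ := φ) ⟨h1, h2⟩ (uu_c1 (n := n) j) i
  simp only [pd_uu] at h
  rw [set_eq h3, ← h]
  exact set_eq ((tsupport_pd i φ).trans h3)

theorem closure_M {N : ℕ} (y : E N) : y ∈ closure (Metric.closedBall (0 : E N) 1)ᶜ ↔
    1 ≤ ∑ j, y j ^ 2 := by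
  rw [closure_compl, interior_closedBall _ one_ne_zero, mem_compl_iff, mem_ball_zero_iff, not_lt,
    ← EuclideanSpace.real_norm_sq_eq]
  exact (one_le_sq_iff₀ (norm_nonneg y)).symm

theorem uu_mem (x : E (n + 2)) : uu n m x ∈ closure (Metric.closedBall (0 : E (m + 2)) 1)ᶜ := by
  rw [closure_M]
  simp only [uu_apply, mul_pow]
  rw [← Finset.mul_sum, sum_cc, mul_one]
  exact one_le_pow₀ (Real.one_le_cosh _)

theorem ind_mul {N : ℕ} {S : Set (E N)} (hS : MeasurableSet S) (f g : E N → ℝ) :
    ∫ x, S.indicator f x * g x = ∫ x in S, f x * g x := by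
  rw [← integral_indicator hS]
  congr 1
  funext x
  by_cases hx : x ∈ S <;> simp [hx]

theorem ind_sq {N : ℕ} (S : Set (E N)) (f : E N → ℝ) :
    (fun x => S.indicator f x ^ 2) = S.indicator (fun x => f x ^ 2) := by
  funext x
  by_cases hx : x ∈ S <;> simp [hx]

theorem uu_min : IsMinimizing (B (n + 2)) (Metric.closedBall (0 : E (m + 2)) 1)ᶜ
    (uu n m) (GG n m) := by
  refine ⟨uu_W12, Eventually.of_forall uu_mem, ?_⟩
  intro S hSo _ hSc v H hv hvM hvu
  have hS : MeasurableSet S := hSo.measurableSet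
  have hSB : S ⊆ B (n + 2) := subset_closure.trans hSc
  obtain ⟨r, hr, hSr⟩ := exists_lt_subset_ball isClosed_closure hSc
  have hSr' : ∀ x ∈ S, ‖x‖ ≤ r := fun x hx =>
    (mem_ball_zero_iff.1 (hSr (subset_closure hx))).le
  have hu := uu_W12 (n := n) (m := m)
  obtain ⟨W, hW⟩ : ∃ W : Fin (m + 2) → E (n + 2) → ℝ, ∀ j x, W j x = v x j - uu n m x j :=
    ⟨_, fun _ _ => rfl⟩
  obtain ⟨V, hV⟩ : ∃ V : Fin (m + 2) → Fin (n + 2) → E (n + 2) → ℝ,
      ∀ j i x, V j i x = H x j i - GG n m x j i := ⟨_, fun _ _ _ => rfl⟩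
  have mW : ∀ j, MemLp (W j) 2 (volume.restrict (B (n + 2))) := fun j => by
    rw [funext (hW j)]
    exact (hv.memLp_fun j).sub (hu.memLp_fun j)
  have mV : ∀ j i, MemLp (V j i) 2 (volume.restrict (B (n + 2))) := fun j i => by
    rw [funext (hV j i)]
    exact (hv.memLp_der j i).sub (hu.memLp_der j i)
  have hle : volume.restrict S ≤ volume.restrict (B (n + 2)) := Measure.restrict_mono hSB le_rfl
  have hWD : ∀ j i, WD i (S.indicator (W j)) (S.indicator (V j i)) := by
    intro j i
    refine loc hS hr hSr' ((mW j).integrable one_le_two) ((mV j i).integrable one_le_two) ?_ ?_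
    · filter_upwards [hvu] with x hx
      rw [hW, hx, sub_self]
    · intro φ hφ hφB
      have h1 := hv.weak j i φ hφ.1 hφ.2 hφB
      have h2 := hu.weak j i φ hφ.1 hφ.2 hφB
      have m1 := memLp_cont (hφ.pd i).cont
      have m2 := memLp_cont hφ.cont
      have e1 : ∫ x in B (n + 2), W j x * pd i φ x = (∫ x in B (n + 2), v x j * pd i φ x) -
          ∫ x in B (n + 2), uu n m x j * pd i φ x := by
        simp only [hW, sub_mul]
        exact integral_sub ((hv.memLp_fun j).integrable_mul m1)
          ((hu.memLp_fun j).integrable_mul m1)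
      have e2 : ∫ x in B (n + 2), V j i x * φ x = (∫ x in B (n + 2), H x j i * φ x) -
          ∫ x in B (n + 2), GG n m x j i * φ x := by
        simp only [hV, sub_mul]
        exact integral_sub ((hv.memLp_der j i).integrable_mul m2)
          ((hu.memLp_der j i).integrable_mul m2)
      have h1' : ∫ x in B (n + 2), v x j * pd i φ x = - ∫ x in B (n + 2), H x j i * φ x := h1
      have h2' : ∫ x in B (n + 2), uu n m x j * pd i φ x =
        - ∫ x in B (n + 2), GG n m x j i * φ x := h2
      rw [e1, e2, h1', h2']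
      ring
  have z : ∀ (f : E (n + 2) → ℝ) x, x ∉ B (n + 2) → S.indicator f x = 0 := fun f x hx =>
    indicator_of_notMem (fun h => hx (hSB h)) f
  have sW : ∀ j, MemLp (W j) 2 (volume.restrict S) := fun j => (mW j).mono_measure hle
  have sV : ∀ j i, MemLp (V j i) 2 (volume.restrict S) := fun j i => (mV j i).mono_measure hle
  have iW : ∀ j, Integrable (S.indicator (W j)) := fun j =>
    (integrable_indicator_iff hS).2 (((mW j).integrable one_le_two).mono_measure hle)
  have iV : ∀ j i, Integrable (S.indicator (V j i)) := fun j i =>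
    (integrable_indicator_iff hS).2 (((mV j i).integrable one_le_two).mono_measure hle)
  have hA : ∀ j, ∫ x in S, W j x ^ 2 ≤ ∫ x in S, V j 1 x ^ 2 := by
    intro j
    have h := poincare (hWD j 1) (z _) (z _) (iW j) (iV j 1)
      (by rw [ind_sq, integrable_indicator_iff hS]; exact (sW j).integrable_sq)
      (by rw [ind_sq, integrable_indicator_iff hS]; exact (sV j 1).integrable_sq)
    rwa [ind_sq, ind_sq, integral_indicator hS, integral_indicator hS] at h
  have hB : ∀ j, (∫ x in S, V j 0 x * (pb (x 0) * cc (pp j) (pq j) (x 1))) +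
      ∫ x in S, V j 1 x * (pa (x 0) * cc (pq j) (-pp j) (x 1)) =
      ∫ x in S, W j x * (lam (x 0) * cc (pp j) (pq j) (x 1)) := by
    intro j
    have h := firstvar (k := 0) (l := 1) (by simp) (hWD j 0) (hWD j 1) (z _) (z _) (z _) (iW j)
      (iV j 0) (iV j 1) (pp j) (pq j)
    rwa [ind_mul hS, ind_mul hS, ind_mul hS] at h
  have hc0 : Continuous fun y : E (n + 2) => y 0 := (contDiff_coord 0 (n := 0)).continuous
  have hc1 : Continuous fun y : E (n + 2) => y 1 := (contDiff_coord 1 (n := 0)).continuous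
  have hcc : ∀ p q, Continuous fun y : E (n + 2) => cc p q (y 1) := fun p q =>
    (cc_smooth p q (n := 0)).continuous.comp hc1
  have j0 : ∀ j, Integrable (fun x => V j 0 x * (pb (x 0) * cc (pp j) (pq j) (x 1)))
      (volume.restrict S) := fun j =>
    (sV j 0).integrable_mul ((memLp_cont ((pb_cont.comp hc0).mul (hcc _ _))).mono_measure hle)
  have j1 : ∀ j, Integrable (fun x => V j 1 x * (pa (x 0) * cc (pq j) (-pp j) (x 1)))
      (volume.restrict S) := fun j =>
    (sV j 1).integrable_mul
      ((memLp_cont ((pa_c1.continuous.comp hc0).mul (hcc _ _))).mono_measure hle)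
  have j2 : ∀ j, Integrable (fun x => W j x * (lam (x 0) * cc (pp j) (pq j) (x 1)))
      (volume.restrict S) := fun j => by
    have h : MemLp (fun x : E (n + 2) => lam (x 0) * cc (pp j) (pq j) (x 1)) 2
        (volume.restrict (B (n + 2))) := by
      refine MemLp.of_bound ((lam_meas.comp hc0.measurable).mul
        (hcc _ _).measurable).aestronglyMeasurable (1 * (|pp j| + |pq j|)) ?_
      refine Eventually.of_forall fun x => ?_
      rw [Real.norm_eq_abs, abs_mul]
      refine mul_le_mul ?_ (cc_bd _ _ _) (abs_nonneg _) zero_le_one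
      rcases le_or_gt (x 0) 0 with h | h
      · rw [abs_of_nonneg (lam_bd h).1]
        exact (lam_bd h).2
      · simp [lam_pos h]
    exact (sW j).integrable_mul (h.mono_measure hle)
  obtain ⟨F, hF⟩ : ∃ F : Fin (m + 2) → E (n + 2) → ℝ, ∀ j, F j = fun x =>
      (V j 1 x ^ 2 - W j x ^ 2) + 2 * ((V j 0 x * (pb (x 0) * cc (pp j) (pq j) (x 1)) +
        V j 1 x * (pa (x 0) * cc (pq j) (-pp j) (x 1))) -
        W j x * (lam (x 0) * cc (pp j) (pq j) (x 1))) := ⟨_, fun _ => rfl⟩
  have k1 : ∀ j, Integrable (fun x => V j 1 x ^ 2 - W j x ^ 2) (volume.restrict S) := fun j =>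
    (sV j 1).integrable_sq.sub (sW j).integrable_sq
  have k2 : ∀ j, Integrable (fun x => V j 0 x * (pb (x 0) * cc (pp j) (pq j) (x 1)) +
      V j 1 x * (pa (x 0) * cc (pq j) (-pp j) (x 1))) (volume.restrict S) := fun j =>
    (j0 j).add (j1 j)
  have k3 : ∀ j, Integrable (fun x => (V j 0 x * (pb (x 0) * cc (pp j) (pq j) (x 1)) +
      V j 1 x * (pa (x 0) * cc (pq j) (-pp j) (x 1))) -
      W j x * (lam (x 0) * cc (pp j) (pq j) (x 1))) (volume.restrict S) := fun j =>
    (k2 j).sub (j2 j)
  have iF : ∀ j, Integrable (F j) (volume.restrict S) := fun j => by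
    rw [hF]
    exact (k1 j).add ((k3 j).const_mul 2)
  have pF : ∀ j, 0 ≤ ∫ x in S, F j x := fun j => by
    rw [hF]
    simp only []
    rw [integral_add (k1 j) ((k3 j).const_mul 2), integral_const_mul, integral_sub (k2 j) (j2 j),
      integral_add (j0 j) (j1 j), hB j, integral_sub (sV j 1).integrable_sq (sW j).integrable_sq]
    linarith [hA j]
  have iG : Integrable (fun x => ∑ j, ∑ i, GG n m x j i ^ 2) (volume.restrict S) :=
    integrable_finsetSum _ fun j _ => integrable_finsetSum _ fun i _ =>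
      ((hu.memLp_der j i).mono_measure hle).integrable_sq
  have iH : Integrable (fun x => ∑ j, ∑ i, H x j i ^ 2) (volume.restrict S) :=
    integrable_finsetSum _ fun j _ => integrable_finsetSum _ fun i _ =>
      ((hv.memLp_der j i).mono_measure hle).integrable_sq
  have iS : Integrable (fun x => ∑ j, F j x) (volume.restrict S) :=
    integrable_finsetSum _ fun j _ => iF j
  have hpt : ∀ᵐ x ∂(volume.restrict S),
      (∑ j, ∑ i, GG n m x j i ^ 2) + ∑ j, F j x ≤ ∑ j, ∑ i, H x j i ^ 2 := by
    filter_upwards [ae_mono hle hvM] with x hx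
    rw [closure_M] at hx
    have a1 : ∀ j, (∑ i, GG n m x j i ^ 2) + F j x +
        (W j x ^ 2 + 2 * (W j x * (lam (x 0) * cc (pp j) (pq j) (x 1)))) ≤ ∑ i, H x j i ^ 2 := by
      intro j
      have b1 : ∑ i, H x j i ^ 2 = (∑ i, GG n m x j i ^ 2) +
          2 * (∑ i, GG n m x j i * V j i x) + ∑ i, V j i x ^ 2 := by
        rw [Finset.mul_sum, ← Finset.sum_add_distrib, ← Finset.sum_add_distrib]
        refine Finset.sum_congr rfl fun i _ => ?_
        rw [hV]
        ring
      have b2 : V j 1 x ^ 2 ≤ ∑ i, V j i x ^ 2 :=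
        Finset.single_le_sum (f := fun i => V j i x ^ 2) (fun i _ => sq_nonneg _)
          (Finset.mem_univ 1)
      rw [b1, sum_GG x j (fun i => V j i x), hF]
      simp only []
      linarith
    have a2 := Finset.sum_le_sum (s := Finset.univ) fun j _ => a1 j
    rw [Finset.sum_add_distrib, Finset.sum_add_distrib] at a2
    have a3 : 0 ≤ ∑ j, (W j x ^ 2 + 2 * (W j x * (lam (x 0) * cc (pp j) (pq j) (x 1)))) := by
      rcases le_or_gt (x 0) 0 with h | h
      · have c1 : pa (x 0) = 1 := by simp [pa, max_eq_right h]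
        have c2 : ∑ j, v x j ^ 2 = (∑ j, W j x ^ 2) +
            2 * (∑ j, W j x * cc (pp j) (pq j) (x 1)) +
            ∑ j : Fin (m + 2), cc (pp j) (pq j) (x 1) ^ 2 := by
          rw [Finset.mul_sum, ← Finset.sum_add_distrib, ← Finset.sum_add_distrib]
          refine Finset.sum_congr rfl fun j _ => ?_
          rw [hW, uu_apply, c1]
          ring
        have c3 : ∑ j, (W j x ^ 2 + 2 * (W j x * (lam (x 0) * cc (pp j) (pq j) (x 1)))) =
            (∑ j, W j x ^ 2) + lam (x 0) * (2 * ∑ j, W j x * cc (pp j) (pq j) (x 1)) := by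
          rw [Finset.mul_sum, Finset.mul_sum, ← Finset.sum_add_distrib]
          refine Finset.sum_congr rfl fun j _ => ?_
          ring
        have c4 : 0 ≤ ∑ j, W j x ^ 2 := Finset.sum_nonneg fun j _ => sq_nonneg _
        rw [c2, sum_cc] at hx
        rw [c3]
        obtain ⟨l0, l1⟩ := lam_bd h
        nlinarith
      · refine Finset.sum_nonneg fun j _ => ?_
        rw [lam_pos h]
        simp only [zero_mul, mul_zero, add_zero]
        exact sq_nonneg _
    linarith
  have hfin := integral_mono_ae (iG.add iS) iH hpt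
  have e : ∫ x in S, ((fun x => ∑ j, ∑ i, GG n m x j i ^ 2) + fun x => ∑ j, F j x) x =
      (∫ x in S, ∑ j, ∑ i, GG n m x j i ^ 2) + ∑ j, ∫ x in S, F j x := by
    rw [← integral_finsetSum _ fun j _ => iF j]
    exact integral_add iG iS
  rw [e] at hfin
  have hs : 0 ≤ ∑ j, ∫ x in S, F j x := Finset.sum_nonneg fun j _ => pF j
  unfold energy
  linarith

theorem rank_le {x : E (n + 2)} (h : x 0 < 0) : (GG n m x).rank ≤ 1 := by
  have e : GG n m x = Matrix.vecMulVec (fun j => pa (x 0) * cc (pq j) (-pp j) (x 1))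
      (fun i => if i = 1 then 1 else 0) := by
    ext j i
    rw [GG_apply, Matrix.vecMulVec_apply]
    by_cases h0 : i = 0
    · subst h0
      simp [pb, max_eq_right h.le]
    · by_cases h1 : i = 1 <;> simp [h0, h1]
  rw [e]
  exact Matrix.rank_vecMulVec_le _ _

theorem rank_ge {x : E (n + 2)} (h : 0 < x 0) : 2 ≤ (GG n m x).rank := by
  refine le_trans ?_ (Matrix.rank_submatrix_le (GG n m x) ![0, 1] ![0, 1])
  rw [Matrix.rank_of_isUnit]
  · simp
  · rw [Matrix.isUnit_iff_isUnit_det, isUnit_iff_ne_zero, Matrix.det_fin_two]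
    have e : pb (x 0) * pa (x 0) ≠ 0 := by
      apply mul_ne_zero
      · unfold pb
        rw [max_eq_left h.le]
        exact (Real.sinh_pos_iff.2 h).ne'
      · exact (Real.cosh_pos _).ne'
    intro h0
    apply e
    simp [GG_apply, cc, pp, pq] at h0
    have h1 := Real.cos_sq_add_sin_sq (x 1)
    linear_combination h0 - (pb (x 0) * pa (x 0)) * h1

end Pool.Agent.H146Z.Cm
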