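import Mathlib

set_option autoImplicit false

/-!
Selection principles for open omega-covers and gamma-covers, fin-unbounded sets and the cardinals
used with them.
-/

namespace Pool.Agent.H146Z.Fu

open Set Filter
open scoped Cardinal

/-- The Cantor space, identified with the power set of `ℕ`. -/
abbrev Cantor : Type := ℕ → Bool

/-- The subset of `ℕ` coded by a point of the Cantor space. -/
def supp (x : Cantor) : Set ℕ := {n | x n = true}

/-- The finite subsets of `ℕ`. -/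
def FinSets : Set Cantor := {x | (supp x).Finite}

/-- The increasing enumeration of an infinite subset of `ℕ`. -/
noncomputable def enum (x : Cantor) (n : ℕ) : ℕ := Nat.nth (fun i => x i = true) n

section covers

variable {Z : Type} [TopologicalSpace Z]

/-- An open omega-cover: open sets, the whole space is not a member, and every finite set lies in
a member. -/
def IsOmegaCover (𝒰 : Set (Set Z)) : Prop :=
  (∀ U ∈ 𝒰, IsOpen U) ∧ univ ∉ 𝒰 ∧ ∀ F : Set Z, F.Finite → ∃ U ∈ 𝒰, F ⊆ U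

/-- An open gamma-cover: infinitely many open sets, each point lies outside only finitely many. -/
def IsGammaCover (𝒰 : Set (Set Z)) : Prop :=
  (∀ U ∈ 𝒰, IsOpen U) ∧ 𝒰.Infinite ∧ ∀ z : Z, {U ∈ 𝒰 | z ∉ U}.Finite

end covers

/-- The selection principle `S₁(Γ, Ω)`. -/
def S1GammaOmega (Z : Type) [TopologicalSpace Z] : Prop :=
  ∀ 𝒰 : ℕ → Set (Set Z), (∀ n, IsGammaCover (𝒰 n)) →
    ∃ U : ℕ → Set Z, (∀ n, U n ∈ 𝒰 n) ∧ IsOmegaCover (range U)

/-- The selection principle `S₁(Ω, Γ)`. -/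
def S1OmegaGamma (Z : Type) [TopologicalSpace Z] : Prop :=
  ∀ 𝒰 : ℕ → Set (Set Z), (∀ n, IsOmegaCover (𝒰 n)) →
    ∃ U : ℕ → Set Z, (∀ n, U n ∈ 𝒰 n) ∧ IsGammaCover (range U)

/-- The Gerlits-Nagy property: every open omega-cover contains a gamma-cover. -/
def GammaProp (Z : Type) [TopologicalSpace Z] : Prop :=
  ∀ 𝒰 : Set (Set Z), IsOmegaCover 𝒰 → ∃ 𝒱 ⊆ 𝒰, IsGammaCover 𝒱

/-- `κ`-fin-unbounded sets of infinite subsets of `ℕ`, by pointwise minima of enumerations; an
infinite set `d` is given by its increasing enumeration. -/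
def FinUnbMin (κ : Cardinal.{0}) (X : Set Cantor) : Prop :=
  (∀ x ∈ X, (supp x).Infinite) ∧ κ ≤ #X ∧
    ∀ d : ℕ → ℕ, StrictMono d → ∃ S ⊆ X, #S < κ ∧
      ∀ F : Set Cantor, F.Finite → F.Nonempty → F ⊆ X \ S →
        ∃ᶠ n in atTop, ∀ x ∈ F, d n ≤ enum x n

/-- `κ`-fin-unbounded sets of infinite subsets of `ℕ`, by omission of intervals; an infinite set
`d` is given by its increasing enumeration. -/
def FinUnbInt (κ : Cardinal.{0}) (X : Set Cantor) : Prop :=
  (∀ x ∈ X, (supp x).Infinite) ∧ κ ≤ #X ∧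
    ∀ d : ℕ → ℕ, StrictMono d → ∃ S ⊆ X, #S < κ ∧
      ∀ F : Set Cantor, F.Finite → F ⊆ X \ S →
        ∃ᶠ n in atTop, Disjoint (⋃ x ∈ F, supp x) (Ico (d n) (d (n + 1)))

/-- `T` is productively `S₁(Γ, Ω)` for (infinite) metric spaces. -/
def Productive (T : Type) [TopologicalSpace T] : Prop :=
  ∀ (Y : Type) [MetricSpace Y] [Infinite Y], S1GammaOmega Y → S1GammaOmega (T × Y)

/-- The least size of an infinite Tychonoff space which is not productively `S₁(Γ, Ω)` for metric
spaces. -/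
noncomputable def pr : Cardinal.{0} :=
  sInf {c | ∃ (T : Type) (_ : TopologicalSpace T), T35Space T ∧ Infinite T ∧ #T = c ∧
    ¬ Productive T}

/-- A groupwise dense family of infinite subsets of `ℕ`: closed under infinite almost subsets, and
for every partition of an end segment of `ℕ` into finite intervals it contains a union of
infinitely many of the intervals. -/
def GroupwiseDense (𝒢 : Set (Set ℕ)) : Prop :=
  (∀ A ∈ 𝒢, A.Infinite) ∧ (∀ A ∈ 𝒢, ∀ B : Set ℕ, B.Infinite → (B \ A).Finite → B ∈ 𝒢) ∧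
    ∀ d : ℕ → ℕ, StrictMono d → ∃ J : Set ℕ, J.Infinite ∧ (⋃ j ∈ J, Ico (d j) (d (j + 1))) ∈ 𝒢

/-- The groupwise density number: the least size of a nonempty collection of groupwise dense
families with empty intersection. -/
noncomputable def gNum : Cardinal.{0} :=
  sInf {c | ∃ 𝒞 : Set (Set (Set ℕ)), 𝒞.Nonempty ∧ (∀ 𝒢 ∈ 𝒞, GroupwiseDense 𝒢) ∧ ⋂₀ 𝒞 = ∅ ∧ #𝒞 = c}

/-- The covering number of the meagre ideal, computed in the Baire space. -/
noncomputable def covM : Cardinal.{0} :=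
  sInf {c | ∃ 𝒞 : Set (Set (ℕ → ℕ)), (∀ A ∈ 𝒞, IsMeagre A) ∧ ⋃₀ 𝒞 = univ ∧ #𝒞 = c}

end Pool.Agent.H146Z.Fu
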