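import Pool.Agent.H146Z.FuDefs

set_option autoImplicit false

/-!
Products of fin-unbounded sets with gamma-spaces.
-/

namespace Pool.Agent.H146Z.Fu

open Set Filter Topology
open scoped Cardinal

/-- Indexed relative form of `S₁(Γ, Ω)`. -/
def S1On {E : Type} [TopologicalSpace E] (T : Set E) : Prop :=
  ∀ U : ℕ → ℕ → Set E, (∀ n k, IsOpen (U n k)) → (∀ z ∈ T, ∀ n, ∀ᶠ k in atTop, z ∈ U n k) →
    ∃ g : ℕ → ℕ, ∀ F : Set E, F.Finite → F ⊆ T → ∃ n, F ⊆ U n (g n)

/-- Indexed form of the gamma-property. -/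
def WG (Y : Type) [TopologicalSpace Y] : Prop :=
  ∀ 𝒱 : ℕ → Set (Set Y), (∀ m, ∀ V ∈ 𝒱 m, IsOpen V) →
    (∀ m, ∀ F : Set Y, F.Finite → ∃ V ∈ 𝒱 m, F ⊆ V) →
    ∃ (φ : ℕ → ℕ) (V : ℕ → Set Y), StrictMono φ ∧ (∀ k, V k ∈ 𝒱 (φ k)) ∧
      ∀ y, ∀ᶠ k in atTop, y ∈ V k

section general

variable {Z : Type} [TopologicalSpace Z]

theorem s1_of_on (h : S1On (univ : Set Z)) : S1GammaOmega Z := by
  intro 𝒰 h𝒰
  have hinf : ∀ n, (𝒰 n \ {univ}).Infinite := fun n => (h𝒰 n).2.1.sdiff (finite_singleton _)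
  let e : ∀ n, ℕ ↪ ↥(𝒰 n \ {univ}) := fun n => (hinf n).natEmbedding _
  obtain ⟨g, hg⟩ := h (fun n k => (e n k).1) (fun n k => (h𝒰 n).1 _ (e n k).2.1) (by
    intro z _ n
    rw [← Nat.cofinite_eq_atTop, eventually_cofinite]
    have hinj : Function.Injective fun k => (e n k).1 := Subtype.val_injective.comp (e n).injective
    refine (((h𝒰 n).2.2 z).preimage hinj.injOn).subset ?_
    intro k hk
    exact ⟨(e n k).2.1, hk⟩)
  refine ⟨fun n => (e n (g n)).1, fun n => (e n (g n)).2.1, ?_, ?_, ?_⟩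
  · rintro _ ⟨n, rfl⟩
    exact (h𝒰 n).1 _ (e n (g n)).2.1
  · rintro ⟨n, hn⟩
    exact (e n (g n)).2.2 hn
  · intro F hF
    obtain ⟨n, hn⟩ := hg F hF (subset_univ _)
    exact ⟨_, ⟨n, rfl⟩, hn⟩

theorem on_of_s1 (h : S1GammaOmega Z) : S1On (univ : Set Z) := by
  intro U hU hc
  by_cases hfin : ∃ n, (range (U n)).Finite
  · obtain ⟨n, hn⟩ := hfin
    have : Finite ↥(range (U n)) := hn
    obtain ⟨⟨W, k, rfl⟩, hW⟩ := Finite.exists_infinite_fiber (rangeFactorization (U n))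
    refine ⟨fun _ => k, fun F _ _ => ⟨n, fun z _ => ?_⟩⟩
    have h1 := hc z (mem_univ z) n
    rw [← Nat.cofinite_eq_atTop, eventually_cofinite] at h1
    obtain ⟨j, hj, hj2⟩ := (Set.infinite_coe_iff.1 hW).exists_notMem_finite h1
    have h2 : U n j = U n k := congrArg Subtype.val hj
    rw [← h2]
    exact not_not.1 hj2
  · push Not at hfin
    obtain ⟨W, hW, hω⟩ := h (fun n => range (U n)) (fun n => ⟨by
      rintro _ ⟨k, rfl⟩
      exact hU n k, hfin n, fun z => by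
      have h1 := hc z (mem_univ z) n
      rw [← Nat.cofinite_eq_atTop, eventually_cofinite] at h1
      refine (h1.image (U n)).subset ?_
      rintro _ ⟨⟨k, rfl⟩, hk⟩
      exact ⟨k, hk, rfl⟩⟩)
    choose g hg using hW
    refine ⟨g, fun F hF _ => ?_⟩
    obtain ⟨_, ⟨n, rfl⟩, hn⟩ := hω.2.2 F hF
    exact ⟨n, by rw [hg]; exact hn⟩

theorem on_range_iff {E : Type} [TopologicalSpace E] {j : Z → E} (hj : IsInducing j) :
    S1On (univ : Set Z) ↔ S1On (range j) := by
  constructor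
  · intro h U hU hc
    obtain ⟨g, hg⟩ := h (fun n k => j ⁻¹' U n k) (fun n k => (hU n k).preimage hj.continuous)
      (fun z _ n => hc _ ⟨z, rfl⟩ n)
    refine ⟨g, fun F hF hFT => ?_⟩
    obtain ⟨F', -, hF', rfl⟩ := hF.exists_subset_finite_image_eq (s := univ) (f := j)
      (by simpa using hFT)
    obtain ⟨n, hn⟩ := hg F' hF' (subset_univ _)
    exact ⟨n, image_subset_iff.2 hn⟩
  · intro h U hU hc
    choose W hW hWU using fun n k => hj.isOpen_iff.1 (hU n k)
    obtain ⟨g, hg⟩ := h W hW (by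
      rintro _ ⟨z, rfl⟩ n
      filter_upwards [hc z (mem_univ z) n] with k hk
      rw [← hWU] at hk
      exact hk)
    refine ⟨g, fun F hF _ => ?_⟩
    obtain ⟨n, hn⟩ := hg (j '' F) (hF.image j) (image_subset_range _ _)
    exact ⟨n, by rw [← hWU]; exact image_subset_iff.1 hn⟩

theorem prod_iff {E Y : Type} [TopologicalSpace E] [TopologicalSpace Y] (T : Set E) :
    S1GammaOmega (T × Y) ↔ S1On (T ×ˢ (univ : Set Y)) := by
  have hj : IsInducing (Prod.map (Subtype.val : T → E) (id : Y → Y)) :=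
    IsInducing.subtypeVal.prodMap IsInducing.id
  have hr : range (Prod.map (Subtype.val : T → E) (id : Y → Y)) = T ×ˢ univ := by
    rw [range_prodMap]
    simp
  rw [← hr, ← on_range_iff hj]
  exact ⟨on_of_s1, s1_of_on⟩

theorem gammaProp_of_s1 (h : S1OmegaGamma Z) : GammaProp Z := by
  intro 𝒰 h𝒰
  obtain ⟨U, hU, hγ⟩ := h (fun _ => 𝒰) (fun _ => h𝒰)
  exact ⟨range U, range_subset_iff.2 hU, hγ⟩

theorem wg_of_gammaProp [T1Space Z] (h : GammaProp Z) : WG Z := by
  intro 𝒱 ho hc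
  rcases finite_or_infinite Z with hfin | hinf
  · choose V hV hV' using fun m => hc m univ finite_univ
    exact ⟨id, V, strictMono_id, hV, fun y => Eventually.of_forall fun k => hV' k (mem_univ y)⟩
  let y : ℕ ↪ Z := Infinite.natEmbedding Z
  obtain ⟨𝒲, hsub, hγ⟩ := h {W | ∃ m, ∃ V ∈ 𝒱 m, W = V \ {y m}} ⟨by
    rintro _ ⟨m, V, hV, rfl⟩
    exact (ho m V hV).sdiff isClosed_singleton, by
    rintro ⟨m, V, -, hV⟩
    have : y m ∈ V \ {y m} := hV ▸ mem_univ _
    exact this.2 rfl, by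
    intro F hF
    obtain ⟨m, -, hm⟩ := infinite_univ.exists_notMem_finite (hF.preimage y.injective.injOn)
    obtain ⟨V, hV, hFV⟩ := hc m F hF
    exact ⟨_, ⟨m, V, hV, rfl⟩, fun z hz => ⟨hFV hz, fun h => hm (by
      rw [mem_preimage, ← mem_singleton_iff.1 h]
      exact hz)⟩⟩⟩
  choose mm VV hVV hWV using fun W : 𝒲 => hsub W.2
  have hM : (range mm).Infinite := by
    intro hfin
    apply hγ.2.1
    refine (hfin.biUnion (fun m _ => hγ.2.2 (y m))).subset ?_
    intro W hW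
    simp only [mem_iUnion]
    refine ⟨mm ⟨W, hW⟩, ⟨_, rfl⟩, hW, fun h => ?_⟩
    exact ((hWV ⟨W, hW⟩).subset h).2 rfl
  obtain ⟨φ, hφ, hφM⟩ := Filter.extraction_of_frequently_atTop
    (Nat.frequently_atTop_iff_infinite.2 hM)
  choose W hW using hφM
  have hinj : Function.Injective fun k => (W k).1 := by
    intro k l hkl
    apply hφ.injective
    rw [← hW, ← hW, Subtype.ext hkl]
  refine ⟨φ, fun k => VV (W k), hφ, fun k => hW k ▸ hVV (W k), fun z => ?_⟩
  rw [← Nat.cofinite_eq_atTop, eventually_cofinite]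
  refine ((hγ.2.2 z).preimage hinj.injOn).subset ?_
  intro k hk
  refine ⟨(W k).2, fun h => hk ?_⟩
  have h1 : (W k).1 = _ := hWV (W k)
  have h2 : z ∈ (W k).1 := h
  rw [h1] at h2
  exact h2.1

omit [TopologicalSpace Z] in
theorem ev_finite {V : ℕ → Set Z} (hV : ∀ y, ∀ᶠ k in atTop, y ∈ V k) {F : Set Z}
    (hF : F.Finite) : ∀ᶠ k in atTop, F ⊆ V k :=
  (eventually_all_finite hF).2 fun y _ => hV y

theorem on_of_wg (h : WG Z) : S1On (univ : Set Z) := by
  classical
  intro U hU hc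
  obtain ⟨φ, V, hφ, hV, hVy⟩ := h (fun m => range (U m)) (by
    rintro m _ ⟨k, rfl⟩
    exact hU m k) (fun m F hF => by
    obtain ⟨k, hk⟩ := (ev_finite (fun y => hc y (mem_univ y) m) hF).exists
    exact ⟨_, ⟨k, rfl⟩, hk⟩)
  choose g' hg' using hV
  refine ⟨Function.extend φ g' 0, fun F hF _ => ?_⟩
  obtain ⟨k, hk⟩ := (ev_finite hVy hF).exists
  refine ⟨φ k, ?_⟩
  rw [hφ.injective.extend_apply, hg']
  exact hk

end general

/-- Omission of intervals. -/
def Omit (κ : Cardinal.{0}) (X : Set Cantor) : Prop :=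
  ∀ a : ℕ → ℕ, StrictMono a → ∃ S ⊆ X, #S < κ ∧ ∀ F : Set Cantor, F.Finite → F ⊆ X \ S →
    ∃ᶠ n in atTop, ∀ x ∈ F, ∀ t, a n ≤ t → t < a (n + 1) → x t = false

theorem omit_of_int {κ : Cardinal.{0}} {X : Set Cantor} (h : FinUnbInt κ X) : Omit κ X := by
  intro a ha
  obtain ⟨S, hS, hκ, hF⟩ := h.2.2 a ha
  refine ⟨S, hS, hκ, fun F h1 h2 => (hF F h1 h2).mono fun n hn x hx t h3 h4 => ?_⟩
  by_contra h5
  refine Set.disjoint_left.1 hn (show t ∈ _ from ?_) ⟨h3, h4⟩
  simp only [mem_iUnion]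
  exact ⟨x, hx, by simpa [supp] using h5⟩

theorem omit_of_min {κ : Cardinal.{0}} {X : Set Cantor} (h : FinUnbMin κ X) : Omit κ X := by
  classical
  intro a ha
  obtain ⟨S, hS, hκ, hF⟩ := h.2.2 (fun n => a ((n + 1) * (n + 1))) (fun n m hnm => ha (by
    have : n + 1 < m + 1 := by omega
    exact Nat.mul_self_lt_mul_self this))
  refine ⟨S, hS, hκ, fun F h1 h2 => ?_⟩
  rcases F.eq_empty_or_nonempty with rfl | hne
  · exact Frequently.of_forall (by simp)
  by_contra hcon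
  rw [not_frequently, eventually_atTop] at hcon
  obtain ⟨k0, hk0⟩ := hcon
  push Not at hk0
  choose! xx hxx tt ht1 ht2 ht3 using hk0
  obtain ⟨n, hn, hnx⟩ := (frequently_atTop.1 (hF F h1 hne h2)) (k0 + h1.toFinset.card)
  have hcard : h1.toFinset.card * n < (Finset.Ico k0 ((n + 1) * (n + 1))).card := by
    rw [Nat.card_Ico]
    have : h1.toFinset.card * n ≤ n * n := Nat.mul_le_mul_right _ (by omega)
    have e : (n + 1) * (n + 1) = n * n + 2 * n + 1 := by ring
    omega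
  obtain ⟨x, hx, hlt⟩ := Finset.exists_lt_card_fiber_of_mul_lt_card_of_maps_to
    (f := xx) (fun k hk => h1.mem_toFinset.2 (hxx k (Finset.mem_Ico.1 hk).1)) hcard
  have hle := hnx x (h1.mem_toFinset.1 hx)
  refine absurd hle (not_le.2 (Nat.nth_lt_of_lt_count ?_))
  rw [Nat.count_eq_card_filter_range]
  refine hlt.trans_le (Finset.card_le_card_of_injOn tt ?_ ?_)
  · intro k hk
    simp only [Finset.coe_filter, Finset.mem_Ico, mem_ofPred_eq, Finset.mem_range] at hk ⊢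
    obtain ⟨⟨hk1, hk2⟩, rfl⟩ := hk
    exact ⟨(ht2 k hk1).trans_le (ha.monotone hk2), by simpa using ht3 k hk1⟩
  · intro k hk l hl hkl
    simp only [Finset.coe_filter, Finset.mem_Ico, mem_ofPred_eq] at hk hl
    by_contra hne'
    rcases lt_or_gt_of_ne hne' with h3 | h3
    · have := (ht2 k hk.1.1).trans_le ((ha.monotone h3).trans (ht1 l hl.1.1))
      omega
    · have := (ht2 l hl.1.1).trans_le ((ha.monotone h3).trans (ht1 k hk.1.1))
      omega

theorem exists_next {x : Cantor} (hx : (supp x).Infinite) (n : ℕ) : ∃ t, n ≤ t ∧ x t = true := by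
  obtain ⟨t, ht, h⟩ := hx.exists_gt n
  exact ⟨t, h.le, ht⟩

theorem exists_jump (h : ℕ → ℕ) : ∃ a : ℕ → ℕ, StrictMono a ∧ ∀ k, k ≤ a k ∧ h (a k) < a (k + 1) := by
  let a : ℕ → ℕ := fun k => Nat.rec 0 (fun _ u => u + h u + 1) k
  have e : ∀ k, a (k + 1) = a k + h (a k) + 1 := fun k => rfl
  have hs : StrictMono a := strictMono_nat_of_lt_succ fun k => by rw [e]; omega
  exact ⟨a, hs, fun k => ⟨hs.id_le k, by rw [e]; omega⟩⟩

theorem aleph0_lt {κ : Cardinal.{0}} {X : Set Cantor} (hκ : κ.IsRegular)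
    (hX : ∀ x ∈ X, (supp x).Infinite) (hc : κ ≤ #X) (ho : Omit κ X) : ℵ₀ < κ := by
  refine lt_of_le_of_ne hκ.aleph0_le fun h => ?_
  subst h
  have hinf : X.Infinite := Set.infinite_coe_iff.1 (Cardinal.infinite_iff.2 hc)
  let e := hinf.natEmbedding X
  choose nx hnx1 hnx2 using fun j n => exists_next (hX _ (e j).2) n
  obtain ⟨a, ha, hak⟩ := exists_jump (fun u => (Finset.range (u + 1)).sup fun j => nx j u)
  obtain ⟨S, -, hS, hF⟩ := ho a ha
  have hSf : S.Finite := Cardinal.lt_aleph0_iff_set_finite.1 hS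
  have hinj : Function.Injective fun j => (e j).1 := Subtype.val_injective.comp e.injective
  obtain ⟨j, -, hj⟩ := infinite_univ.exists_notMem_finite (hSf.preimage hinj.injOn)
  obtain ⟨n, hn, h⟩ := frequently_atTop.1 (hF {(e j).1} (finite_singleton _)
    (singleton_subset_iff.2 ⟨(e j).2, hj⟩)) j
  have h1 := h _ rfl (nx j (a n)) (hnx1 j _) (lt_of_le_of_lt
    (Finset.le_sup (f := fun j => nx j (a n))
      (Finset.mem_range.2 (by have := (hak n).1; omega))) (hak n).2)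
  rw [hnx2] at h1
  exact absurd h1 (by simp)

theorem finSets_countable : FinSets.Countable := by
  have hinj : Function.Injective supp := by
    intro x y h
    funext n
    have := Set.ext_iff.1 h n
    simp only [supp, mem_ofPred_eq] at this
    exact Bool.eq_iff_iff.2 this
  exact (Set.Countable.ofPred_finite (α := ℕ)).preimage hinj

theorem finSets_infinite : FinSets.Infinite := by
  refine infinite_of_injective_forall_mem (f := fun (n : ℕ) (i : ℕ) => decide (i = n)) ?_ ?_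
  · intro n m h
    simpa using congrFun h n
  · intro n
    refine (finite_singleton n).subset fun i hi => ?_
    simpa [supp] using hi

theorem card_union_fin {κ : Cardinal.{0}} (hκ : ℵ₀ < κ) {S : Set Cantor} (hS : #S < κ) :
    #(S ∪ FinSets : Set Cantor) < κ :=
  (Cardinal.mk_union_le _ _).trans_lt (Cardinal.add_lt_of_lt hκ.le hS
    ((Cardinal.le_aleph0_iff_set_countable.2 finSets_countable).trans_lt hκ))

theorem card_finset {κ : Cardinal.{0}} (hκ : ℵ₀ < κ) {S : Set Cantor} (hS : #S < κ) :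
    #(Finset ↥(S ∪ FinSets)) < κ := by
  have : Infinite ↥(S ∪ FinSets) := (finSets_infinite.mono subset_union_right).to_subtype
  rw [Cardinal.mk_finset_of_infinite]
  exact card_union_fin hκ hS

theorem exists_finset {T A : Set Cantor} (hA : A.Finite) (hAT : A ⊆ T) :
    ∃ A' : Finset T, Subtype.val '' (A' : Set T) = A := by
  refine ⟨(hA.preimage Subtype.val_injective.injOn).toFinset, ?_⟩
  rw [Finite.coe_toFinset, Subtype.image_preimage_coe, inter_eq_right.2 hAT]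

theorem low_finite (m : ℕ) : {x : Cantor | ∀ t, m ≤ t → x t = false}.Finite := by
  refine Finite.of_finite_image (f := fun x (i : Fin m) => x i) (toFinite _) ?_
  intro x hx y hy h
  funext t
  by_cases ht : t < m
  · exact congrFun h ⟨t, ht⟩
  · rw [hx t (not_lt.1 ht), hy t (not_lt.1 ht)]

theorem low_subset (m : ℕ) : {x : Cantor | ∀ t, m ≤ t → x t = false} ⊆ FinSets := by
  intro x hx
  refine (finite_Iio m).subset fun t ht => ?_
  by_contra h
  have h1 := hx t (not_lt.1 h)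
  have h2 : x t = true := ht
  rw [h2] at h1
  exact absurd h1 (by simp)

theorem exists_gap (m : ℕ) {u : Set Cantor} (hu : IsOpen u)
    (h : {x : Cantor | ∀ t, m ≤ t → x t = false} ⊆ u) :
    ∃ b, {x : Cantor | ∀ t, m ≤ t → t < b → x t = false} ⊆ u := by
  apply exists_subset_nhds_of_compactSpace
    (V := fun b => {x : Cantor | ∀ t, m ≤ t → t < b → x t = false})
  · exact directed_of_isDirected_le fun b c hbc x hx t h1 h2 => hx t h1 (h2.trans_le hbc)
  · intro b
    simp only [ofPred_forall]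
    exact isClosed_iInter fun t => isClosed_iInter fun _ => isClosed_iInter fun _ =>
      isClosed_eq (continuous_apply t) continuous_const
  · intro x hx
    exact hu.mem_nhds (h fun t ht => mem_iInter.1 hx (t + 1) t ht (Nat.lt_succ_self t))

section main

variable {Y : Type} [TopologicalSpace Y] {κ : Cardinal.{0}} {X : Set Cantor}

theorem claim_one (hY : WG Y) (ho : Omit κ X) {T : Set Cantor} (hT : FinSets ⊆ T)
    {O : ℕ → Set (Cantor × Y)} (hO : ∀ i, IsOpen (O i))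
    (hc : ∀ F : Set (Cantor × Y), F.Finite → F ⊆ T ×ˢ univ → ∃ i, F ⊆ O i)
    {A : Set Cantor} (hA : A.Finite) (hAT : A ⊆ T) :
    ∃ S ⊆ X, #S < κ ∧ ∀ B : Set Cantor, B.Finite → B ⊆ X \ S → ∀ F : Set Y, F.Finite →
      ∃ i, (A ∪ B) ×ˢ F ⊆ O i := by
  obtain ⟨φ, V, hφ, hV, hVy⟩ := hY (fun m => {V | IsOpen V ∧ ∃ i b,
      (A ∪ {x : Cantor | ∀ t, m ≤ t → t < b → x t = false}) ×ˢ V ⊆ O i})
    (fun m V hV => hV.1) (by
      intro m F hF
      have h1 := hA.union (low_finite m)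
      obtain ⟨i, hi⟩ := hc _ (h1.prod hF)
        (prod_mono (union_subset hAT ((low_subset m).trans hT)) (subset_univ _))
      obtain ⟨u, v, hu, hv, h2, h3, h4⟩ := generalized_tube_lemma h1.isCompact hF.isCompact
        (hO i) hi
      obtain ⟨b, hb⟩ := exists_gap m hu (subset_union_right.trans h2)
      exact ⟨v, ⟨hv, i, b, (prod_mono (union_subset (subset_union_left.trans h2) hb)
        Subset.rfl).trans h4⟩, h3⟩)
  choose ii bb hib using fun k => (hV k).2
  obtain ⟨c, hc1, hc2⟩ := exists_jump bb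
  obtain ⟨S, hS, hκ, hF⟩ := ho (φ ∘ c) (hφ.comp hc1)
  refine ⟨S, hS, hκ, fun B hB hBS F hFf => ?_⟩
  obtain ⟨j, h1, h2⟩ := ((hF B hB hBS).and_eventually
    (hc1.tendsto_atTop.eventually (ev_finite hVy hFf))).exists
  refine ⟨ii (c j), (prod_mono (union_subset_union_right _ ?_) h2).trans (hib (c j))⟩
  intro x hx t h3 h4
  exact h1 x hx t h3 (h4.trans ((hc2 j).2.trans_le (hφ.id_le _)))

theorem main (hκ : κ.IsRegular) (hκ0 : ℵ₀ < κ) (hY : WG Y) (ho : Omit κ X)
    (hsm : ∀ S ⊆ X, #S < κ → S1On ((S ∪ FinSets) ×ˢ (univ : Set Y))) :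
    S1On ((X ∪ FinSets) ×ˢ (univ : Set Y)) := by
  intro U hU hc
  have step : ∀ (r : ℕ) (S : {S : Set Cantor // S ⊆ X ∧ #S < κ}),
      ∃ (g : ℕ → ℕ) (S' : {S : Set Cantor // S ⊆ X ∧ #S < κ}), S.1 ⊆ S'.1 ∧
        ∀ A : Set Cantor, A.Finite → A ⊆ S.1 ∪ FinSets → ∀ B : Set Cantor, B.Finite →
          B ⊆ X \ S'.1 → ∀ F : Set Y, F.Finite →
            ∃ i, (A ∪ B) ×ˢ F ⊆ U (Nat.pair r i) (g i) := by
    rintro r ⟨S, hSX, hS⟩
    obtain ⟨g, hg⟩ := hsm S hSX hS (fun i => U (Nat.pair r i)) (fun i k => hU _ k)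
      (fun z hz i => hc z (prod_mono (union_subset_union_left _ hSX) Subset.rfl hz) _)
    choose R hRX hR hRp using fun A : Finset ↥(S ∪ FinSets) =>
      claim_one hY ho subset_union_right (fun i => hU (Nat.pair r i) (g i)) hg
        (A := Subtype.val '' (A : Set ↥(S ∪ FinSets))) (A.finite_toSet.image _)
        (Subtype.coe_image_subset _ _)
    refine ⟨g, ⟨S ∪ ⋃ A, R A, union_subset hSX (iUnion_subset hRX), ?_⟩, subset_union_left, ?_⟩
    · exact (Cardinal.mk_union_le _ _).trans_lt (Cardinal.add_lt_of_lt hκ0.le hS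
        ((Cardinal.card_iUnion_lt_iff_forall_of_isRegular hκ (card_finset hκ0 hS)).2 hR))
    · intro A hA hAS B hB hBS F hF
      obtain ⟨A', rfl⟩ := exists_finset hA hAS
      exact hRp A' B hB (fun x hx => ⟨(hBS hx).1, fun h =>
        (hBS hx).2 (Or.inr (mem_iUnion.2 ⟨A', h⟩))⟩) F hF
  choose gg nxt hsub hp using step
  let SS : ℕ → {S : Set Cantor // S ⊆ X ∧ #S < κ} := fun r =>
    Nat.rec ⟨∅, empty_subset _, by simpa using hκ.pos⟩ (fun r S => nxt r S) r
  have hmono : Monotone fun r => (SS r).1 := monotone_nat_of_le_succ fun r => hsub r (SS r)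
  refine ⟨fun n => gg n.unpair.1 (SS n.unpair.1) n.unpair.2, fun F hF hFT => ?_⟩
  have hF1 : (Prod.fst '' F).Finite := hF.image _
  obtain ⟨r, hr⟩ : ∃ r, ∀ x ∈ Prod.fst '' F, (∃ s, x ∈ (SS s).1) → x ∈ (SS r).1 := by
    have h : ∀ x ∈ Prod.fst '' F, ∀ᶠ r in atTop, (∃ s, x ∈ (SS s).1) → x ∈ (SS r).1 := by
      intro x _
      by_cases hx : ∃ s, x ∈ (SS s).1
      · obtain ⟨s, hs⟩ := hx
        filter_upwards [eventually_ge_atTop s] with r hr _ using hmono hr hs
      · exact Eventually.of_forall fun r h => absurd h hx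
    exact ((eventually_all_finite hF1).2 h).exists
  obtain ⟨i, hi⟩ := hp r (SS r) (Prod.fst '' F ∩ ((SS r).1 ∪ FinSets)) (hF1.inter_of_left _)
    inter_subset_right (Prod.fst '' F \ ((SS r).1 ∪ FinSets)) hF1.sdiff (by
      rintro x ⟨hx, hx2⟩
      obtain ⟨z, hz, rfl⟩ := hx
      refine ⟨(hFT hz).1.resolve_right fun h => hx2 (Or.inr h), fun h => hx2 (Or.inl ?_)⟩
      exact hr _ ⟨z, hz, rfl⟩ ⟨r + 1, h⟩) (Prod.snd '' F) (hF.image _)
  refine ⟨Nat.pair r i, ?_⟩
  simp only [Nat.unpair_pair]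
  rw [inter_union_sdiff] at hi
  exact fun z hz => hi ⟨⟨z, hz, rfl⟩, ⟨z, hz, rfl⟩⟩

/-- Sections of open sets over a finite set. -/
def sec {T : Set Cantor} (A : Finset T) (W : Set (Cantor × Y)) : Set Y :=
  {y | ∀ x ∈ A, ((x : Cantor), y) ∈ W}

theorem sec_open {T : Set Cantor} (A : Finset T) {W : Set (Cantor × Y)} (hW : IsOpen W) :
    IsOpen (sec A W) := by
  have : sec A W = ⋂ x ∈ A, (fun y => ((x : Cantor), y)) ⁻¹' W := by
    ext y
    simp [sec]
  rw [this]
  exact isOpen_biInter_finset fun x _ => hW.preimage (by fun_prop)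

omit [TopologicalSpace Y] in
theorem sec_ev {T : Set Cantor} (A : Finset T) {W : ℕ → Set (Cantor × Y)}
    (h : ∀ z ∈ T ×ˢ (univ : Set Y), ∀ᶠ k in atTop, z ∈ W k) (y : Y) :
    ∀ᶠ k in atTop, y ∈ sec A (W k) :=
  (eventually_all_finset A).2 fun x _ => h _ ⟨x.2, mem_univ y⟩

omit [TopologicalSpace Y] in
theorem sec_red {T : Set Cantor} {W : ℕ → Set (Cantor × Y)}
    (h : ∀ (A : Finset T) (F : Set Y), F.Finite → ∃ n, F ⊆ sec A (W n))
    (F : Set (Cantor × Y)) (hF : F.Finite) (hFT : F ⊆ T ×ˢ univ) : ∃ n, F ⊆ W n := by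
  obtain ⟨A, hA⟩ := exists_finset (T := T) (hF.image Prod.fst) (by
    rintro _ ⟨z, hz, rfl⟩
    exact (hFT hz).1)
  obtain ⟨n, hn⟩ := h A _ (hF.image Prod.snd)
  refine ⟨n, fun z hz => ?_⟩
  obtain ⟨x, hx, hxz⟩ : z.1 ∈ Subtype.val '' (A : Set T) := hA ▸ ⟨z, hz, rfl⟩
  have := hn ⟨z, hz, rfl⟩ x hx
  rwa [hxz] at this

theorem meagre_evd {φ : ℕ → ℕ} (hφ : StrictMono φ) (g' : ℕ → ℕ) :
    IsMeagre {g : ℕ → ℕ | ∀ᶠ k in atTop, g (φ k) ≠ g' k} := by
  have e : {g : ℕ → ℕ | ∀ᶠ k in atTop, g (φ k) ≠ g' k}ᶜ =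
      ⋂ N, {g : ℕ → ℕ | ∃ k, N ≤ k ∧ g (φ k) = g' k} := by
    ext g
    simp [eventually_atTop]
  unfold IsMeagre
  rw [e, countable_iInter_mem]
  intro N
  apply residual_of_dense_open
  · simp only [ofPred_exists]
    refine isOpen_iUnion fun k => ?_
    by_cases hk : N ≤ k
    · simp only [hk, true_and]
      have hc : Continuous fun g : ℕ → ℕ => g (φ k) := continuous_apply (φ k)
      exact (isOpen_discrete {g' k}).preimage hc
    · simp [hk]
  · intro g
    refine mem_closure_of_tendsto (f := fun j => Function.update g (φ (N + j)) (g' (N + j)))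
      (b := atTop) ?_ (Eventually.of_forall fun j => ⟨N + j, by omega, by simp⟩)
    rw [tendsto_pi_nhds]
    intro t
    apply tendsto_const_nhds.congr'
    filter_upwards [eventually_gt_atTop t] with j hj
    have : N + j ≤ φ (N + j) := hφ.id_le _
    rw [Function.update_of_ne (by omega)]

theorem small_cov (hY : WG Y) {T : Set Cantor} (hT : #(Finset T) < covM) :
    S1On (T ×ˢ (univ : Set Y)) := by
  intro U hU hc
  have h1 : ∀ A : Finset T, ∃ (φ g' : ℕ → ℕ), StrictMono φ ∧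
      ∀ y, ∀ᶠ k in atTop, y ∈ sec A (U (φ k) (g' k)) := by
    intro A
    obtain ⟨φ, V, hφ, hV, hVy⟩ := hY (fun m => range fun k => sec A (U m k)) (by
      rintro m _ ⟨k, rfl⟩
      exact sec_open A (hU m k)) (fun m F hF => by
      obtain ⟨k, hk⟩ := (ev_finite (sec_ev A fun z hz => hc z hz m) hF).exists
      exact ⟨_, ⟨k, rfl⟩, hk⟩)
    choose g' hg' using hV
    exact ⟨φ, g', hφ, fun y => (hVy y).mono fun k hk => (hg' k).symm.subset hk⟩
  choose φ g' hφ hy using h1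
  have h2 : ⋃₀ (range fun A : Finset T =>
      {g : ℕ → ℕ | ∀ᶠ k in atTop, g (φ A k) ≠ g' A k}) ≠ univ := by
    intro h
    refine notMem_of_lt_csInf' (Cardinal.mk_range_le.trans_lt hT) ⟨_, ?_, h, rfl⟩
    rintro _ ⟨A, rfl⟩
    exact meagre_evd (hφ A) _
  obtain ⟨g, hg⟩ := (ne_univ_iff_exists_notMem _).1 h2
  refine ⟨g, sec_red fun A F hF => ?_⟩
  have h3 : ¬ ∀ᶠ k in atTop, g (φ A k) ≠ g' A k := fun h => hg ⟨_, ⟨A, rfl⟩, h⟩
  rw [not_eventually] at h3
  obtain ⟨k, hk1, hk2⟩ := (h3.and_eventually (ev_finite (hy A) hF)).exists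
  exact ⟨φ A k, by rw [not_not.1 hk1]; exact hk2⟩

theorem gw_dense (hY : WG Y) {V : ℕ → ℕ → Set Y} (hV : ∀ n k, IsOpen (V n k))
    (hc : ∀ n y, ∀ᶠ k in atTop, y ∈ V n k) :
    GroupwiseDense {G : Set ℕ | G.Infinite ∧ ∃ h : ℕ → ℕ, ∀ y, ∀ᶠ n in atTop,
      ∀ k ∈ G, h n ≤ k → y ∈ V n k} := by
  refine ⟨fun A hA => hA.1, ?_, ?_⟩
  · rintro G ⟨-, h, hh⟩ B hB hBG
    obtain ⟨c, hc⟩ := hBG.bddAbove
    refine ⟨hB, fun n => max (h n) (c + 1), fun y => (hh y).mono fun n hn k hk hle => ?_⟩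
    refine hn k ?_ ((le_max_left _ _).trans hle)
    by_contra hkG
    have h1 := hc ⟨hk, hkG⟩
    have h2 := (le_max_right _ _).trans hle
    omega
  · intro d hd
    obtain ⟨φ, W, hφ, hW, hWy⟩ := hY (fun i => {W | ∃ j, i ≤ j ∧
        W = ⋂ n ∈ Finset.range (i + 1), ⋂ k ∈ Finset.Ico (d j) (d (j + 1)), V n k}) (by
      rintro i _ ⟨j, -, rfl⟩
      exact isOpen_biInter_finset fun n _ => isOpen_biInter_finset fun k _ => hV n k) (by
      intro i F hF
      obtain ⟨K, hK⟩ := eventually_atTop.1 ((eventually_all_finset (Finset.range (i + 1))).2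
        fun n _ => ev_finite (hc n) hF)
      refine ⟨_, ⟨max i K, le_max_left _ _, rfl⟩, ?_⟩
      simp only [subset_iInter_iff]
      intro n hn k hk
      have h1 : max i K ≤ d (max i K) := hd.id_le _
      exact hK k (((le_max_right i K).trans h1).trans (Finset.mem_Ico.1 hk).1) n hn)
    choose jj hj1 hj2 using hW
    have hjm : ∀ m, m ≤ jj m := fun m => (hφ.id_le m).trans (hj1 m)
    refine ⟨range jj, ?_, ?_, fun n => (Finset.range n).sup fun m => d (jj m + 1), fun y => ?_⟩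
    · exact infinite_of_forall_exists_gt fun a => ⟨jj (a + 1), ⟨_, rfl⟩, hjm (a + 1)⟩
    · refine infinite_of_forall_exists_gt fun a => ⟨d (jj (a + 1)), ?_,
        (hjm (a + 1)).trans (hd.id_le _)⟩
      simp only [mem_iUnion]
      exact ⟨_, ⟨a + 1, rfl⟩, le_rfl, hd (Nat.lt_succ_self _)⟩
    · obtain ⟨m0, hm0⟩ := eventually_atTop.1 (hWy y)
      filter_upwards [eventually_ge_atTop m0] with n hn k hk hle
      simp only [mem_iUnion] at hk
      obtain ⟨_, ⟨m, rfl⟩, hk1, hk2⟩ := hk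
      have hnm : n ≤ m := by
        by_contra hlt
        have := Finset.le_sup (f := fun m => d (jj m + 1)) (Finset.mem_range.2 (not_le.1 hlt))
        exact absurd (this.trans hle) (not_le.2 hk2)
      have h1 := hm0 m (hn.trans hnm)
      rw [hj2] at h1
      simp only [mem_iInter] at h1
      have h2 : m ≤ φ m := hφ.id_le m
      exact h1 n (Finset.mem_range.2 (by omega)) k (Finset.mem_Ico.2 ⟨hk1, hk2⟩)

theorem small_g (hκ : κ.IsRegular) (hX : ∀ x ∈ X, (supp x).Infinite) (hcX : κ ≤ #X)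
    (ho : Omit κ X) (hg : κ ≤ gNum) (hY : WG Y) {T : Set Cantor} (hT : #(Finset T) < κ) :
    S1On (T ×ˢ (univ : Set Y)) := by
  intro U hU hc
  have h2 : ⋂₀ (range fun A : Finset T => {G : Set ℕ | G.Infinite ∧ ∃ h : ℕ → ℕ, ∀ y,
      ∀ᶠ n in atTop, ∀ k ∈ G, h n ≤ k → y ∈ sec A (U n k)}) ≠ ∅ := by
    intro h
    refine notMem_of_lt_csInf' ((Cardinal.mk_range_le.trans_lt hT).trans_le hg)
      ⟨_, range_nonempty _, ?_, h, rfl⟩
    rintro _ ⟨A, rfl⟩
    exact gw_dense hY (fun n k => sec_open A (hU n k))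
      (fun n => sec_ev A fun z hz => hc z hz n)
  obtain ⟨G, hG⟩ := nonempty_iff_ne_empty.2 h2
  have hG' := fun A : Finset T => hG _ ⟨A, rfl⟩
  have hGi : G.Infinite := (hG' ∅).1
  choose h hh using fun A => (hG' A).2
  choose a ha hak using fun A => exists_jump (h A)
  choose S hSX hS hSp using fun A => ho (a A) (ha A)
  have h3 : #(⋃ A, S A) < #X :=
    ((Cardinal.card_iUnion_lt_iff_forall_of_isRegular hκ hT).2 hS).trans_le hcX
  obtain ⟨x, hx, hxS⟩ : ∃ x ∈ X, x ∉ ⋃ A, S A := by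
    by_contra hcon
    push Not at hcon
    exact absurd (Cardinal.mk_le_mk_of_subset hcon) (not_le.2 h3)
  choose f hf1 hf2 using exists_next (hX x hx)
  choose g hg1 hg2 using fun n => hGi.exists_gt (f n)
  refine ⟨g, sec_red fun A F hF => ?_⟩
  have h4 := (eventually_all_finite hF).2 fun y _ => hh A y
  obtain ⟨k, hk1, hk2⟩ := ((hSp A {x} (finite_singleton x) (singleton_subset_iff.2
    ⟨hx, fun h => hxS (mem_iUnion.2 ⟨A, h⟩)⟩)).and_eventually
      ((ha A).tendsto_atTop.eventually h4)).exists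
  refine ⟨a A k, fun y hy => hk2 y hy _ (hg1 _) ?_⟩
  have h5 : a A (k + 1) ≤ f (a A k) := by
    by_contra hlt
    have := hk1 x rfl _ (hf1 _) (not_le.1 hlt)
    rw [hf2] at this
    exact absurd this (by simp)
  exact ((hak A k).2.le.trans h5).trans (hg2 _).le

end main

end Pool.Agent.H146Z.Fu
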