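import Mathlib

/-!
Nevanlinna functions; zeros and poles counted with multiplicity.
-/

set_option autoImplicit false

namespace Pool.Agent.H146Z.Nev

/-- A Nevanlinna function: meromorphic on the whole plane, analytic off the real line, with
positive imaginary part on the upper and negative imaginary part on the lower half-plane. -/
def IsNevanlinna (m : ℂ → ℂ) : Prop :=
  Meromorphic m ∧ (∀ z : ℂ, z.im ≠ 0 → AnalyticAt ℂ m z) ∧
    (∀ z : ℂ, 0 < z.im → 0 < (m z).im) ∧ ∀ z : ℂ, z.im < 0 → (m z).im < 0

/-- The multiplicity of a zero, from the order: the order if it is positive (infinity if the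
function vanishes identically near the point), and otherwise `0`. -/
noncomputable def zeroMult (o : WithTop ℤ) : ENNReal :=
  if o = ⊤ then ⊤ else (o.untop₀.toNat : ENNReal)

/-- The multiplicity of a pole, from the order: minus the order if it is negative, and
otherwise `0`. -/
noncomputable def poleMult (o : WithTop ℤ) : ENNReal := ((-o.untop₀).toNat : ENNReal)

/-- The number of zeros of `f` in `U`, with multiplicity, as a sum in `[0, ∞]`. -/
noncomputable def zeroCount (f : ℂ → ℂ) (U : Set ℂ) : ENNReal :=
  ∑' z : U, zeroMult (meromorphicOrderAt f (z : ℂ))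

/-- The number of poles of `f` in `U`, with multiplicity, as a sum in `[0, ∞]`. -/
noncomputable def poleCount (f : ℂ → ℂ) (U : Set ℂ) : ENNReal :=
  ∑' z : U, poleMult (meromorphicOrderAt f (z : ℂ))

end Pool.Agent.H146Z.Nev
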