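import Pool.Agent.H146Z.NevDefs

set_option autoImplicit false

open Filter Topology Complex

namespace Pool.Agent.H146Z.Nev

lemma im_tan (w : ℂ) (h : cos w ≠ 0) :
    (tan w).im * normSq (cos w) = Real.sinh w.im * Real.cosh w.im := by
  have h1 : normSq (cos w) ≠ 0 := by simpa using h
  rw [tan_eq_sin_div_cos, div_im]
  have e1 : (sin w).re = Real.sin w.re * Real.cosh w.im := by
    rw [sin_eq w]; simp [← ofReal_sin, ← ofReal_cos, ← ofReal_cosh, ← ofReal_sinh]
  have e2 : (sin w).im = Real.cos w.re * Real.sinh w.im := by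
    rw [sin_eq w]; simp [← ofReal_sin, ← ofReal_cos, ← ofReal_cosh, ← ofReal_sinh]
  have e3 : (cos w).re = Real.cos w.re * Real.cosh w.im := by
    rw [cos_eq w]; simp [← ofReal_sin, ← ofReal_cos, ← ofReal_cosh, ← ofReal_sinh]
  have e4 : (cos w).im = -(Real.sin w.re * Real.sinh w.im) := by
    rw [cos_eq w]; simp [← ofReal_sin, ← ofReal_cos, ← ofReal_cosh, ← ofReal_sinh]
  field_simp
  rw [e1, e2, e3, e4]
  linear_combination (Real.sinh w.im * Real.cosh w.im) * Real.sin_sq_add_cos_sq w.re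

lemma cos_ne_zero_of_im {w : ℂ} (h : w.im ≠ 0) : cos w ≠ 0 := by
  intro h0
  obtain ⟨k, hk⟩ := Complex.cos_eq_zero_iff.1 h0
  apply h
  have : w = (((2 * (k : ℝ) + 1) * Real.pi / 2 : ℝ) : ℂ) := by
    rw [hk]
    push_cast
    ring
  rw [this, ofReal_im]

/-- the functions -/
noncomputable def tn (c : ℝ) (z : ℂ) : ℂ := tan (c * z)

lemma an_sin (c : ℝ) (z : ℂ) : AnalyticAt ℂ (fun z : ℂ => sin (c * z)) z := by fun_prop
lemma an_cos (c : ℝ) (z : ℂ) : AnalyticAt ℂ (fun z : ℂ => cos (c * z)) z := by fun_prop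

lemma tn_eq (c : ℝ) : tn c = (fun z : ℂ => sin (c * z)) / (fun z : ℂ => cos (c * z)) := by
  funext z
  simp [tn, tan_eq_sin_div_cos]

lemma tn_analytic (c : ℝ) {z : ℂ} (h : cos (c * z) ≠ 0) : AnalyticAt ℂ (tn c) z := by
  rw [tn_eq]
  exact (an_sin c z).div (an_cos c z) h

lemma tn_nev {c : ℝ} (hc : 0 < c) : IsNevanlinna (tn c) := by
  have him : ∀ z : ℂ, ((c : ℂ) * z).im = c * z.im := fun z => by simp
  refine ⟨fun z => ?_, fun z hz => ?_, fun z hz => ?_, fun z hz => ?_⟩
  · rw [tn_eq]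
    exact (an_sin c z).meromorphicAt.div (an_cos c z).meromorphicAt
  · exact tn_analytic c (cos_ne_zero_of_im (by rw [him]; positivity))
  · have h1 : 0 < ((c : ℂ) * z).im := by rw [him]; positivity
    have h2 := cos_ne_zero_of_im h1.ne'
    have h3 := im_tan _ h2
    have h4 : 0 < Real.sinh ((c : ℂ) * z).im * Real.cosh ((c : ℂ) * z).im :=
      mul_pos (Real.sinh_pos_iff.2 h1) (Real.cosh_pos _)
    rw [← h3] at h4
    exact (mul_pos_iff_of_pos_right (normSq_pos.2 h2)).1 h4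
  · have h1 : ((c : ℂ) * z).im < 0 := by rw [him]; exact mul_neg_of_pos_of_neg hc hz
    have h2 := cos_ne_zero_of_im h1.ne
    have h3 := im_tan _ h2
    have h4 : Real.sinh ((c : ℂ) * z).im * Real.cosh ((c : ℂ) * z).im < 0 :=
      mul_neg_of_neg_of_pos (Real.sinh_neg_iff.2 h1) (Real.cosh_pos _)
    rw [← h3] at h4
    by_contra h5
    exact absurd h4 (not_lt.2 (mul_nonneg (not_lt.1 h5) (normSq_nonneg _)))

lemma sin_ne_zero_of_cos {w : ℂ} (h : cos w = 0) : sin w ≠ 0 := by
  intro h1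
  have := sin_sq_add_cos_sq w
  rw [h, h1] at this
  simp at this

lemma order_cos_zero {c : ℝ} (hc : 0 < c) {z : ℂ} (h : cos (c * z) = 0) :
    meromorphicOrderAt (fun z : ℂ => cos (c * z)) z = 1 := by
  have hd : deriv (fun z : ℂ => cos (c * z)) z = -sin (c * z) * c := by
    have := ((hasDerivAt_id z).const_mul (c : ℂ)).ccos
    simpa using this.deriv
  have h1 : analyticOrderAt (fun z : ℂ => cos (c * z)) z = 1 := by
    apply (an_cos c z).analyticOrderAt_eq_one_of_zero_deriv_ne_zero h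
    rw [hd]
    exact mul_ne_zero (neg_ne_zero.2 (sin_ne_zero_of_cos h)) (by exact_mod_cast hc.ne')
  rw [(an_cos c z).meromorphicOrderAt_eq, h1]
  rfl

lemma order_of_ne_zero {f : ℂ → ℂ} {z : ℂ} (hf : AnalyticAt ℂ f z) (h : f z ≠ 0) :
    meromorphicOrderAt f z = 0 := by
  rw [hf.meromorphicOrderAt_eq, hf.analyticOrderAt_eq_zero.2 h]
  rfl

lemma order_tn_pole {c : ℝ} (hc : 0 < c) {z : ℂ} (h : cos (c * z) = 0) :
    meromorphicOrderAt (tn c) z = ((-1 : ℤ) : WithTop ℤ) := by
  rw [tn_eq, meromorphicOrderAt_div (an_sin c z).meromorphicAt (an_cos c z).meromorphicAt,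
    order_cos_zero hc h, order_of_ne_zero (an_sin c z) (sin_ne_zero_of_cos h)]
  rfl

lemma tan_ne_I {w : ℂ} (h : cos w ≠ 0) : tan w - I ≠ 0 := by
  intro h1
  rw [tan_eq_sin_div_cos, sub_eq_zero, div_eq_iff h] at h1
  have := sin_sq_add_cos_sq w
  rw [h1, mul_pow, I_sq] at this
  simp at this

lemma order_tn_sub {c : ℝ} (hc : 0 < c) (z : ℂ) :
    meromorphicOrderAt (tn c - fun _ => I) z = ((-1 : ℤ) : WithTop ℤ) ∨
      meromorphicOrderAt (tn c - fun _ => I) z = ((0 : ℤ) : WithTop ℤ) := by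
  by_cases h : cos (c * z) = 0
  · left
    rw [sub_eq_add_neg, meromorphicOrderAt_add_eq_left_of_lt, order_tn_pole hc h]
    · exact (analyticAt_const.neg).meromorphicAt
    · rw [order_tn_pole hc h]
      refine lt_of_lt_of_le ?_ (analyticAt_const.neg).meromorphicOrderAt_nonneg
      exact_mod_cast (by norm_num : (-1 : ℤ) < 0)
  · right
    exact order_of_ne_zero ((tn_analytic c h).sub analyticAt_const) (tan_ne_I h)

lemma zeroCount_tn {c : ℝ} (hc : 0 < c) (U : Set ℂ) : zeroCount (tn c - fun _ => I) U = 0 := by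
  rw [zeroCount]
  have : ∀ z : U, zeroMult (meromorphicOrderAt (tn c - fun _ => I) (z : ℂ)) = 0 := by
    intro z
    rcases order_tn_sub hc z with h | h <;> rw [h, zeroMult, if_neg WithTop.coe_ne_top] <;> simp
  simp only [this, tsum_zero]

lemma poleCount_tn {c : ℝ} (hc : 0 < c) (U : Set ℂ) :
    poleCount (tn c) U = ((U ∩ {z | cos (c * z) = 0}).encard : ENNReal) := by
  classical
  rw [poleCount]
  have : ∀ z : U, poleMult (meromorphicOrderAt (tn c) (z : ℂ)) =
        Set.indicator {z : U | cos (c * (z : ℂ)) = 0} (fun _ => (1 : ENNReal)) z := by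
    intro z
    by_cases h : cos (c * (z : ℂ)) = 0
    · rw [order_tn_pole hc h, Set.indicator_of_mem (by exact h)]
      simp [poleMult]
    · rw [Set.indicator_of_notMem (by exact h)]
      have h1 := (tn_analytic c h).meromorphicOrderAt_nonneg
      generalize meromorphicOrderAt (tn c) (z : ℂ) = o at h1
      induction o using WithTop.recTopCoe with
      | top => simp [poleMult]
      | coe n =>
        have h2 : 0 ≤ n := by exact_mod_cast h1
        show (((-n).toNat : ℕ) : ENNReal) = 0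
        have : (-n).toNat = 0 := by omega
        rw [this]
        simp
  simp only [this]
  rw [← tsum_subtype, ENNReal.tsum_set_one, ← Set.InjOn.encard_image Subtype.val_injective.injOn]
  congr 2
  ext z
  simp only [Set.mem_image, Set.mem_setOf_eq, Subtype.exists, exists_and_right, exists_eq_right,
    Set.mem_inter_iff]
  tauto

lemma poles_finite {c : ℝ} (hc : 0 < c) {U : Set ℂ} (hU : Bornology.IsBounded U) :
    (U ∩ {z | cos (c * z) = 0}).Finite := by
  obtain ⟨R, hR⟩ := hU.exists_norm_le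
  obtain ⟨K, hK⟩ := exists_nat_ge (c * R + 1)
  refine ((Set.finite_Icc (-(K : ℤ)) K).image
    (fun k : ℤ => ((2 * k + 1) * Real.pi / 2 : ℂ) / c)).subset ?_
  rintro z ⟨hzU, hz⟩
  obtain ⟨k, hk⟩ := Complex.cos_eq_zero_iff.1 hz
  have hc' : (c : ℂ) ≠ 0 := by exact_mod_cast hc.ne'
  refine ⟨k, ?_, by beta_reduce; rw [← hk]; field_simp⟩
  have h1 : ‖(c : ℂ) * z‖ ≤ c * R := by
    rw [norm_mul, norm_real, Real.norm_of_nonneg hc.le]
    exact mul_le_mul_of_nonneg_left (hR z hzU) hc.le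
  have h2 : (c : ℂ) * z = (((2 * (k : ℝ) + 1) * Real.pi / 2 : ℝ) : ℂ) := by
    rw [hk]
    push_cast
    ring
  rw [h2, norm_real, Real.norm_eq_abs, abs_le] at h1
  have h3 := Real.pi_gt_three
  have h4 : -(K : ℝ) ≤ k := by
    by_contra h
    push Not at h
    have : (2 * (k : ℝ) + 1) < 0 := by
      have := (norm_nonneg z).trans (hR z hzU)
      nlinarith
    nlinarith
  have h5 : (k : ℝ) ≤ K := by
    by_contra h
    push Not at h
    have : 0 < (2 * (k : ℝ) + 1) := by
      have := (norm_nonneg z).trans (hR z hzU)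
      nlinarith
    nlinarith
  exact ⟨by exact_mod_cast h4, by exact_mod_cast h5⟩

lemma many_poles {a b : ℝ} (hab : a < b) (n : ℕ) :
    ∀ᶠ j : ℕ in atTop, ∀ U : Set ℂ, (∀ x : ℝ, a < x → x < b → (x : ℂ) ∈ U) →
      (n : ℕ∞) ≤ (U ∩ {z | cos ((((j : ℝ) + 1 : ℝ) : ℂ) * z) = 0}).encard := by
  obtain ⟨j0, hj0⟩ := exists_nat_ge (Real.pi * (n + 2) / (b - a))
  filter_upwards [eventually_ge_atTop j0] with j hj U hU
  have hpi := Real.pi_pos
  set c : ℝ := (j : ℝ) + 1 with hc
  have hc0 : 0 < c := by positivity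
  have h1 : Real.pi * (n + 2) ≤ c * (b - a) := by
    have h2 : (j0 : ℝ) ≤ j := by exact_mod_cast hj
    rw [div_le_iff₀ (by linarith)] at hj0
    nlinarith
  set k0 : ℤ := ⌈c * a / Real.pi⌉ with hk0
  have hk1 : c * a / Real.pi ≤ k0 := Int.le_ceil _
  have hk2 : (k0 : ℝ) < c * a / Real.pi + 1 := Int.ceil_lt_add_one _
  let g : ℕ → ℂ := fun i => ((((2 * ((k0 : ℝ) + i) + 1) * Real.pi / 2) / c : ℝ) : ℂ)
  have hg : Function.Injective g := by
    intro i i' h
    have h2 : ((2 * ((k0 : ℝ) + i) + 1) * Real.pi / 2) / c =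
        ((2 * ((k0 : ℝ) + i') + 1) * Real.pi / 2) / c := ofReal_injective h
    field_simp at h2
    have : (i : ℝ) = i' := by linarith
    exact_mod_cast this
  have h3 : ((Finset.range n).image g : Set ℂ) ⊆ U ∩ {z | cos ((c : ℂ) * z) = 0} := by
    intro z hz
    obtain ⟨i, hi, rfl⟩ := Finset.mem_image.1 hz
    have hi' : (i : ℝ) + 1 ≤ n := by exact_mod_cast Finset.mem_range.1 hi
    rw [div_le_iff₀ hpi] at hk1
    have hk3 : (k0 : ℝ) * Real.pi < c * a + Real.pi := by
      have := mul_lt_mul_of_pos_right hk2 hpi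
      rwa [add_mul, div_mul_cancel₀ _ hpi.ne', one_mul] at this
    have hi0 : (0 : ℝ) ≤ i := Nat.cast_nonneg _
    refine ⟨hU _ ?_ ?_, ?_⟩
    · rw [lt_div_iff₀ hc0]
      nlinarith
    · rw [div_lt_iff₀ hc0]
      nlinarith
    · refine Complex.cos_eq_zero_iff.2 ⟨k0 + i, ?_⟩
      have hc' : (c : ℂ) ≠ 0 := by exact_mod_cast hc0.ne'
      simp only [g]
      push_cast
      field_simp
  have h4 := Set.encard_le_encard h3
  rwa [Set.encard_coe_eq_coe_finsetCard, Finset.card_image_of_injective _ hg,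
    Finset.card_range] at h4

end Pool.Agent.H146Z.Nev
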