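import Pool.Agent.H146Z.PvMain

/-! `C (ℕ*)` is not a complemented subspace of a space of bounded measurable functions. -/

set_option autoImplicit false
set_option linter.all false

open Set Filter Topology
open scoped BoundedContinuousFunction

namespace Pool.Agent.H146Z.Pv

/-- the clopen subset of the remainder given by a set of natural numbers -/
def St (a : Set ℕ) : Set X := {p | ∀ᶠ n in tr p.1, n ∈ a}

theorem St.ev {a : Set ℕ} {p : X} (h : p ∈ St a) : ∀ᶠ n in tr p.1, n ∈ a := h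

theorem St_eq (a : Set ℕ) [DecidablePred (· ∈ a)] :
    St a = (fun p : X => ex (fun n => decide (n ∈ a)) p.1) ⁻¹' {true} := by
  ext p
  constructor
  · intro hp
    obtain ⟨n, h1, h2⟩ := ((St.ev hp).and (ev_ex (fun n => decide (n ∈ a)) p.1)).exists
    show ex _ p.1 = true
    rw [← h2]
    simpa using h1
  · intro hp
    filter_upwards [ev_ex (fun n => decide (n ∈ a)) p.1] with n hn
    rw [show ex _ p.1 = true from hp] at hn
    simpa using hn

theorem clopen_St (a : Set ℕ) : IsClopen (St a) := by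
  classical
  rw [St_eq]
  exact (isClopen_discrete _).preimage ((cont_ex _).comp continuous_subtype_val)

theorem St_ne {a : Set ℕ} (ha : a.Infinite) : (St a).Nonempty := by
  obtain ⟨p, hp, hp'⟩ := exists_pt (Nat.frequently_atTop_iff_infinite.2 ha)
  exact ⟨⟨p, hp⟩, hp'⟩

theorem St_inf {a : Set ℕ} {p : X} (hp : p ∈ St a) : a.Infinite :=
  Nat.frequently_atTop_iff_infinite.1 ((St.ev hp).frequently.filter_mono (tr_le p.2))

theorem St_mono {a b : Set ℕ} (h : a ⊆ b) : St a ⊆ St b :=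
  fun p hp => (St.ev hp).mono fun n hn => h hn

theorem St_disj {a b : Set ℕ} (h : (a ∩ b).Finite) : Disjoint (St a) (St b) :=
  disjoint_left.2 fun p h1 h2 => St_inf (a := a ∩ b) ((St.ev h1).and (St.ev h2)) h

theorem sep_St {C D : Set X} (hC : IsClosed C) (hD : IsClosed D) (h : Disjoint C D) :
    ∃ c, C ⊆ St c ∧ Disjoint (St c) D := by
  obtain ⟨U, V, hU, hV, hU', hV', hUV⟩ := SeparatedNhds.of_isCompact_isCompact
    (hC.isCompact.image continuous_subtype_val) (hD.isCompact.image continuous_subtype_val)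
    ((disjoint_image_iff Subtype.val_injective).2 h)
  obtain ⟨h1, h2⟩ := sep_open hU hV hUV
  refine ⟨{n | stoneCechUnit n ∈ U}, fun p hp => h1 _ (hU' ⟨p, hp, rfl⟩),
    disjoint_left.2 fun p hp hp' => ?_⟩
  obtain ⟨n, h3, h4⟩ := ((St.ev hp).and (h2 _ (hV' ⟨p, hp', rfl⟩))).exists
  exact h4 h3

/-- the bounded measurable functions -/
def BM (Ω : Type) [MeasurableSpace Ω] : Subalgebra ℝ (Ω → ℝ) where
  carrier := {g | Measurable g ∧ ∃ C, ∀ ω, |g ω| ≤ C}
  mul_mem' := by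
    rintro f g ⟨hf, C, hC⟩ ⟨hg, D, hD⟩
    refine ⟨hf.mul hg, C * D, fun ω => ?_⟩
    rw [Pi.mul_apply, abs_mul]
    exact mul_le_mul (hC ω) (hD ω) (abs_nonneg _) ((abs_nonneg _).trans (hC ω))
  add_mem' := by
    rintro f g ⟨hf, C, hC⟩ ⟨hg, D, hD⟩
    exact ⟨hf.add hg, C + D, fun ω => (abs_add_le _ _).trans (add_le_add (hC ω) (hD ω))⟩
  algebraMap_mem' := fun r => ⟨measurable_const, |r|, fun _ => le_rfl⟩

theorem core {Ω : Type} [MeasurableSpace Ω] (P : BM Ω →ₗ[ℝ] (X →ᵇ ℝ))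
    (S : (X →ᵇ ℝ) →ₗ[ℝ] BM Ω) (M0 N : ℝ) (hN : 0 < N)
    (hP : ∀ g : BM Ω, (∀ ω, |g.1 ω| ≤ 1) → ∀ x, P g x ≤ M0)
    (hS : ∀ f : X →ᵇ ℝ, (∀ x, |f x| ≤ 1) → ∀ ω, (S f).1 ω ≤ N)
    (hPS : ∀ f, P (S f) = f) : False := by
  classical
  obtain ⟨ε, hε, hε2⟩ : ∃ ε : ℝ, 0 < ε ∧ ε * (2 * N + 4) < 1 :=
    ⟨1 / (2 * N + 5), by positivity, by
      rw [div_mul_eq_mul_div, one_mul, div_lt_one (by positivity)]; linarith⟩
  obtain ⟨x0, -⟩ := St_ne infinite_univ
  -- the norm of `P` and an almost norming function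
  let V : Set ℝ := {r | ∃ (g : BM Ω) (x : X), (∀ ω, |g.1 ω| ≤ 1) ∧ P g x = r}
  have hV : BddAbove V := ⟨M0, by rintro _ ⟨g, x, hg, rfl⟩; exact hP g hg x⟩
  have hV0 : V.Nonempty := ⟨_, 0, x0, by simp, rfl⟩
  have hM : ∀ (g : BM Ω) (C : ℝ), 0 < C → (∀ ω, |g.1 ω| ≤ C) → ∀ x, P g x ≤ sSup V * C := by
    intro g C hC hg x
    have := le_csSup hV ⟨C⁻¹ • g, x, fun ω => by
      show |C⁻¹ * g.1 ω| ≤ 1
      rw [abs_mul, abs_of_pos (inv_pos.2 hC), inv_mul_le_iff₀ hC, mul_one]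
      exact hg ω, rfl⟩
    rw [map_smul] at this
    change C⁻¹ * P g x ≤ _ at this
    rwa [inv_mul_le_iff₀ hC, mul_comm] at this
  obtain ⟨_, ⟨u, x1, hu, rfl⟩, hx1⟩ := exists_lt_of_lt_csSup hV0 (sub_lt_self (sSup V) hε)
  obtain ⟨A0, hA0, hA0'⟩ := sep_St (isClosed_singleton (x := x1))
    (isClosed_le (P u).continuous (continuous_const (y := sSup V - ε)))
    (disjoint_singleton_left.2 (not_le.2 hx1))
  have hA1 : ∀ x ∈ St A0, sSup V - ε < P u x := fun x hx => not_le.1 (disjoint_left.1 hA0' hx)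
  have hpos : ∀ (w g : BM Ω), (∀ ω, |g.1 ω| ≤ w.1 ω) → (∀ ω, w.1 ω ≤ N) → ∀ x ∈ St A0,
      P g x - ε * N ≤ P (u * w) x := by
    intro w g h1 h2 x hx
    have h3 := hM (N • u - u * w + g) N hN (fun ω => by
      show |N * u.1 ω - u.1 ω * w.1 ω + g.1 ω| ≤ N
      have h4 : |N * u.1 ω - u.1 ω * w.1 ω| ≤ N - w.1 ω := by
        rw [show N * u.1 ω - u.1 ω * w.1 ω = u.1 ω * (N - w.1 ω) by ring, abs_mul,
          abs_of_nonneg (sub_nonneg.2 (h2 ω))]
        exact mul_le_of_le_one_left (sub_nonneg.2 (h2 ω)) (hu ω)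
      linarith [abs_add_le (N * u.1 ω - u.1 ω * w.1 ω) (g.1 ω), h1 ω]) x
    rw [map_add, map_sub, map_smul] at h3
    change N * P u x - P (u * w) x + P g x ≤ _ at h3
    nlinarith [hA1 x hx]
  -- the classes of weights
  let Ball : Set X → Set (X →ᵇ ℝ) := fun O => {f | (∀ x, |f x| ≤ 1) ∧ ∀ x ∉ O, f x = 0}
  let W : Set X → Set (BM Ω) := fun O => {w | ∀ ω, 0 ≤ w.1 ω ∧
    ∀ t, (∀ f ∈ Ball O, (S f).1 ω ≤ t) → w.1 ω ≤ t}
  have hWN : ∀ O, ∀ w ∈ W O, ∀ ω, w.1 ω ≤ N := fun O w hw ω =>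
    (hw ω).2 N fun f hf => hS f hf.1 ω
  have hW0 : ∀ O, (0 : BM Ω) ∈ W O := fun O ω => ⟨le_rfl, fun t ht => by
    have := ht 0 ⟨by simp, by simp⟩
    rwa [map_zero] at this⟩
  have hWadd : ∀ O O' O'', Disjoint O O' → O ⊆ O'' → O' ⊆ O'' → ∀ w ∈ W O, ∀ w' ∈ W O',
      w + w' ∈ W O'' := by
    intro O O' O'' hd h1 h2 w hw w' hw' ω
    refine ⟨add_nonneg (hw ω).1 (hw' ω).1, fun t ht => ?_⟩
    have h3 : ∀ f' ∈ Ball O', w.1 ω ≤ t - (S f').1 ω := by
      intro f' hf'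
      refine (hw ω).2 _ fun f hf => ?_
      have := ht (f + f') ⟨fun x => ?_, fun x hx => ?_⟩
      · rw [map_add] at this
        change (S f).1 ω + (S f').1 ω ≤ t at this
        linarith
      · by_cases hx : x ∈ O
        · simpa [hf'.2 x (disjoint_left.1 hd hx)] using hf.1 x
        · simpa [hf.2 x hx] using hf'.1 x
      · simp [hf.2 x fun h => hx (h1 h), hf'.2 x fun h => hx (h2 h)]
    have := (hw' ω).2 (t - w.1 ω) fun f' hf' => by linarith [h3 f' hf']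
    change w.1 ω + w'.1 ω ≤ t
    linarith
  let T : Set ℕ → Set ℝ := fun a => {r | ∃ w ∈ W (St a), ∃ x ∈ St a, P (u * w) x = r}
  have hTb : ∀ a, BddAbove (T a) := fun a => ⟨sSup V * N, by
    rintro _ ⟨w, hw, x, -, rfl⟩
    refine hM _ N hN (fun ω => ?_) x
    show |u.1 ω * w.1 ω| ≤ N
    rw [abs_mul, abs_of_nonneg (hw ω).1]
    exact (mul_le_of_le_one_left (hw ω).1 (hu ω)).trans (hWN _ w hw ω)⟩
  have hTlow : ∀ a ⊆ A0, a.Infinite → ∃ r ∈ T a, 1 - ε * N ≤ r := by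
    intro a ha ha'
    obtain ⟨x, hx⟩ := St_ne ha'
    let f : X →ᵇ ℝ := BoundedContinuousFunction.mkOfCompact
      ⟨(St a).indicator 1, (clopen_St a).continuous_indicator continuous_one⟩
    have hf : f ∈ Ball (St a) := ⟨fun y => by
      show |(St a).indicator (1 : X → ℝ) y| ≤ 1
      by_cases hy : y ∈ St a <;> simp [hy], fun y hy => indicator_of_notMem hy _⟩
    have hf' : -f ∈ Ball (St a) := ⟨fun y => by simpa using hf.1 y, fun y hy => by simp [hf.2 y hy]⟩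
    obtain ⟨hm, C, hC⟩ := (S f).2
    let w : BM Ω := ⟨fun ω => |(S f).1 ω|, hm.abs, C, fun ω => by simpa using hC ω⟩
    have hw : w ∈ W (St a) := fun ω => ⟨abs_nonneg _, fun t ht => abs_le.2 ⟨by
      have := ht _ hf'
      rw [map_neg] at this
      change -(S f).1 ω ≤ t at this
      linarith, ht _ hf⟩⟩
    refine ⟨_, ⟨w, hw, x, hx, rfl⟩, ?_⟩
    have := hpos w (S f) (fun ω => le_rfl) (hWN _ w hw) x (St_mono ha hx)
    rw [hPS] at this
    have h1 : f x = 1 := indicator_of_mem hx _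
    rwa [h1] at this
  -- localization
  let R : Set ℝ := {r | ∃ a ⊆ A0, a.Infinite ∧ sSup (T a) = r}
  have hlow : ∀ r ∈ R, 1 - ε * N ≤ r := by
    rintro _ ⟨a, ha, ha', rfl⟩
    obtain ⟨r, hr, hr'⟩ := hTlow a ha ha'
    exact hr'.trans (le_csSup (hTb a) hr)
  obtain ⟨_, ⟨A, hA, hA', rfl⟩, hAε⟩ := exists_lt_of_csInf_lt
    (s := R) ⟨_, A0, Subset.rfl, St_inf (hA0 rfl), rfl⟩ (lt_add_of_pos_right (sInf R) hε)
  have hΨ : 1 - ε * N ≤ sSup (T A) := hlow _ ⟨A, hA, hA', rfl⟩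
  have key : ∀ a ⊆ A, a.Infinite → ∃ w ∈ W (St a), ∃ x ∈ St a,
      sSup (T A) - ε < P (u * w) x := by
    intro a ha ha'
    have h1 : sInf R ≤ sSup (T a) := csInf_le ⟨_, hlow⟩ ⟨a, ha.trans hA, ha', rfl⟩
    obtain ⟨r, hr, -⟩ := hTlow a (ha.trans hA) ha'
    obtain ⟨_, ⟨w, hw, x, hx, rfl⟩, h2⟩ := exists_lt_of_lt_csSup ⟨r, hr⟩
      (show sSup (T A) - ε < sSup (T a) by linarith)
    exact ⟨w, hw, x, hx, h2⟩
  -- the columns
  let a : ℕ → Set ℕ := fun n => range fun k => Nat.nth (· ∈ A) (Nat.pair n k)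
  have ha1 : ∀ n, a n ⊆ A := by
    rintro n _ ⟨k, rfl⟩
    exact Nat.nth_mem_of_infinite hA' _
  have ha2 : ∀ n, (a n).Infinite := fun n => infinite_range_of_injective fun k k' h =>
    (Nat.pair_eq_pair.1 (Nat.nth_injective hA' h)).2
  have ha3 : ∀ n m t, t ∈ a n → t ∈ a m → n = m := by
    rintro n m _ ⟨k, rfl⟩ ⟨k', h⟩
    exact (Nat.pair_eq_pair.1 (Nat.nth_injective hA' h)).1.symm
  have ha4 : ∀ n m, n ≠ m → Disjoint (St (a n)) (St (a m)) := fun n m h =>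
    St_disj (finite_empty.subset fun t ht => h (ha3 n m t ht.1 ht.2))
  choose w hw x hx hwx using fun n => key (a n) (ha1 n) (ha2 n)
  have hsum : ∀ m, (∑ n ∈ Finset.range m, w n) ∈ W (⋃ n ∈ Iio m, St (a n)) := by
    intro m
    induction m with
    | zero => simpa using hW0 ∅
    | succ m ih =>
      rw [Finset.sum_range_succ]
      refine hWadd _ _ _ ?_ (biUnion_subset_biUnion_left (Iio_subset_Iio (Nat.le_succ m)))
        (subset_biUnion_of_mem (u := fun n => St (a n)) (Nat.lt_succ_self m)) _ ih _ (hw m)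
      exact disjoint_iUnion₂_left.2 fun n hn => ha4 n m (ne_of_lt hn)
  have hbdd : ∀ ω, BddAbove (range fun m => (∑ n ∈ Finset.range m, w n).1 ω) := fun ω =>
    ⟨N, by rintro _ ⟨m, rfl⟩; exact hWN _ _ (hsum m) ω⟩
  have hnn : ∀ ω, 0 ≤ ⨆ m, (∑ n ∈ Finset.range m, w n).1 ω := fun ω =>
    (hsum 0 ω).1.trans (le_ciSup (hbdd ω) 0)
  let ww : BM Ω := ⟨fun ω => ⨆ m, (∑ n ∈ Finset.range m, w n).1 ω,
    Measurable.iSup fun m => (∑ n ∈ Finset.range m, w n).2.1, N, fun ω => by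
      rw [abs_of_nonneg (hnn ω)]
      exact ciSup_le fun m => hWN _ _ (hsum m) ω⟩
  have hww : ww ∈ W (⋃ n, St (a n)) := fun ω => ⟨hnn ω, fun t ht => ciSup_le fun m =>
    (hsum m ω).2 t fun f hf => ht f ⟨hf.1, fun y hy => hf.2 y fun h => hy (by
      obtain ⟨n, _, h⟩ := mem_iUnion₂.1 h
      exact mem_iUnion.2 ⟨n, h⟩)⟩⟩
  have hge : ∀ n ω, (w n).1 ω ≤ ww.1 ω := by
    intro n ω
    refine le_trans ?_ (le_ciSup (hbdd ω) (n + 1))
    rw [Finset.sum_range_succ]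
    exact le_add_of_nonneg_left (hsum n ω).1
  have hbig : ∀ n, sSup (T A) - ε - ε * N ≤ P (u * ww) (x n) := by
    intro n
    have h1 := hpos (ww - w n) 0 (fun ω => by
      show |(0 : ℝ)| ≤ ww.1 ω - (w n).1 ω
      rw [abs_zero]; linarith [hge n ω]) (fun ω => by
      show ww.1 ω - (w n).1 ω ≤ N
      linarith [hWN _ _ hww ω, (hw n ω).1]) (x n) (St_mono ((ha1 n).trans hA) (hx n))
    rw [mul_sub, map_sub, map_zero] at h1
    change 0 - ε * N ≤ P (u * ww) (x n) - P (u * w n) (x n) at h1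
    linarith [hwx n]
  obtain ⟨c, hc1, hc2⟩ := sep_St
    (isClosed_le (continuous_const (y := sSup (T A) - ε - ε * N)) (P (u * ww)).continuous)
    (isClosed_le (P (u * ww)).continuous (continuous_const (y := ε)))
    (disjoint_left.2 fun y h1 h2 => by
      have h3 : sSup (T A) - ε - ε * N ≤ ε := le_trans h1 h2
      nlinarith)
  choose t ht using fun n => (St_inf (a := a n ∩ c) ((St.ev (hx n)).and (St.ev (hc1 (hbig n))))).nonempty
  have htinj : Function.Injective t := fun n m h => ha3 n m _ (ht n).1 (h ▸ (ht m).1)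
  obtain ⟨w', hw', y, hy, hwy⟩ := key (range t) (range_subset_iff.2 fun n => ha1 n (ht n).1)
    (infinite_range_of_injective htinj)
  have h1 : ww + w' ∈ W (St A) := by
    refine hWadd _ _ _ (disjoint_iUnion_left.2 fun n => St_disj ((finite_singleton (t n)).subset ?_))
      (iUnion_subset fun n => St_mono (ha1 n))
      (St_mono (range_subset_iff.2 fun n => ha1 n (ht n).1)) _ hww _ hw'
    rintro _ ⟨h, m, rfl⟩
    rw [ha3 n m _ h (ht m).1]
    rfl
  have h2 := le_csSup (hTb A) ⟨_, h1, y, St_mono (range_subset_iff.2 fun n => ha1 n (ht n).1) hy, rfl⟩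
  rw [mul_add, map_add] at h2
  change P (u * ww) y + P (u * w') y ≤ _ at h2
  refine disjoint_left.1 hc2 (St_mono (range_subset_iff.2 fun n => (ht n).2) hy) ?_
  show P (u * ww) y ≤ ε
  linarith

end Pool.Agent.H146Z.Pv
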