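import Pool.Agent.H146Z.PvCore

/-! Under the continuum hypothesis the bounded Baire functions on `ℕ*` embed into `C (ℕ*)`. -/

set_option autoImplicit false
set_option linter.all false

open Set Filter Topology
open scoped BoundedContinuousFunction

namespace Pool.Agent.H146Z.Pv

open Pool.Agent.Helper647.GR.ForceCH (Om)
open Pool.Agent.Helper647.MM (mk_Om)

theorem parov_le {J : Type} (hJ : Cardinal.mk J ≤ Cardinal.aleph 1) (K : Set (J → Bool))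
    (hK : K.Nonempty) : ∃ E : J → ℕ → Bool, ∀ (t : Finset J) (σ : J → Bool),
      (∃ x ∈ K, ∀ b ∈ t, x b = σ b) ↔ ∃ᶠ n in atTop, ∀ b ∈ t, E b n = σ b := by
  obtain ⟨e⟩ : Nonempty (J ↪ Om) := by
    rw [← mk_Om] at hJ
    exact hJ
  obtain ⟨E, hE⟩ := parov_Om ((fun x : J → Bool => Function.extend e x fun _ => true) '' K)
    (hK.image _)
  refine ⟨fun j => E (e j), fun t σ => ?_⟩
  have := hE (t.map e) (Function.extend e σ fun _ => true)
  simpa [Finset.forall_mem_map, e.injective.extend_apply] using this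

theorem exists_emb {Ω : Type} [MeasurableSpace Ω] [Nonempty Ω]
    (hc : Cardinal.mk {s : Set Ω | MeasurableSet s} ≤ Cardinal.aleph 1) :
    ∃ j : BM Ω →ₗ[ℝ] (X →ᵇ ℝ), (∀ (g : BM Ω) (C : ℝ), (∀ ω, |g.1 ω| ≤ C) → ∀ p, |j g p| ≤ C) ∧
      ∀ (g : BM Ω) (ω : Ω), |g.1 ω| ≤ ‖j g‖ := by
  classical
  let x : Ω → {s : Set Ω | MeasurableSet s} → Bool := fun ω s => decide (ω ∈ s.1)
  obtain ⟨E, hE⟩ := parov_le hc (range x) (range_nonempty x)
  have h1 : ∀ (p : X) (t : Finset {s : Set Ω | MeasurableSet s}), ∃ ω, ∀ s ∈ t,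
      (ω ∈ s.1 ↔ ex (E s) p.1 = true) := by
    intro p t
    obtain ⟨_, ⟨ω, rfl⟩, hq⟩ := (hE t fun j => ex (E j) p.1).2
      (((eventually_all_finset t).2 fun j _ => ev_ex (E j) p.1).frequently.filter_mono (tr_le p.2))
    exact ⟨ω, fun s hs => by rw [← hq s hs]; simp [x]⟩
  have h2 : ∀ p : X, ∃ U : Ultrafilter Ω, ∀ s : {s : Set Ω | MeasurableSet s},
      s.1 ∈ U ↔ ex (E s) p.1 = true := by
    intro p
    haveI : (generate (Subtype.val '' {s : {s : Set Ω | MeasurableSet s} |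
        ex (E s) p.1 = true})).NeBot := by
      rw [generate_neBot_iff]
      intro t ht ht'
      obtain ⟨ω, hω⟩ := h1 p (ht'.preimage Subtype.val_injective.injOn).toFinset
      refine ⟨ω, fun s hs => ?_⟩
      obtain ⟨s', hs', rfl⟩ := ht hs
      exact (hω s' (by simpa using hs)).2 hs'
    obtain ⟨U, hU⟩ := Ultrafilter.exists_le (generate (Subtype.val ''
      {s : {s : Set Ω | MeasurableSet s} | ex (E s) p.1 = true}))
    have h3 : ∀ s : {s : Set Ω | MeasurableSet s}, ex (E s) p.1 = true → s.1 ∈ U :=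
      fun s hs => hU (mem_generate_of_mem ⟨s, hs, rfl⟩)
    refine ⟨U, fun s => ⟨fun hs => ?_, h3 s⟩⟩
    by_contra h
    obtain ⟨ω, hω⟩ := h1 p {s, ⟨s.1ᶜ, MeasurableSet.compl s.2⟩}
    have h4 := h3 _ ((hω ⟨s.1ᶜ, MeasurableSet.compl s.2⟩ (by simp)).1
      fun h' => h ((hω s (by simp)).1 h'))
    exact (Ultrafilter.compl_mem_iff_notMem.1 h4) hs
  choose U hU using h2
  have h3 : ∀ (g : BM Ω) (p : X), ∃ r, Tendsto g.1 (U p) (𝓝 r) := by
    intro g p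
    obtain ⟨-, C, hC⟩ := g.2
    obtain ⟨r, -, hr⟩ := (isCompact_Icc (a := -C) (b := C)).ultrafilter_le_nhds ((U p).map g.1)
      (le_principal_iff.2 (mem_map.2 (univ_mem' fun ω => abs_le.1 (hC ω))))
    exact ⟨r, hr⟩
  choose j0 hj0 using h3
  have h4 : ∀ (g : BM Ω) (r ε : ℝ), MeasurableSet {ω | |g.1 ω - r| < ε} := fun g r ε =>
    measurableSet_lt (g.2.1.sub_const r).abs measurable_const
  have h5 : ∀ (g : BM Ω) (r ε : ℝ) (p : X), ex (E ⟨_, h4 g r ε⟩) p.1 = true →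
      |j0 g p - r| ≤ ε := by
    intro g r ε p hp
    refine le_of_tendsto ((hj0 g p).sub_const r).abs ?_
    filter_upwards [(hU p _).2 hp] with ω hω using le_of_lt hω
  have hcont : ∀ g, Continuous (j0 g) := by
    intro g
    refine continuous_iff_continuousAt.2 fun p => Metric.continuousAt_iff'.2 fun ε hε => ?_
    have h6 : ex (E ⟨_, h4 g (j0 g p) (ε / 2)⟩) p.1 = true :=
      (hU p _).1 (Metric.tendsto_nhds.1 (hj0 g p) _ (half_pos hε))
    have h7 : IsOpen {q : X | ex (E ⟨_, h4 g (j0 g p) (ε / 2)⟩) q.1 = true} :=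
      (isOpen_discrete {true}).preimage ((cont_ex _).comp continuous_subtype_val)
    filter_upwards [h7.mem_nhds h6] with q hq
    exact (h5 g _ _ q hq).trans_lt (half_lt_self hε)
  refine ⟨⟨⟨fun g => BoundedContinuousFunction.mkOfCompact ⟨j0 g, hcont g⟩, fun f g => ?_⟩,
    fun c g => ?_⟩, fun g C hC p => ?_, fun g ω => ?_⟩
  · ext p
    exact tendsto_nhds_unique (hj0 (f + g) p) ((hj0 f p).add (hj0 g p))
  · ext p
    exact tendsto_nhds_unique (hj0 (c • g) p) ((hj0 g p).const_smul c)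
  · exact le_of_tendsto' (hj0 g p).abs hC
  · refine le_of_forall_pos_le_add fun ε hε => ?_
    obtain ⟨p, hp, hp'⟩ := exists_pt ((hE {⟨_, h4 g (g.1 ω) ε⟩} (x ω)).1
      ⟨_, ⟨ω, rfl⟩, fun _ _ => rfl⟩)
    obtain ⟨n, h6, h7⟩ := (hp'.and (ev_ex (E ⟨_, h4 g (g.1 ω) ε⟩) p)).exists
    have h8 := h5 g (g.1 ω) ε ⟨p, hp⟩ (by
      rw [← h7, h6 _ (Finset.mem_singleton_self _)]
      simpa [x] using hε)
    have h9 := (BoundedContinuousFunction.mkOfCompact ⟨j0 g, hcont g⟩).norm_coe_le_norm ⟨p, hp⟩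
    change |j0 g ⟨p, hp⟩| ≤ _ at h9
    change _ ≤ ‖BoundedContinuousFunction.mkOfCompact ⟨j0 g, hcont g⟩‖ + ε
    linarith [abs_sub_abs_le_abs_sub (g.1 ω) (j0 g ⟨p, hp⟩), abs_sub_comm (g.1 ω) (j0 g ⟨p, hp⟩)]

/-- the Baire sets of the remainder -/
def baire : MeasurableSpace X := MeasurableSpace.generateFrom (range St)

theorem meas_cont (f : X →ᵇ ℝ) : @Measurable X ℝ baire _ f := by
  letI := baire
  refine measurable_of_Iio fun r => ?_
  have h : ∀ n : ℕ, ∃ c, {x | f x ≤ r - 1 / ((n : ℝ) + 1)} ⊆ St c ∧ Disjoint (St c) {x | r ≤ f x} :=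
    fun n => sep_St (isClosed_le f.continuous continuous_const)
      (isClosed_le continuous_const f.continuous) (disjoint_left.2 fun x h1 h2 => by
        have h3 : r ≤ r - 1 / ((n : ℝ) + 1) := le_trans h2 h1
        have : (0 : ℝ) < 1 / ((n : ℝ) + 1) := by positivity
        linarith)
  choose c h1 h2 using h
  have : f ⁻¹' Iio r = ⋃ n, St (c n) := by
    ext x
    refine ⟨fun hx => ?_, fun hx => ?_⟩
    · obtain ⟨n, hn⟩ := exists_nat_one_div_lt (sub_pos.2 (show f x < r from hx))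
      exact mem_iUnion.2 ⟨n, h1 n (show f x ≤ _ by linarith)⟩
    · obtain ⟨n, hn⟩ := mem_iUnion.1 hx
      exact not_le.1 (show ¬ r ≤ f x from disjoint_left.1 (h2 n) hn)
  rw [this]
  exact MeasurableSet.iUnion fun n => MeasurableSpace.measurableSet_generateFrom ⟨_, rfl⟩

theorem main (hCH : Cardinal.aleph 1 = Cardinal.continuum.{0}) :
    ∃ Y : Submodule ℝ (X →ᵇ ℝ), IsClosed (Y : Set (X →ᵇ ℝ)) ∧ Nonempty ((X →ᵇ ℝ) ≃ₗᵢ[ℝ] Y) ∧
      ∀ Z : Submodule ℝ (X →ᵇ ℝ), Z ≤ Y → Nonempty ((X →ᵇ ℝ) ≃L[ℝ] Z) →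
        ¬ ∃ Q : (X →ᵇ ℝ) →L[ℝ] (X →ᵇ ℝ), (∀ f, Q (Q f) = Q f) ∧ range Q = Z := by
  letI : MeasurableSpace X := baire
  haveI : Nonempty X := (St_ne infinite_univ).to_type
  obtain ⟨j, hj1, hj2⟩ := exists_emb (Ω := X) (by
    rw [hCH]
    exact MeasurableSpace.cardinal_measurableSet_le_continuum
      (Cardinal.mk_range_le.trans (by simp)))
  let i : (X →ᵇ ℝ) →ₗ[ℝ] BM X :=
    ⟨⟨fun f => ⟨f, meas_cont f, ‖f‖, f.norm_coe_le_norm⟩, fun _ _ => rfl⟩, fun _ _ => rfl⟩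
  let T : (X →ᵇ ℝ) →ₗᵢ[ℝ] (X →ᵇ ℝ) := ⟨j ∘ₗ i, fun f => le_antisymm
    ((BoundedContinuousFunction.norm_le (norm_nonneg _)).2 (hj1 (i f) _ f.norm_coe_le_norm))
    ((BoundedContinuousFunction.norm_le (norm_nonneg _)).2 (hj2 (i f)))⟩
  refine ⟨LinearMap.range T.toLinearMap, T.isometry.isClosedEmbedding.isClosed_range,
    ⟨T.equivRange⟩, ?_⟩
  rintro Z hZ ⟨e⟩ ⟨Q, hQ, hQZ⟩
  have hQ1 : ∀ f, Q f ∈ Z := fun f => show Q f ∈ (Z : Set (X →ᵇ ℝ)) from hQZ ▸ mem_range_self f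
  have hQ2 : ∀ z : Z, Q z = z := by
    intro z
    obtain ⟨f, hf⟩ : z.1 ∈ range Q := hQZ ▸ z.2
    rw [← hf, hQ]
  let S0 : (X →ᵇ ℝ) →ₗ[ℝ] (X →ᵇ ℝ) :=
    T.equivRange.symm.toLinearEquiv.toLinearMap ∘ₗ Submodule.inclusion hZ ∘ₗ e.toLinearMap
  have hS0 : ∀ f, T (S0 f) = e f := fun f =>
    congrArg Subtype.val (T.equivRange.apply_symm_apply (Submodule.inclusion hZ (e f)))
  let Q' : (X →ᵇ ℝ) →L[ℝ] (X →ᵇ ℝ) := e.symm.toContinuousLinearMap ∘L Q.codRestrict Z hQ1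
  let e' : (X →ᵇ ℝ) →L[ℝ] (X →ᵇ ℝ) := Z.subtypeL ∘L e.toContinuousLinearMap
  refine core (Q'.toLinearMap ∘ₗ j) (i ∘ₗ S0) ‖Q'‖ (‖e'‖ + 1)
    (by positivity) (fun g hg x => ?_) (fun f hf ω => ?_) fun f => ?_
  · have h1 : ‖j g‖ ≤ 1 := (BoundedContinuousFunction.norm_le zero_le_one).2 (hj1 g 1 hg)
    exact (le_abs_self _).trans (((Q' (j g)).norm_coe_le_norm x).trans (Q'.unit_le_opNorm _ h1))
  · have h1 : ‖f‖ ≤ 1 := (BoundedContinuousFunction.norm_le zero_le_one).2 hf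
    have h2 : ‖S0 f‖ ≤ ‖e'‖ := by
      rw [← T.norm_map, hS0]
      exact e'.unit_le_opNorm _ h1
    exact (le_abs_self _).trans (((S0 f).norm_coe_le_norm ω).trans (h2.trans (by linarith)))
  · show e.symm ⟨Q (T (S0 f)), hQ1 _⟩ = f
    rw [e.symm_apply_eq]
    exact Subtype.ext (by rw [hS0]; exact hQ2 _)

end Pool.Agent.H146Z.Pv
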