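import Pool.Agent.H146Z.PvPar

set_option autoImplicit false
set_option linter.all false

open Set Filter Topology

namespace Pool.Agent.H146Z.Pv

abbrev B : Type := StoneCech ℕ

/-- the remainder -/
abbrev X : Set B := (Set.range (stoneCechUnit : ℕ → StoneCech ℕ))ᶜ

/-- the extension of a two-valued sequence -/
noncomputable def ex (f : ℕ → Bool) : B → Bool :=
  stoneCechExtend (continuous_of_discreteTopology (f := f))

theorem cont_ex (f : ℕ → Bool) : Continuous (ex f) := continuous_stoneCechExtend _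

theorem ex_unit (f : ℕ → Bool) (n : ℕ) : ex f (stoneCechUnit n) = f n :=
  stoneCechExtend_stoneCechUnit _ n

/-- the trace of the neighbourhood filter -/
def tr (p : B) : Filter ℕ := comap stoneCechUnit (𝓝 p)

instance (p : B) : (tr p).NeBot :=
  (denseRange_stoneCechUnit (α := ℕ)).nhdsWithin_neBot p |> fun h => by
    rw [tr, comap_neBot_iff_frequently, frequently_iff_neBot]
    exact h

theorem ev_ex (f : ℕ → Bool) (p : B) : ∀ᶠ n in tr p, f n = ex f p := by
  have h : ∀ᶠ q in 𝓝 p, ex f q = ex f p :=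
    (cont_ex f).continuousAt.eventually (by
      rw [nhds_discrete]; exact eventually_pure.2 rfl : ∀ᶠ b in 𝓝 (ex f p), b = ex f p)
  filter_upwards [preimage_mem_comap (m := (stoneCechUnit : ℕ → B)) h] with n hn
  rw [← ex_unit f n]
  exact hn

theorem tr_le {p : B} (hp : p ∈ X) : tr p ≤ atTop := by
  rw [← Nat.cofinite_eq_atTop, le_cofinite_iff_compl_singleton_mem]
  intro n
  have : ({stoneCechUnit n}ᶜ : Set B) ∈ 𝓝 p :=
    isClosed_singleton.isOpen_compl.mem_nhds fun h => hp ⟨n, h.symm⟩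
  filter_upwards [preimage_mem_comap (m := (stoneCechUnit : ℕ → B)) this] with m hm h
  exact hm (by rw [mem_singleton_iff.1 h]; rfl)

theorem mem_cl {p : B} {a : Set ℕ} :
    p ∈ closure ((stoneCechUnit : ℕ → B) '' a) ↔ ∃ᶠ n in tr p, n ∈ a := by
  rw [mem_closure_iff_frequently, tr, frequently_comap]
  simp only [mem_image, and_comm]

theorem freq_ev {p : B} {a : Set ℕ} (h : ∃ᶠ n in tr p, n ∈ a) : ∀ᶠ n in tr p, n ∈ a := by
  classical
  obtain ⟨m, h1, h2⟩ := (h.and_eventually (ev_ex (fun n => decide (n ∈ a)) p)).exists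
  filter_upwards [ev_ex (fun n => decide (n ∈ a)) p] with n hn
  rw [← h2] at hn
  simpa [h1] using hn

theorem not_mem_X {p : B} (hp : p ∉ X) : ¬ tr p ≤ atTop := by
  classical
  obtain ⟨n, rfl⟩ : p ∈ range (stoneCechUnit : ℕ → B) := not_not.1 hp
  intro h
  obtain ⟨m, h1, h2⟩ := ((ev_ex (fun m => decide (m = n)) (stoneCechUnit n)).and
    (h (eventually_gt_atTop n))).exists
  rw [ex_unit] at h1
  simp at h1
  exact absurd h1 (ne_of_gt h2)

theorem exists_pt {P : ℕ → Prop} (h : ∃ᶠ n in atTop, P n) : ∃ p ∈ X, ∀ᶠ n in tr p, P n := by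
  haveI : (atTop ⊓ 𝓟 {n | P n}).NeBot := frequently_iff_neBot.1 h
  obtain ⟨p, -, hp⟩ := isCompact_univ.exists_mapClusterPt (f := atTop ⊓ 𝓟 {n | P n})
    (u := (stoneCechUnit : ℕ → B)) (by simp)
  have key : ∀ a ∈ atTop ⊓ 𝓟 {n | P n}, ∀ᶠ n in tr p, n ∈ a := by
    intro a ha
    refine freq_ev (mem_cl.1 (mem_closure_iff_clusterPt.2 (hp.clusterPt.mono ?_)))
    exact le_principal_iff.2 (image_mem_map ha)
  refine ⟨p, ?_, key _ (mem_inf_of_right (mem_principal_self _))⟩
  by_contra hX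
  exact not_mem_X hX fun a ha => key a (mem_inf_of_left ha)

theorem closed_X : IsClosed X := by
  refine isClosed_of_closure_subset fun p hp => ?_
  by_contra hX
  apply not_mem_X hX
  intro a ha
  have : X ⊆ closure ((stoneCechUnit : ℕ → B) '' a) := fun q hq =>
    mem_cl.2 (Eventually.frequently (tr_le hq ha))
  exact freq_ev (mem_cl.1 (closure_minimal this isClosed_closure hp))

instance : CompactSpace X := isCompact_iff_compactSpace.1 closed_X.isCompact

theorem sep_open {U V : Set B} (hU : IsOpen U) (hV : IsOpen V) (h : Disjoint U V) :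
    (∀ p ∈ U, ∀ᶠ n in tr p, stoneCechUnit n ∈ U) ∧ ∀ p ∈ V, ∀ᶠ n in tr p, stoneCechUnit n ∉ U :=
  ⟨fun p hp => preimage_mem_comap (hU.mem_nhds hp), fun p hp =>
    mem_of_superset (preimage_mem_comap (hV.mem_nhds hp)) fun n hn h' => disjoint_left.1 h h' hn⟩

theorem ex_inj {p q : B} (h : ∀ f, ex f p = ex f q) : p = q := by
  classical
  by_contra hne
  obtain ⟨U, V, hU, hV, hp, hq, hUV⟩ := t2_separation hne
  obtain ⟨h1, h2⟩ := sep_open hU hV hUV
  let f : ℕ → Bool := fun n => decide (stoneCechUnit n ∈ U)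
  obtain ⟨n, h3, h4⟩ := ((h1 p hp).and (ev_ex f p)).exists
  obtain ⟨m, h5, h6⟩ := ((h2 q hq).and (ev_ex f q)).exists
  rw [h f, ← h6] at h4
  simp [f, h3, h5] at h4

/-- an almost disjoint family inside each infinite set -/
theorem exists_ad : ∃ a : Set ℕ → Set ℕ → Set ℕ, ∀ A : Set ℕ, A.Infinite →
    (∀ c, a A c ⊆ A) ∧ (∀ c, (a A c).Infinite) ∧ ∀ c c', c ≠ c' → (a A c ∩ a A c').Finite := by
  classical
  let u : Set ℕ → ℕ → ℕ := fun c n =>
    Encodable.encode (n, (Finset.range n).filter (· ∈ c))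
  have hu : ∀ c c' n n', u c n = u c' n' → n = n' ∧ ∀ i < n, (i ∈ c ↔ i ∈ c') := by
    intro c c' n n' h
    have h1 := Encodable.encode_injective h
    obtain rfl : n = n' := congrArg Prod.fst h1
    refine ⟨rfl, fun i hi => ?_⟩
    have h2 : (Finset.range n).filter (· ∈ c) = (Finset.range n).filter (· ∈ c') :=
      congrArg Prod.snd h1
    have := Finset.ext_iff.1 h2 i
    simpa [hi] using this
  refine ⟨fun A c => range fun n => Nat.nth (· ∈ A) (u c n), fun A hA => ⟨?_, ?_, ?_⟩⟩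
  · rintro c _ ⟨n, rfl⟩
    exact Nat.nth_mem_of_infinite hA _
  · intro c
    exact infinite_range_of_injective fun n n' h => (hu c c n n' (Nat.nth_injective hA h)).1
  · intro c c' hne
    obtain ⟨i, hi⟩ : ∃ i, ¬ (i ∈ c ↔ i ∈ c') := by
      by_contra h
      push Not at h
      exact hne (Set.ext h)
    refine ((finite_Iic i).image fun n => Nat.nth (· ∈ A) (u c n)).subset ?_
    rintro _ ⟨⟨n, rfl⟩, n', h⟩
    refine ⟨n, mem_Iic.2 (not_lt.1 fun h' => hi ?_), rfl⟩
    exact (hu c c' n n' (Nat.nth_injective hA h.symm)).2 i h'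

/-- Under the continuum hypothesis there is a continuous map of the remainder onto itself without
continuous local sections. -/
theorem exists_map (hCH : Cardinal.aleph 1 = Cardinal.continuum.{0}) :
    ∃ φ : C(X, X), Function.Surjective φ ∧ ∀ A : Set ℕ, A.Infinite →
      ∀ s : {x : X | x.1 ∈ closure ((stoneCechUnit : ℕ → B) '' A)} → X, Continuous s →
        ¬ ∀ a ⊆ A, ∀ y, (∀ᶠ n in tr y.1.1, n ∈ a) → ∀ᶠ n in tr (φ (s y)).1, n ∈ a := by
  classical
  obtain ⟨a, ha⟩ := exists_ad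
  let x : X → ((ℕ → Bool) ⊕ Set ℕ) → Bool := fun q j => Sum.elim (fun f => ex f q.1)
    (fun A => decide (∃ c, (a A c \ c).Infinite ∧ ∀ᶠ n in tr q.1, n ∈ a A c)) j
  obtain ⟨q0, hq0, -⟩ := exists_pt (P := fun _ => True) (Frequently.of_forall fun _ => trivial)
  obtain ⟨E, hE⟩ := parov (J := (ℕ → Bool) ⊕ Set ℕ) (by rw [hCH]; simp) (range x)
    ⟨_, ⟨q0, hq0⟩, rfl⟩
  have h1 : ∀ (p : X) (t : Finset ((ℕ → Bool) ⊕ Set ℕ)), ∃ q, ∀ j ∈ t, x q j = ex (E j) p.1 := by
    intro p t
    obtain ⟨_, ⟨q, rfl⟩, hq⟩ := (hE t fun j => ex (E j) p.1).2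
      (((eventually_all_finset t).2 fun j _ => ev_ex (E j) p.1).frequently.filter_mono (tr_le p.2))
    exact ⟨q, hq⟩
  let ι : X → (ℕ → Bool) → Bool := fun q f => ex f q.1
  have hι : IsClosedEmbedding ι :=
    (continuous_pi fun f => (cont_ex f).comp continuous_subtype_val).isClosedEmbedding
      fun p q h => Subtype.ext (ex_inj (congrFun h))
  have h2 : ∀ p : X, ∃ q, ι q = fun f => ex (E (Sum.inl f)) p.1 := by
    intro p
    refine hι.isClosed_range.closure_subset (mem_closure_iff.2 fun O hO hp => ?_)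
    obtain ⟨I, u, hu, huO⟩ := isOpen_pi_iff.1 hO _ hp
    obtain ⟨q, hq⟩ := h1 p (I.image Sum.inl)
    refine ⟨ι q, huO fun f hf => ?_, q, rfl⟩
    have : ι q f = ex (E (Sum.inl f)) p.1 := hq _ (Finset.mem_image_of_mem _ hf)
    rw [this]
    exact (hu f hf).2
  choose φ hφ using h2
  have hφc : Continuous φ := by
    rw [hι.isInducing.continuous_iff]
    have : ι ∘ φ = fun p f => ex (E (Sum.inl f)) p.1 := funext hφ
    rw [this]
    exact continuous_pi fun f => (cont_ex _).comp continuous_subtype_val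
  refine ⟨⟨φ, hφc⟩, fun q => ?_, fun A hA s hs hcon => ?_⟩
  · have : ι q ∈ range (ι ∘ φ) := by
      refine (isCompact_range (hι.continuous.comp hφc)).isClosed.closure_subset
        (mem_closure_iff.2 fun O hO hq => ?_)
      obtain ⟨I, u, hu, huO⟩ := isOpen_pi_iff.1 hO _ hq
      obtain ⟨p, hp, hp2⟩ := exists_pt ((hE (I.image Sum.inl) (x q)).1 ⟨_, ⟨q, rfl⟩, fun _ _ => rfl⟩)
      refine ⟨ι (φ ⟨p, hp⟩), huO fun f hf => ?_, ⟨p, hp⟩, rfl⟩
      obtain ⟨n, h3, h4⟩ := (hp2.and (ev_ex (E (Sum.inl f)) p)).exists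
      have : ι (φ ⟨p, hp⟩) f = ι q f := by
        rw [hφ]
        exact h4.symm.trans (h3 _ (Finset.mem_image_of_mem _ hf))
      rw [this]
      exact (hu f hf).2
    obtain ⟨p, hp⟩ := this
    exact ⟨p, hι.injective hp⟩
  obtain ⟨ha1, ha2, ha3⟩ := ha A hA
  -- the value of the new coordinate over the members of the almost disjoint family
  have h3 : ∀ c (p : X), (∀ᶠ n in tr (φ p).1, n ∈ a A c) →
      (ex (E (Sum.inr A)) p.1 = true ↔ (a A c \ c).Infinite) := by
    intro c p hp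
    let f : ℕ → Bool := fun n => decide (n ∈ a A c)
    obtain ⟨q, hq⟩ := h1 p {Sum.inl f, Sum.inr A}
    have h4 : ex f q.1 = ex f (φ p).1 := (hq (Sum.inl f) (by simp)).trans (congrFun (hφ p) f).symm
    have h5 : ∀ᶠ n in tr q.1, n ∈ a A c := by
      obtain ⟨m, h6, h7⟩ := (hp.and (ev_ex f (φ p).1)).exists
      filter_upwards [ev_ex f q.1] with n hn
      rw [h4, ← h7] at hn
      simpa [f, h6] using hn
    rw [← hq (Sum.inr A) (by simp)]
    simp only [x, Sum.elim_inr, decide_eq_true_eq]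
    refine ⟨fun ⟨c', h6, h7⟩ => ?_, fun h => ⟨c, h, h5⟩⟩
    by_cases hcc : c' = c
    · exact hcc ▸ h6
    · have h8 := tr_le q.2 (Nat.cofinite_eq_atTop ▸ (ha3 c' c hcc).compl_mem_cofinite)
      obtain ⟨n, h9, h10⟩ := ((h7.and h5).and h8).exists
      exact absurd h9 h10
  haveI : CompactSpace {x : X | x.1 ∈ closure ((stoneCechUnit : ℕ → B) '' A)} :=
    isCompact_iff_compactSpace.1 (isClosed_closure.preimage continuous_subtype_val).isCompact
  let g : {x : X | x.1 ∈ closure ((stoneCechUnit : ℕ → B) '' A)} → Bool :=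
    fun y => ex (E (Sum.inr A)) (s y).1
  have hg : Continuous g := (cont_ex _).comp (continuous_subtype_val.comp hs)
  have hv : Continuous fun y : {x : X | x.1 ∈ closure ((stoneCechUnit : ℕ → B) '' A)} => y.1.1 :=
    continuous_subtype_val.comp continuous_subtype_val
  obtain ⟨U, V, hU, hV, hU', hV', hUV⟩ := SeparatedNhds.of_isCompact_isCompact
    (((isClosed_singleton (x := true)).preimage hg).isCompact.image hv)
    (((isClosed_singleton (x := false)).preimage hg).isCompact.image hv) (by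
      rw [disjoint_left]
      rintro _ ⟨y, hy, rfl⟩ ⟨y', hy', h⟩
      have : y' = y := Subtype.ext (Subtype.ext h)
      rw [this] at hy'
      exact Bool.noConfusion ((mem_singleton_iff.1 hy).symm.trans hy'))
  obtain ⟨h5, h6⟩ := sep_open hU hV hUV
  let c : Set ℕ := {n | stoneCechUnit n ∈ U}
  have h7 : ∀ b ⊆ a A c, b.Infinite → ∃ y, (∀ᶠ n in tr y.1.1, n ∈ b) ∧
      (g y = true ↔ (a A c \ c).Infinite) := by
    intro b hb hb'
    obtain ⟨p, hp, hp'⟩ := exists_pt (Nat.frequently_atTop_iff_infinite.2 hb')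
    refine ⟨⟨⟨p, hp⟩, mem_cl.2 (hp'.mono fun n hn => ha1 c (hb hn)).frequently⟩, hp', ?_⟩
    exact h3 c _ (hcon _ (ha1 c) _ (hp'.mono fun n hn => hb hn))
  by_cases hc : (a A c \ c).Infinite
  · obtain ⟨y, h8, h9⟩ := h7 _ diff_subset hc
    obtain ⟨n, h10, h11⟩ := (h8.and (h5 _ (hU' ⟨y, h9.2 hc, rfl⟩))).exists
    exact h10.2 h11
  · obtain ⟨y, h8, h9⟩ := h7 _ diff_subset ((ha2 c).diff (not_infinite.1 hc))
    obtain ⟨n, h10, h11⟩ := (h8.and (h6 _ (hV' ⟨y, by simpa [hc] using h9, rfl⟩))).exists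
    exact h10.2 ⟨h10.1, h11⟩

end Pool.Agent.H146Z.Pv
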