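import Pool.Agent.Helper647.MM.NegSide

/-! The Parovicenko recursion: every set of points of `2 ^ ω₁` is, up to closure, the set of the
limit points of a sequence. -/

set_option autoImplicit false
set_option linter.all false

open Set Filter

namespace Pool.Agent.H146Z.Pv

open Pool.Agent.Helper647.GR.ForceCH (Om)
open Pool.Agent.Helper647.MM (countable_Iio countable_Iic exists_rec mk_Om)

theorem step (K : Set (Om → Bool)) (x0 : Om → Bool) (hx0 : x0 ∈ K) (a : Om) (f : Om → ℕ → Bool)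
    (hf : ∀ (t : Finset Om) (σ : Om → Bool), (∀ b ∈ t, b < a) →
      ((∃ x ∈ K, ∀ b ∈ t, x b = σ b) ↔ ∃ᶠ n in atTop, ∀ b ∈ t, f b n = σ b)) :
    ∃ r : ℕ → Bool, ∀ (t : Finset Om) (σ : Om → Bool), (∀ b ∈ t, b ≤ a) →
      ((∃ x ∈ K, ∀ b ∈ t, x b = σ b) ↔
        ∃ᶠ n in atTop, ∀ b ∈ t, Function.update f a r b n = σ b) := by
  classical
  obtain ⟨g, hg⟩ := (countable_Iic a).exists_eq_range ⟨a, le_refl a⟩
  let T : ℕ → Finset Om := fun k => ((Finset.range k).image g).filter (· < a)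
  have hT1 : ∀ k, ∀ b ∈ T k, b < a := fun k b hb => (Finset.mem_filter.1 hb).2
  have hT2 : Monotone T := fun k k' hk =>
    Finset.filter_subset_filter _ (Finset.image_subset_image (Finset.range_mono hk))
  have hT3 : ∀ t : Finset Om, (∀ b ∈ t, b ≤ a) → ∃ k, ∀ b ∈ t, b ≠ a → b ∈ T k := by
    intro t ht
    have h1 : ∀ b, ∃ i, b ≤ a → g i = b := by
      intro b
      by_cases hb : b ≤ a
      · obtain ⟨i, hi⟩ : b ∈ range g := hg ▸ hb
        exact ⟨i, fun _ => hi⟩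
      · exact ⟨0, fun h => absurd h hb⟩
    choose i hi using h1
    refine ⟨t.sup i + 1, fun b hb hba => Finset.mem_filter.2 ⟨Finset.mem_image.2
      ⟨i b, Finset.mem_range.2 (Nat.lt_succ_of_le (Finset.le_sup hb)), hi b (ht b hb)⟩,
      lt_of_le_of_ne (ht b hb) hba⟩⟩
  -- a countable dense set
  obtain ⟨d, hd1, hd2⟩ : ∃ d : ℕ → Om → Bool, (∀ i, d i ∈ K) ∧
      ∀ k, ∀ x ∈ K, ∃ i, ∀ b ∈ insert a (T k), d i b = x b := by
    have h1 : ∀ (k : ℕ) (y : (insert a (T k) : Finset Om) → Bool), ∃ x ∈ K,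
        (∃ x ∈ K, ∀ b, x b.1 = y b) → ∀ b, x b.1 = y b := by
      intro k y
      by_cases h : ∃ x ∈ K, ∀ b : (insert a (T k) : Finset Om), x b.1 = y b
      · obtain ⟨x, hx, h⟩ := h
        exact ⟨x, hx, fun _ => h⟩
      · exact ⟨x0, hx0, fun h' => absurd h' h⟩
    choose w hw1 hw2 using h1
    obtain ⟨d, hd⟩ := (countable_iUnion fun k => countable_range (w k)).exists_eq_range
      ⟨w 0 fun _ => true, mem_iUnion.2 ⟨0, _, rfl⟩⟩
    refine ⟨d, fun i => ?_, fun k x hx => ?_⟩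
    · have : d i ∈ ⋃ k, range (w k) := hd ▸ mem_range_self i
      obtain ⟨k, y, hy⟩ := mem_iUnion.1 this
      exact hy ▸ hw1 k y
    · obtain ⟨i, hi⟩ : w k (fun b => x b.1) ∈ range d := hd ▸ mem_iUnion.2 ⟨k, _, rfl⟩
      exact ⟨i, fun b hb => hi ▸ hw2 k _ ⟨x, hx, fun _ => rfl⟩ ⟨b, hb⟩⟩
  obtain ⟨φ, hφ, hφ2⟩ := extraction_forall_of_frequently
    (P := fun j n => ∀ b ∈ T j, f b n = d j.unpair.1 b)
    (fun j => (hf (T j) _ (hT1 j)).1 ⟨_, hd1 _, fun _ _ => rfl⟩)
  -- the default points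
  have hev : ∀ k, ∀ᶠ n in atTop, ∃ x ∈ K, ∀ b ∈ T k, x b = f b n := by
    intro k
    have h1 : ∀ y : T k → Bool, ∀ᶠ n in atTop,
        (∀ b : T k, f b.1 n = y b) → ∃ x ∈ K, ∀ b ∈ T k, x b = f b n := by
      intro y
      let σ : Om → Bool := fun b => if h : b ∈ T k then y ⟨b, h⟩ else true
      by_cases h : ∃ x ∈ K, ∀ b ∈ T k, x b = σ b
      · obtain ⟨x, hx, h⟩ := h
        refine Eventually.of_forall fun n hn => ⟨x, hx, fun b hb => ?_⟩
        rw [h b hb, hn ⟨b, hb⟩]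
        exact dif_pos hb
      · rw [hf _ _ (hT1 k), not_frequently] at h
        refine h.mono fun n hn hn' => absurd (fun b hb => ?_) hn
        rw [hn' ⟨b, hb⟩]
        simp only [σ, dif_pos hb]
    filter_upwards [eventually_all.2 h1] with n hn
    exact hn (fun b => f b.1 n) fun _ => rfl
  have h0 : ∀ n, ∃ x ∈ K, ∀ b ∈ T (Nat.findGreatest
      (fun k => ∃ x ∈ K, ∀ b ∈ T k, x b = f b n) n), x b = f b n := fun n =>
    Nat.findGreatest_spec (P := fun k => ∃ x ∈ K, ∀ b ∈ T k, x b = f b n) (Nat.zero_le n)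
      ⟨x0, hx0, by simp [T]⟩
  choose z hz1 hz2 using h0
  let z' : ℕ → Om → Bool := fun n => if h : ∃ j, φ j = n then d h.choose.unpair.1 else z n
  have hz'φ : ∀ j, z' (φ j) = d j.unpair.1 := by
    intro j
    have h : ∃ i, φ i = φ j := ⟨j, rfl⟩
    simp only [z', dif_pos h]
    rw [hφ.injective h.choose_spec]
  have hz'K : ∀ n, z' n ∈ K := by
    intro n
    by_cases h : ∃ j, φ j = n
    · obtain ⟨j, rfl⟩ := h
      rw [hz'φ]; exact hd1 _
    · simp only [z', dif_neg h]; exact hz1 n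
  have hz'T : ∀ k, ∀ᶠ n in atTop, ∀ b ∈ T k, z' n b = f b n := by
    intro k
    filter_upwards [hev k, eventually_ge_atTop k, eventually_ge_atTop (φ k)] with n h1 h2 h3 b hb
    by_cases h : ∃ j, φ j = n
    · obtain ⟨j, rfl⟩ := h
      rw [hz'φ]
      exact (hφ2 j b (hT2 (hφ.le_iff_le.1 h3) hb)).symm
    · simp only [z', dif_neg h]
      exact hz2 n b (hT2 (Nat.le_findGreatest h2 h1) hb)
  refine ⟨fun n => z' n a, fun t σ ht => ?_⟩
  obtain ⟨k, hk⟩ := hT3 t ht
  constructor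
  · rintro ⟨x, hx, hxσ⟩
    obtain ⟨i, hi⟩ := hd2 k x hx
    rw [frequently_atTop]
    intro N
    have h1 : max k N ≤ Nat.pair i (max k N) := Nat.right_le_pair _ _
    refine ⟨φ (Nat.pair i (max k N)), ((le_max_right _ _).trans h1).trans (hφ.id_le _),
      fun b hb => ?_⟩
    by_cases hba : b = a
    · subst hba
      rw [Function.update_self, hz'φ, Nat.unpair_pair, hi b (Finset.mem_insert_self _ _)]
      exact hxσ b hb
    · rw [Function.update_of_ne hba, hφ2 _ b (hT2 ((le_max_left _ _).trans h1) (hk b hb hba)),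
        Nat.unpair_pair, hi b (Finset.mem_insert_of_mem (hk b hb hba))]
      exact hxσ b hb
  · intro h
    obtain ⟨n, h1, h2⟩ := (h.and_eventually (hz'T k)).exists
    refine ⟨z' n, hz'K n, fun b hb => ?_⟩
    rw [← h1 b hb]
    by_cases hba : b = a
    · subst hba
      rw [Function.update_self]
    · rw [Function.update_of_ne hba]
      exact h2 b (hk b hb hba)

theorem parov_Om (K : Set (Om → Bool)) (hK : K.Nonempty) : ∃ E : Om → ℕ → Bool,
    ∀ (t : Finset Om) (σ : Om → Bool),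
      (∃ x ∈ K, ∀ b ∈ t, x b = σ b) ↔ ∃ᶠ n in atTop, ∀ b ∈ t, E b n = σ b := by
  classical
  obtain ⟨x0, hx0⟩ := hK
  have fin : ∀ (f : Om → ℕ → Bool) (t : Finset Om) (σ : Om → Bool),
      (∀ a ∈ t, ∀ (t : Finset Om) (σ : Om → Bool), (∀ b ∈ t, b ≤ a) →
        ((∃ x ∈ K, ∀ b ∈ t, x b = σ b) ↔
          ∃ᶠ n in atTop, ∀ b ∈ t, Function.update f a (f a) b n = σ b)) →
      ((∃ x ∈ K, ∀ b ∈ t, x b = σ b) ↔ ∃ᶠ n in atTop, ∀ b ∈ t, f b n = σ b) := by
    intro f t σ h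
    rcases t.eq_empty_or_nonempty with rfl | hne
    · exact ⟨fun _ => Frequently.of_forall (by simp), fun _ => ⟨x0, hx0, by simp⟩⟩
    · have := h (t.max' hne) (t.max'_mem hne) t σ (t.le_max' ·)
      rwa [Function.update_eq_self] at this
  obtain ⟨E, hE⟩ := exists_rec (R := ℕ → Bool)
    (fun a f r => ∀ (t : Finset Om) (σ : Om → Bool), (∀ b ∈ t, b ≤ a) →
      ((∃ x ∈ K, ∀ b ∈ t, x b = σ b) ↔
        ∃ᶠ n in atTop, ∀ b ∈ t, Function.update f a r b n = σ b)) (by
      intro a f f' r hff h t σ ht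
      rw [h t σ ht]
      refine frequently_congr (Eventually.of_forall fun n => forall₂_congr fun b hb => ?_)
      by_cases hba : b = a
      · subst hba
        rw [Function.update_self, Function.update_self]
      · rw [Function.update_of_ne hba, Function.update_of_ne hba,
          hff b (lt_of_le_of_ne (ht b hb) hba)]) (by
      intro a f h
      exact step K x0 hx0 a f fun t σ ht => fin f t σ fun b hb => h b (ht b hb))
  exact ⟨E, fun t σ => fin E t σ fun a _ => hE a⟩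

theorem parov {J : Type} (hJ : Cardinal.mk J = Cardinal.aleph 1) (K : Set (J → Bool))
    (hK : K.Nonempty) : ∃ E : J → ℕ → Bool, ∀ (t : Finset J) (σ : J → Bool),
      (∃ x ∈ K, ∀ b ∈ t, x b = σ b) ↔ ∃ᶠ n in atTop, ∀ b ∈ t, E b n = σ b := by
  obtain ⟨e⟩ : Nonempty (J ≃ Om) := Cardinal.eq.1 (hJ.trans mk_Om.symm)
  obtain ⟨E, hE⟩ := parov_Om ((fun x : J → Bool => x ∘ e.symm) '' K) (hK.image _)
  refine ⟨fun j => E (e j), fun t σ => ?_⟩
  have := hE (t.map e.toEmbedding) (σ ∘ e.symm)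
  simpa [Finset.forall_mem_map, -Finset.mem_map_equiv] using this

end Pool.Agent.H146Z.Pv
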