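import Pool.Agent.H318Z.MA.Defs

/-!
Sokolov spaces, point-finite cellularity of `C_p(X)`, and Jensen's diamond.
-/

set_option autoImplicit false

namespace Pool.Agent.H146Z.Sk

open Pool.Agent.Helper292.ForceCH

/-- `C` is closed and unbounded in `ω₁` (the statement named by `IsClubName`). -/
def IsClub (C : Set Om) : Prop :=
  (∀ a : Om, ∃ b : Om, a < b ∧ b ∈ C) ∧
    ∀ a : Om, (∃ b, b < a) → (∀ b : Om, b < a → ∃ c : Om, (b < c ∧ c < a) ∧ c ∈ C) → a ∈ C

/-- Jensen's diamond (the statement named by `DiamondHolds`). -/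
def Diamond : Prop :=
  ∃ A : Om → Set Om, ∀ S C : Set Om, IsClub C → ∃ a : Om, a ∈ C ∧ ∀ b : Om, b < a → (b ∈ S ↔ b ∈ A a)

/-- `X` is a Sokolov space: for closed sets `F n ⊆ X ^ n` there is a continuous `f : X → X` whose
image has a countable network and with `f ^ n (F n) ⊆ F n` for all `n`. -/
def Sokolov (X : Type) [TopologicalSpace X] : Prop :=
  ∀ F : (n : ℕ) → Set (Fin n → X), (∀ n, IsClosed (F n)) →
    ∃ f : X → X, Continuous f ∧
      (∃ 𝒩 : Set (Set X), 𝒩.Countable ∧ (∀ N ∈ 𝒩, N ⊆ Set.range f) ∧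
        ∀ x ∈ Set.range f, ∀ V : Set X, IsOpen V → x ∈ V → ∃ N ∈ 𝒩, x ∈ N ∧ N ⊆ V) ∧
      ∀ n, ∀ x ∈ F n, (fun i => f (x i)) ∈ F n

/-- `p (Z) ≤ ω`: every point-finite family of nonempty open subsets of `Z` is countable. -/
def CountablePF (Z : Type) [TopologicalSpace Z] : Prop :=
  ∀ 𝒰 : Set (Set Z), (∀ U ∈ 𝒰, IsOpen U ∧ U.Nonempty) →
    (∀ g : Z, {U | U ∈ 𝒰 ∧ g ∈ U}.Finite) → 𝒰.Countable

/-- The positive answer: every Sokolov compact space `X` with `p (C_p (X)) = ω` is metrizable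
(`C_p (X)` is the subspace of the continuous functions in the product `X → ℝ`). -/
def Answer : Prop :=
  ∀ (X : Type) [TopologicalSpace X] [CompactSpace X] [T2Space X],
    Sokolov X → CountablePF {g : X → ℝ // Continuous g} → TopologicalSpace.MetrizableSpace X

end Pool.Agent.H146Z.Sk
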