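import Pool.Agent.H146Z.SkSpace

set_option autoImplicit false
set_option linter.all false

open Set Topology Filter Cardinal OnePoint

namespace Pool.Agent.H146Z.Sk

open Pool.Agent.Helper292.ForceCH (Om)
open Pool.Agent.Helper647.MM (countable_Iio countable_Iic bdd_of_countable exists_rec mk_Om
  exists_gt_Om U countable_below club_closure exists_cyl thin exists_enc IsClubS)

/-- a ladder of tuples which are members of `G` and climb up to `a` -/
structure Good (G : Set (Finset (ℕ × U))) (a : Om) (E : Finset ℕ) (u : ℕ → ℕ → U) : Prop where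
  mem : ∀ k, E.image (fun j => (j, u k j)) ∈ G
  inj : ∀ k, ∀ j ∈ E, ∀ j' ∈ E, u k j = u k j' → j = j'
  mono : ∀ k k', k < k' → ∀ j ∈ E, ∀ j' ∈ E, (u k j).1 < (u k' j').1
  lt : ∀ k, ∀ j ∈ E, (u k j).1 < a
  cof : ∀ γ < a, ∃ k, ∀ j ∈ E, γ ≤ (u k j).1

theorem fin_bdd (s : Finset Om) (c c0 : Om) (h0 : c0 < c) (h : ∀ x ∈ s, x < c) :
    ∃ β < c, ∀ x ∈ s, x ≤ β := by
  classical
  induction s using Finset.induction_on with
  | empty => exact ⟨c0, h0, by simp⟩
  | insert v s hv ih =>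
    obtain ⟨β, hβ, hβ2⟩ := ih fun x hx => h x (Finset.mem_insert_of_mem hx)
    refine ⟨max β v, max_lt hβ (h v (Finset.mem_insert_self _ _)), fun x hx => ?_⟩
    rcases Finset.mem_insert.1 hx with rfl | hx
    · exact le_max_right _ _
    · exact (hβ2 x hx).trans (le_max_left _ _)

theorem exists_data (G : Om → Set (Finset (ℕ × U))) : ∃ D : Data,
    (∀ y, D.act y → (G y.1).Nonempty) ∧
    ∀ a, (∃ E u, Good (G a) a E u) → ∃ E u, Good (G a) a E u ∧
      ∀ j ∈ E, D.act (a, j) ∧ ∀ k, D.z (a, j) k = u (k + 1) j := by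
  classical
  have h1 : ∀ a, ∃ (E : Finset ℕ) (u : ℕ → ℕ → U), (∃ E u, Good (G a) a E u) →
      Good (G a) a E u := by
    intro a
    by_cases h : ∃ E u, Good (G a) a E u
    · obtain ⟨E, u, h⟩ := h
      exact ⟨E, u, fun _ => h⟩
    · exact ⟨∅, fun _ _ => (a, 0), fun h' => absurd h' h⟩
  choose E u hg using h1
  have h2 : ∀ (y : U) (k : ℕ), ∃ β, Good (G y.1) y.1 (E y.1) (u y.1) → y.2 ∈ E y.1 →
      β < (u y.1 (k + 1) y.2).1 ∧ (∀ j ∈ E y.1, (u y.1 k j).1 ≤ β) ∧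
      ∀ j ∈ E y.1, (u y.1 (k + 1) j).1 < (u y.1 (k + 1) y.2).1 → (u y.1 (k + 1) j).1 ≤ β := by
    intro y k
    by_cases h : Good (G y.1) y.1 (E y.1) (u y.1) ∧ y.2 ∈ E y.1
    · obtain ⟨β, hβ, hβ2⟩ := fin_bdd ((E y.1).image (fun j => (u y.1 k j).1) ∪
        ((E y.1).filter fun j => (u y.1 (k + 1) j).1 < (u y.1 (k + 1) y.2).1).image
          (fun j => (u y.1 (k + 1) j).1)) (u y.1 (k + 1) y.2).1 (u y.1 k y.2).1
          (h.1.mono k (k + 1) (Nat.lt_succ_self k) _ h.2 _ h.2) (by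
        intro x hx
        rcases Finset.mem_union.1 hx with hx | hx
        · obtain ⟨j, hj, rfl⟩ := Finset.mem_image.1 hx
          exact h.1.mono k (k + 1) (Nat.lt_succ_self k) _ hj _ h.2
        · obtain ⟨j, hj, rfl⟩ := Finset.mem_image.1 hx
          exact (Finset.mem_filter.1 hj).2)
      refine ⟨β, fun _ _ => ⟨hβ, fun j hj => hβ2 _ ?_, fun j hj hj' => hβ2 _ ?_⟩⟩
      · exact Finset.mem_union_left _ (Finset.mem_image.2 ⟨j, hj, rfl⟩)
      · exact Finset.mem_union_right _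
          (Finset.mem_image.2 ⟨j, Finset.mem_filter.2 ⟨hj, hj'⟩, rfl⟩)
    · exact ⟨y.1, fun h1 h2 => absurd ⟨h1, h2⟩ h⟩
  choose b hb using h2
  refine ⟨⟨fun y => Good (G y.1) y.1 (E y.1) (u y.1) ∧ y.2 ∈ E y.1,
    fun y k => u y.1 (k + 1) y.2, b, fun y k h => h.1.lt _ _ h.2, ?_,
    fun y k h => (hb y k h.1 h.2).1, ?_⟩, fun y h => ⟨_, h.1.mem 0⟩,
    fun a ha => ⟨E a, u a, hg a ha, fun j hj => ⟨⟨hg a ha, hj⟩, fun k => rfl⟩⟩⟩
  · intro y h γ hγ
    obtain ⟨m, hm⟩ := h.1.cof γ hγ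
    refine ⟨m, fun k hk => (hm _ h.2).trans (le_trans ?_ ((hb y k h.1 h.2).2.1 _ h.2))⟩
    rcases hk.lt_or_eq with hk | hk
    · exact (h.1.mono m k hk _ h.2 _ h.2).le
    · rw [hk]
  · rintro ⟨a, j⟩ ⟨a', j'⟩ k k' h h' haa hne γ h1 h2 h3 h4
    obtain rfl : a = a' := haa
    have hjj : j ≠ j' := fun e => hne (by rw [e])
    have key : ∀ (j j' : ℕ) (k k' : ℕ), j ∈ E a → j' ∈ E a → k < k' →
        (u a (k + 1) j).1 ≤ b (a, j') k' := by
      intro j j' k k' hj hj' hk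
      refine le_trans ?_ ((hb (a, j') k' h.1 hj').2.1 j hj)
      rcases (Nat.succ_le_of_lt hk).lt_or_eq with hk | hk
      · exact (h.1.mono _ _ hk _ hj _ hj).le
      · rw [← hk]
    rcases lt_trichotomy k k' with hk | hk | hk
    · exact absurd (h2.trans (key j j' k k' h.2 h'.2 hk)) (not_le.2 h3)
    · subst hk
      refine ⟨?_, fun e => hjj (h.1.inj _ _ h.2 _ h'.2 e)⟩
      rcases lt_trichotomy (u a (k + 1) j).1 (u a (k + 1) j').1 with hl | hl | hl
      · exact absurd (h2.trans ((hb (a, j') k h.1 h'.2).2.2 j h.2 hl)) (not_le.2 h3)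
      · exact hl
      · exact absurd (h4.trans ((hb (a, j) k h.1 h.2).2.2 j' h'.2 hl)) (not_le.2 h1)
    · exact absurd (h4.trans (key j' j k' k h'.2 h.2 hk)) (not_le.2 h1)

/-- a function which is constant near finitely many points -/
theorem exists_locconst {X : Type} [TopologicalSpace X] [CompactSpace X] [T2Space X] (n : ℕ)
    (z : ℕ → X) (q : ℕ → ℝ) (hz : ∀ i < n, ∀ j < n, z i = z j → i = j) :
    ∃ g : C(X, ℝ), ∀ j < n, ∀ᶠ y in 𝓝 (z j), g y = q j := by
  have h1 : ∀ j, ∃ φ : C(X, ℝ), j < n → (∀ᶠ y in 𝓝 (z j), φ y = 1) ∧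
      ∀ i < n, i ≠ j → ∀ᶠ y in 𝓝 (z i), φ y = 0 := by
    intro j
    by_cases hj : j < n
    swap
    · exact ⟨0, fun h => absurd h hj⟩
    obtain ⟨ψ, h0, h1, -⟩ := exists_continuous_zero_one_of_isClosed
      (s := z '' {i | i < n ∧ i ≠ j}) (t := {z j})
      (((finite_Iio n).subset fun i hi => hi.1).image z).isClosed isClosed_singleton (by
        rw [disjoint_singleton_right]
        rintro ⟨i, hi, hij⟩
        exact hi.2 (hz i hi.1 j hj hij))
    refine ⟨⟨fun y => max 0 (min 1 (3 * ψ y - 1)), by fun_prop⟩, fun _ => ⟨?_, fun i hi hij => ?_⟩⟩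
    · have : ∀ᶠ y in 𝓝 (z j), 2 / 3 < ψ y :=
        ψ.continuous.continuousAt.eventually (lt_mem_nhds (by rw [h1 rfl]; norm_num))
      filter_upwards [this] with y hy
      show max 0 (min 1 (3 * ψ y - 1)) = 1
      rw [min_eq_left (by linarith)]
      norm_num
    · have : ∀ᶠ y in 𝓝 (z i), ψ y < 1 / 3 :=
        ψ.continuous.continuousAt.eventually (gt_mem_nhds (by
          rw [h0 ⟨i, ⟨hi, hij⟩, rfl⟩]; norm_num))
      filter_upwards [this] with y hy
      show max 0 (min 1 (3 * ψ y - 1)) = 0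
      exact max_eq_left ((min_le_right _ _).trans (by linarith))
  choose φ hφ using h1
  refine ⟨∑ i ∈ Finset.range n, q i • φ i, fun j hj => ?_⟩
  have h2 : ∀ᶠ y in 𝓝 (z j), ∀ i ∈ Finset.range n, i ≠ j → φ i y = 0 := by
    rw [eventually_all_finset]
    intro i hi
    by_cases hij : i = j
    · exact Eventually.of_forall fun _ h => absurd hij h
    · exact ((hφ i (Finset.mem_range.1 hi)).2 j hj (Ne.symm hij)).mono fun _ h _ => h
  filter_upwards [h2, (hφ j hj).1] with y hy1 hy2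
  simp only [ContinuousMap.coe_sum, Finset.sum_apply, ContinuousMap.coe_smul, Pi.smul_apply,
    smul_eq_mul]
  rw [Finset.sum_eq_single j (fun i hi hij => by rw [hy1 i hi hij, mul_zero])
    (fun h => absurd (Finset.mem_range.2 hj) h), hy2, mul_one]

theorem cpfc (A : Om → Set Om)
    (hA : ∀ S C : Set Om, IsClubS C → ∃ a : Om, a ∈ C ∧ ∀ b : Om, b < a → (b ∈ S ↔ b ∈ A a))
    (enc : Finset (ℕ × U) → Om) (henc : Function.Injective enc) (D : Data)
    (hD : ∀ a, (∃ E u, Good {t | enc t < a ∧ enc t ∈ A a} a E u) →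
      ∃ E u, Good {t | enc t < a ∧ enc t ∈ A a} a E u ∧
        ∀ j ∈ E, D.act (a, j) ∧ ∀ k, D.z (a, j) k = u (k + 1) j) :
    Pool.Agent.Helper647.MM.CountablePointFiniteCellularity (OnePoint (Y D)) := by
  classical
  intro 𝒰 hO hF
  by_contra hunc
  have hex : ∀ W : Set C(OnePoint (Y D), ℝ), ∃ (n : ℕ) (x : ℕ → OnePoint (Y D)) (q : ℕ →₀ ℚ),
      W ∈ 𝒰 → (∀ i < n, ∀ j < n, x i = x j → i = j) ∧
      ∀ g : C(OnePoint (Y D), ℝ), (∀ j < n, g (x j) = (q j : ℝ)) → g ∈ W := by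
    intro W
    by_cases hW : W ∈ 𝒰
    · obtain ⟨n, x, q, h⟩ := exists_cyl W (hO W hW).1 (hO W hW).2
      exact ⟨n, x, q, fun _ => h⟩
    · exact ⟨0, fun _ => ∞, 0, fun h => absurd h hW⟩
  choose nn x qq hx using hex
  obtain ⟨n, q, hnq⟩ : ∃ n q, ¬ {W ∈ 𝒰 | nn W = n ∧ qq W = q}.Countable := by
    by_contra hcon
    push Not at hcon
    refine hunc ((countable_iUnion fun n => countable_iUnion fun q => hcon n q).mono ?_)
    intro W hW
    simp only [mem_iUnion]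
    exact ⟨nn W, qq W, hW, rfl, rfl⟩
  obtain ⟨S', hS'1, hS'2, hS'3⟩ := thin x _ hnq n
  let E : Finset ℕ := (Finset.range n).filter fun j => ∀ y, {α ∈ S' | x α j = y}.Countable
  have hE : ∀ j, j ∈ E ↔ j < n ∧ ∀ y, {α ∈ S' | x α j = y}.Countable := by
    intro j
    simp only [E, Finset.mem_filter, Finset.mem_range]
  let S : Set (Set C(OnePoint (Y D), ℝ)) := {α ∈ S' | ∀ j ∈ E, x α j ≠ ∞}
  have hSunc : ¬ S.Countable := by
    intro hcon
    refine hS'2 ((hcon.union (countable_iUnion fun j : E => ((hE j).1 j.2).2 ∞)).mono ?_)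
    intro α hα
    by_cases h : ∀ j ∈ E, x α j ≠ ∞
    · exact Or.inl ⟨hα, h⟩
    · push Not at h
      obtain ⟨j, hj, hj2⟩ := h
      exact Or.inr (mem_iUnion.2 ⟨⟨j, hj⟩, hα, hj2⟩)
  have hSS : ∀ α ∈ S, α ∈ 𝒰 ∧ nn α = n ∧ qq α = q := fun α hα => hS'1 hα.1
  have hSx : ∀ α ∈ S, ∀ i < n, ∀ j < n, x α i = x α j → i = j := by
    intro α hα
    have := (hx α (hSS α hα).1).1
    rwa [(hSS α hα).2.1] at this
  have hSg : ∀ α ∈ S, ∀ g : C(OnePoint (Y D), ℝ), (∀ j < n, g (x α j) = (q j : ℝ)) → g ∈ α := by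
    intro α hα
    have := (hx α (hSS α hα).1).2
    rwa [(hSS α hα).2.1, (hSS α hα).2.2] at this
  have hconst : ∀ j, ∃ y, j < n → j ∉ E → ∀ α ∈ S, x α j = y := by
    intro j
    by_cases h : j < n ∧ j ∉ E
    · rcases hS'3 j h.1 with ⟨y, hy⟩ | h'
      · exact ⟨y, fun _ _ α hα => hy α hα.1⟩
      · exact absurd ((hE j).2 ⟨h.1, h'⟩) h.2
    · exact ⟨∞, fun h1 h2 => absurd ⟨h1, h2⟩ h⟩
  choose y hy using hconst
  have hu : ∀ (α : Set C(OnePoint (Y D), ℝ)) (j : ℕ), ∃ u : Y D, α ∈ S → j ∈ E → x α j = u := by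
    intro α j
    by_cases h : α ∈ S ∧ j ∈ E
    · cases h' : x α j with
      | infty => exact absurd h' (h.1.2 j h.2)
      | coe w => exact ⟨w, fun _ _ => rfl⟩
    · exact ⟨Classical.arbitrary _, fun h1 h2 => absurd ⟨h1, h2⟩ h⟩
  choose uu huu using hu
  let t : Set C(OnePoint (Y D), ℝ) → Finset (ℕ × U) := fun α => E.image fun j => (j, uu α j)
  have hesc : ∀ γ : Om, ∃ α ∈ S, ∀ j ∈ E, γ < lev (uu α j) := by
    intro γ
    by_contra hcon
    push Not at hcon
    refine hSunc (((countable_iUnion fun j : E => ((countable_below γ).biUnion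
      fun (u : Y D) _ => ((hE j).1 j.2).2 (u : OnePoint (Y D))))).mono ?_)
    intro α hα
    obtain ⟨j, hj, hpγ⟩ := hcon α hα
    exact mem_iUnion.2 ⟨⟨j, hj⟩, mem_iUnion₂.2 ⟨uu α j, hpγ, hα.1, huu α j hα hj⟩⟩
  choose αγ hαS hαγ using hesc
  have hbd : ∀ γ : Om, ∃ b : Om, γ < b ∧ enc (t (αγ γ)) < b ∧ (∀ j, lev (uu (αγ γ) j) < b) ∧
      ∀ j, (y j).elim γ lev < b := by
    intro γ
    obtain ⟨b, hb⟩ := bdd_of_countable (((countable_singleton γ).union
      (countable_singleton (enc (t (αγ γ))))).union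
      ((countable_range fun j => lev (uu (αγ γ) j)).union
        (countable_range fun j => (y j).elim γ lev)))
    exact ⟨b, hb _ (Or.inl (Or.inl rfl)), hb _ (Or.inl (Or.inr rfl)),
      fun j => hb _ (Or.inr (Or.inl ⟨j, rfl⟩)), fun j => hb _ (Or.inr (Or.inr ⟨j, rfl⟩))⟩
  choose h hh0 hh1 hh2 hh3 using hbd
  obtain ⟨a, ⟨ha1, ha2⟩, haA⟩ := hA (enc '' (t '' S)) _ (club_closure h)
  obtain ⟨b0, hb0⟩ := ha1.1
  obtain ⟨e, he⟩ := (countable_Iio a).exists_eq_range ⟨b0, hb0⟩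
  have he1 : ∀ k, e k < a := fun k => show e k ∈ Iio a from he ▸ mem_range_self k
  let γ : ℕ → Om := fun k => Nat.rec (e 0) (fun k c => max (h c) (e (k + 1))) k
  have hγs : ∀ k, γ (k + 1) = max (h (γ k)) (e (k + 1)) := fun k => rfl
  have hγa : ∀ k, γ k < a := by
    intro k
    induction k with
    | zero => exact he1 0
    | succ k ih => rw [hγs]; exact max_lt (ha2 _ ih) (he1 _)
  have hγm : Monotone γ := monotone_nat_of_le_succ fun k => by
    rw [hγs]; exact (hh0 _).le.trans (le_max_left _ _)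
  obtain ⟨E', u, hG, hact⟩ := hD a ⟨E, fun k j => uu (αγ (γ k)) j, fun k => by
      have h1 : enc (t (αγ (γ k))) < a := (hh1 _).trans (ha2 _ (hγa k))
      exact ⟨h1, (haA _ h1).1 ⟨_, ⟨_, hαS _, rfl⟩, rfl⟩⟩, fun k j hj j' hj' hjj => by
      refine hSx _ (hαS (γ k)) j ((hE j).1 hj).1 j' ((hE j').1 hj').1 ?_
      rw [huu _ j (hαS _) hj, huu _ j' (hαS _) hj']
      exact congrArg _ hjj, fun k k' hk j hj j' hj' => by
      refine (hh2 (γ k) j).trans (lt_of_le_of_lt ?_ (hαγ (γ k') j' hj'))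
      exact le_trans (by rw [hγs]; exact le_max_left _ _) (hγm (Nat.succ_le_of_lt hk)),
      fun k j _ => (hh2 _ j).trans (ha2 _ (hγa k)), fun c hc => by
      obtain ⟨k, rfl⟩ : c ∈ range e := he ▸ hc
      refine ⟨k, fun j hj => le_trans ?_ (hαγ (γ k) j hj).le⟩
      cases k with
      | zero => exact le_rfl
      | succ k => rw [hγs]; exact le_max_right _ _⟩
  have hlα : ∀ k, ∃ α ∈ S, t α = E'.image fun j => (j, u k j) := by
    intro k
    obtain ⟨h1, h2⟩ := hG.mem k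
    obtain ⟨_, ⟨α, hα, rfl⟩, h3⟩ := (haA _ h1).2 h2
    exact ⟨α, hα, henc h3⟩
  choose αk hαk1 hαk2 using hlα
  have hEu : ∀ k, ∀ j ∈ E, j ∈ E' ∧ u k j = uu (αk k) j := by
    intro k j hj
    have : ((j, (show U from uu (αk k) j)) : ℕ × U) ∈ t (αk k) :=
      (Finset.mem_image (β := ℕ × U)).2 ⟨j, hj, rfl⟩
    rw [hαk2] at this
    obtain ⟨j', hj', h1⟩ := (Finset.mem_image (β := ℕ × U)).1 this
    obtain rfl : j' = j := congrArg Prod.fst h1
    exact ⟨hj', congrArg Prod.snd h1⟩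
  let pt : ℕ → Y D := fun j => ((a, j) : U)
  let z : ℕ → OnePoint (Y D) := fun j => if j ∈ E then (pt j : OnePoint (Y D)) else y j
  have hz : ∀ i < n, ∀ j < n, z i = z j → i = j := by
    intro i hi j hj hij
    have hyne : ∀ i j, y i ≠ pt j := by
      intro i j hcon
      have := hh3 b0 i
      rw [hcon] at this
      exact absurd (this.trans (ha2 b0 hb0)) (lt_irrefl a)
    by_cases hiE : i ∈ E <;> by_cases hjE : j ∈ E
    · simp only [z, if_pos hiE, if_pos hjE] at hij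
      exact congrArg Prod.snd (coe_injective hij)
    · simp only [z, if_pos hiE, if_neg hjE] at hij
      exact absurd hij.symm (hyne j i)
    · simp only [z, if_neg hiE, if_pos hjE] at hij
      exact absurd hij (hyne i j)
    · simp only [z, if_neg hiE, if_neg hjE] at hij
      rw [← hy i hi hiE (αk 0) (hαk1 0), ← hy j hj hjE (αk 0) (hαk1 0)] at hij
      exact hSx (αk 0) (hαk1 0) i hi j hj hij
  obtain ⟨g, hg⟩ := exists_locconst n z (fun j => (q j : ℝ)) hz
  have hfin := hF g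
  rcases E.eq_empty_or_nonempty with hEne | ⟨j0, hj0⟩
  · refine hSunc (hfin.countable.mono ?_)
    intro α hα
    refine ⟨(hSS α hα).1, hSg α hα g fun j hj => ?_⟩
    have hjE : j ∉ E := by rw [hEne]; simp
    have := (hg j hj).self_of_nhds
    simp only [z, if_neg hjE] at this
    rwa [hy j hj hjE α hα]
  have hconv : ∀ᶠ k in atTop, ∀ j ∈ Finset.range n, g (x (αk (k + 1)) j) = (q j : ℝ) := by
    rw [eventually_all_finset]
    intro j hj
    have hj' := Finset.mem_range.1 hj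
    by_cases hjE : j ∈ E
    · obtain ⟨h1, h2⟩ := hact j (hEu 0 j hjE).1
      have h3 := (continuous_coe.tendsto _).comp (tendsto_z (D := D) (pt j) h1)
      have h4 := hg j hj'
      simp only [z, if_pos hjE] at h4
      filter_upwards [h3.eventually h4] with k hk
      rw [huu _ j (hαk1 _) hjE, ← (hEu (k + 1) j hjE).2, ← h2 k]
      exact hk
    · have := (hg j hj').self_of_nhds
      simp only [z, if_neg hjE] at this
      exact Eventually.of_forall fun k => by rwa [hy j hj' hjE _ (hαk1 _)]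
  obtain ⟨m, hm⟩ := eventually_atTop.1 hconv
  have hinj : Function.Injective fun k => αk (m + k + 1) := by
    intro k k' hkk
    have h1 : u (m + k + 1) j0 = u (m + k' + 1) j0 := by
      rw [(hEu _ j0 hj0).2, (hEu _ j0 hj0).2]
      exact congrArg (fun α => uu α j0) hkk
    have hj0' := (hEu 0 j0 hj0).1
    rcases lt_trichotomy k k' with hk | hk | hk
    · exact absurd (congrArg Prod.fst h1) (hG.mono _ _ (by omega) _ hj0' _ hj0').ne
    · exact hk
    · exact absurd (congrArg Prod.fst h1) (hG.mono _ _ (by omega) _ hj0' _ hj0').ne'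
  refine infinite_of_injective_forall_mem hinj (fun k => ?_) hfin
  exact ⟨(hSS _ (hαk1 _)).1, hSg _ (hαk1 _) g fun j hj =>
    hm (m + k) (Nat.le_add_right _ _) j (Finset.mem_range.2 hj)⟩

theorem negative (hd : Diamond) : ∃ (X : Type) (_ : TopologicalSpace X), CompactSpace X ∧
    T2Space X ∧ Sokolov X ∧ CountablePF {g : X → ℝ // Continuous g} ∧
    ¬ TopologicalSpace.MetrizableSpace X := by
  obtain ⟨A, hA0⟩ := hd
  have hA : ∀ S C : Set Om, IsClubS C →
      ∃ a : Om, a ∈ C ∧ ∀ b : Om, b < a → (b ∈ S ↔ b ∈ A a) := by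
    intro S C hC
    refine hA0 S C ⟨fun b => ?_, fun a ha h => hC.2 a ha fun b hb => ?_⟩
    · obtain ⟨a, h1, h2⟩ := hC.1 b
      exact ⟨a, h2, h1⟩
    · obtain ⟨c, ⟨h1, h2⟩, h3⟩ := h b hb
      exact ⟨c, h3, h1, h2⟩
  obtain ⟨enc, henc⟩ := exists_enc
  obtain ⟨D, hD1, hD2⟩ := exists_data fun a => {t | enc t < a ∧ enc t ∈ A a}
  refine ⟨OnePoint (Y D), inferInstance, inferInstance, inferInstance, sokolov fun G => ?_,
    (cpfc_iff _).2 (cpfc A hA enc henc D hD2), not_metr⟩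
  obtain ⟨a, ⟨ha1, ha2⟩, ha3⟩ := hA ∅ _ (club_closure G)
  refine ⟨a, ha1.1, ha2, fun y hy hact => ?_⟩
  obtain ⟨s, hs1, hs2⟩ := hD1 y hact
  rw [hy] at hs1 hs2
  exact (ha3 _ hs1).2 hs2

end Pool.Agent.H146Z.Sk
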