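import Pool.Agent.H146Z.SkDefs
import Pool.Agent.Helper647.MM.PosSide
import Pool.Agent.Helper647.MM.NegSide

set_option autoImplicit false
set_option linter.all false

open Set Topology Filter Cardinal

namespace Pool.Agent.H146Z.Sk

open Pool.Agent.Helper292.ForceCH (Om)
open Pool.Agent.Helper647.FU (CTight MA1 ThinFamily)
open Pool.Agent.Helper647.MM (countable_Iio countable_Iic bdd_of_countable exists_rec mk_Om
  exists_gt_Om CountablePointFiniteCellularity)

theorem CountablePF.homeo {A B : Type} [TopologicalSpace A] [TopologicalSpace B] (e : A ≃ₜ B)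
    (h : CountablePF A) : CountablePF B := by
  intro 𝒰 hU hF
  have hinj : Function.Injective (fun U : Set B => e ⁻¹' U) :=
    preimage_injective.2 e.surjective
  have := h ((fun U : Set B => e ⁻¹' U) '' 𝒰) (by
    rintro _ ⟨U, hU', rfl⟩
    obtain ⟨ho, b, hb⟩ := hU U hU'
    exact ⟨ho.preimage e.continuous, e.symm b, by simpa using hb⟩) (by
    intro a
    refine ((hF (e a)).image (fun U : Set B => e ⁻¹' U)).subset ?_
    rintro _ ⟨⟨U, hU', rfl⟩, ha⟩
    exact ⟨U, ⟨hU', ha⟩, rfl⟩)
  exact countable_of_injective_of_countable_image hinj.injOn this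

/-- the two forms of `C_p (X)` -/
def cpHomeo (X : Type) [TopologicalSpace X] :
    @Homeomorph C(X, ℝ) {g : X → ℝ // Continuous g}
      (TopologicalSpace.induced (fun f : C(X, ℝ) => (⇑f : X → ℝ)) inferInstance) inferInstance :=
  letI : TopologicalSpace C(X, ℝ) :=
    TopologicalSpace.induced (fun f : C(X, ℝ) => (⇑f : X → ℝ)) inferInstance
  { toFun := fun f => ⟨f, f.continuous⟩
    invFun := fun g => ⟨g.1, g.2⟩
    left_inv := fun _ => rfl
    right_inv := fun _ => rfl
    continuous_toFun := Continuous.subtype_mk continuous_induced_dom _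
    continuous_invFun := continuous_induced_rng.2 continuous_subtype_val }

theorem cpfc_iff (X : Type) [TopologicalSpace X] :
    CountablePF {g : X → ℝ // Continuous g} ↔ CountablePointFiniteCellularity X := by
  letI : TopologicalSpace C(X, ℝ) :=
    TopologicalSpace.induced (fun f : C(X, ℝ) => (⇑f : X → ℝ)) inferInstance
  exact ⟨fun h => CountablePF.homeo (cpHomeo X).symm h, fun h => CountablePF.homeo (cpHomeo X) h⟩

theorem ma1 (h : H318Z.MA.MartinAxiom.{0, 0} Om) : MA1 := by
  classical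
  intro P _ _ hc 𝒟 h𝒟 hd
  have h1 : #𝒟 ≤ #Om := by rw [mk_Om]; exact h𝒟
  obtain ⟨e⟩ := h1
  let D : Om → Set P := fun k => if hk : ∃ d, e d = k then hk.choose.1 else univ
  have hD : ∀ d : 𝒟, D (e d) = d.1 := by
    intro d
    have hk : ∃ d', e d' = e d := ⟨d, rfl⟩
    simp only [D, dif_pos hk]
    rw [e.injective hk.choose_spec]
  obtain ⟨G, hG1, hG2, hG3, hG4⟩ := h P inferInstance hc D (by
    intro k x
    by_cases hk : ∃ d, e d = k
    · obtain ⟨d, rfl⟩ := hk
      rw [hD]
      obtain ⟨q, hq, hq'⟩ := hd d.1 d.2 x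
      exact ⟨q, hq, hq'⟩
    · simp only [D, dif_neg hk]
      exact ⟨x, mem_univ _, le_rfl⟩)
  refine ⟨G, hG1, fun p hp q hpq => hG2 p q ⟨hp, hpq⟩, fun p hp q hq => ?_, fun d hd' => ?_⟩
  · obtain ⟨z, hz⟩ := hG3 p q ⟨hp, hq⟩
    exact ⟨z, hz.1, hz.2⟩
  · obtain ⟨x, hx, hx'⟩ := hG4 (e ⟨d, hd'⟩)
    rw [hD] at hx'
    exact ⟨x, hx, hx'⟩

variable {X : Type} [TopologicalSpace X]

/-- one closed set -/
theorem Sokolov.one (hS : Sokolov X) (n : ℕ) (F : Set (Fin n → X)) (hF : IsClosed F) :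
    ∃ f : X → X, Continuous f ∧
      (∃ 𝒩 : Set (Set X), 𝒩.Countable ∧
        ∀ x ∈ Set.range f, ∀ V : Set X, IsOpen V → x ∈ V → ∃ N ∈ 𝒩, x ∈ N ∧ N ⊆ V) ∧
      ∀ x ∈ F, (fun i => f (x i)) ∈ F := by
  obtain ⟨f, hf, ⟨𝒩, h1, -, h2⟩, h3⟩ := hS
    (fun m => ⋂ h : n = m, (fun v : Fin m → X => fun i => v (Fin.cast h i)) ⁻¹' F) (by
      intro m
      exact isClosed_iInter fun h => hF.preimage (by fun_prop))
  refine ⟨f, hf, ⟨𝒩, h1, h2⟩, fun x hx => ?_⟩
  have := h3 n x (mem_iInter.2 fun h => hx)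
  exact mem_iInter.1 this rfl

/-- closures of countable sets have countable networks -/
theorem Sokolov.mono [T2Space X] (hS : Sokolov X) (A : Set X) (hA : A.Countable) :
    ∃ N : ℕ → Set X, ∀ x ∈ closure A, ∀ V : Set X, IsOpen V → x ∈ V → ∃ n, x ∈ N n ∧ N n ⊆ V := by
  rcases A.eq_empty_or_nonempty with rfl | hne
  · exact ⟨fun _ => ∅, by simp⟩
  obtain ⟨a, rfl⟩ := hA.exists_eq_range hne
  obtain ⟨f, hf, ⟨𝒩, h1, -, h2⟩, h3⟩ := hS (fun m => {fun i : Fin m => a i})
    (fun m => isClosed_singleton)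
  have hfa : ∀ n, f (a n) = a n := by
    intro n
    have := h3 (n + 1) _ rfl
    exact congrFun this (Fin.last n)
  have hfix : ∀ x ∈ closure (range a), f x = x := by
    intro x hx
    refine closure_minimal (t := {x | f x = x}) ?_ (isClosed_eq hf continuous_id) hx
    rintro _ ⟨n, rfl⟩
    exact hfa n
  obtain ⟨N, hN⟩ := (h1.insert ∅).exists_eq_range (insert_nonempty _ _)
  refine ⟨N, fun x hx V hV hxV => ?_⟩
  obtain ⟨M, hM, hxM, hMV⟩ := h2 x ⟨x, hfix x hx⟩ V hV hxV
  have : M ∈ range N := hN ▸ mem_insert_of_mem _ hM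
  obtain ⟨n, rfl⟩ := this
  exact ⟨n, hxM, hMV⟩

/-- no uncountable free sequences -/
theorem Sokolov.no_free [CompactSpace X] [T2Space X] (hS : Sokolov X) (x : Om → X)
    (h : ∀ a, Disjoint (closure (x '' Iio a)) (closure (x '' Ici a))) : False := by
  classical
  let K : Om → Set X := fun a => closure (x '' Iio a)
  let R : Om → Set X := fun a => closure (x '' Ici a)
  let Z : Set X := closure (range x)
  have hK : ∀ a b, a ≤ b → K a ⊆ K b := fun a b hab =>
    closure_mono (image_mono (Iio_subset_Iio hab))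
  have hR : ∀ a b, a ≤ b → R b ⊆ R a := fun a b hab =>
    closure_mono (image_mono (Ici_subset_Ici.2 hab))
  have hZ : ∀ a, Z = K a ∪ R a := by
    intro a
    simp only [Z, K, R]
    rw [← closure_union, ← image_union, Iio_union_Ici, image_univ]
  have hKZ : ∀ a, K a ⊆ Z := fun a => by rw [hZ a]; exact subset_union_left
  have hRZ : ∀ a, R a ⊆ Z := fun a => by rw [hZ a]; exact subset_union_right
  have hxR : ∀ a, x a ∈ R a := fun a => subset_closure ⟨a, self_mem_Ici, rfl⟩
  have hxK : ∀ a b, a < b → x a ∈ K b := fun a b hab => subset_closure ⟨a, hab, rfl⟩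
  have hKR : ∀ a y, y ∈ K a → y ∉ R a := fun a y h1 h2 => disjoint_left.1 (h a) h1 h2
  obtain ⟨p, hp⟩ : (⋂ a, R a).Nonempty := by
    refine IsCompact.nonempty_iInter_of_directed_nonempty_isCompact_isClosed R ?_
      (fun a => ⟨x a, hxR a⟩) (fun a => isClosed_closure.isCompact) (fun a => isClosed_closure)
    intro a b
    exact ⟨max a b, hR _ _ (le_max_left _ _), hR _ _ (le_max_right _ _)⟩
  rw [mem_iInter] at hp
  obtain ⟨b0, -, hb0⟩ := (wellFounded_lt (α := Om)).has_min univ univ_nonempty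
  let Rel : X → X → Prop := fun w z => w ∈ Z ∧ z ∈ Z ∧ ∀ a b, a < b → w ∈ R a ∨ z ∈ K b
  obtain ⟨f, hf, ⟨𝒩, hN1, hN2⟩, hF⟩ := hS.one 4
    {v | v 0 = p ∧ v 1 = x b0 ∧ Rel (v 2) (v 3)} (by
      refine (isClosed_eq (continuous_apply 0) continuous_const).inter
        ((isClosed_eq (continuous_apply 1) continuous_const).inter
        ((isClosed_closure.preimage (continuous_apply 2)).inter
        ((isClosed_closure.preimage (continuous_apply 3)).inter ?_)))
      have : {v : Fin 4 → X | ∀ a b, a < b → v 2 ∈ R a ∨ v 3 ∈ K b} =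
          ⋂ a, ⋂ b, ⋂ _ : a < b, ((fun v : Fin 4 → X => v 2) ⁻¹' R a ∪
            (fun v : Fin 4 → X => v 3) ⁻¹' K b) := by
        ext v; simp
      show IsClosed {v : Fin 4 → X | ∀ a b, a < b → v 2 ∈ R a ∨ v 3 ∈ K b}
      rw [this]
      exact isClosed_iInter fun a => isClosed_iInter fun b => isClosed_iInter fun _ =>
        (isClosed_closure.preimage (continuous_apply 2)).union
          (isClosed_closure.preimage (continuous_apply 3)))
  have hF' : ∀ w z, Rel w z → f p = p ∧ f (x b0) = x b0 ∧ Rel (f w) (f z) := by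
    intro w z hwz
    exact hF ![p, x b0, w, z] ⟨rfl, rfl, hwz⟩
  have hrefl : ∀ z ∈ Z, Rel z z := by
    intro z hz
    refine ⟨hz, hz, fun a b hab => ?_⟩
    rw [hZ a] at hz
    rcases hz with hz | hz
    · exact Or.inr (hK _ _ hab.le hz)
    · exact Or.inl hz
  have hpZ : p ∈ Z := hRZ b0 (hp b0)
  have hfp : f p = p := (hF' p p (hrefl p hpZ)).1
  have hf0 : f (x b0) = x b0 := (hF' p p (hrefl p hpZ)).2.1
  have hfZ : ∀ z ∈ Z, f z ∈ Z := fun z hz => (hF' z z (hrefl z hz)).2.2.1
  -- the bound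
  obtain ⟨d, hd⟩ : ∃ d, ∀ z ∈ Z, ∀ a, f z ∈ K a → f z ∈ K d := by
    have h1 : ∀ N : Set X, ∃ a, (∃ a', Disjoint N (R a')) → Disjoint N (R a) := by
      intro N
      by_cases hN : ∃ a', Disjoint N (R a')
      · exact ⟨hN.choose, fun _ => hN.choose_spec⟩
      · exact ⟨b0, fun h => absurd h hN⟩
    choose c hc using h1
    obtain ⟨d, hd⟩ := bdd_of_countable (hN1.image c)
    refine ⟨d, fun z hz a ha => ?_⟩
    obtain ⟨N, hN, hzN, hNV⟩ := hN2 (f z) ⟨z, rfl⟩ (R a)ᶜ isClosed_closure.isOpen_compl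
      (hKR a _ ha)
    have h2 := hc N ⟨a, disjoint_left.2 fun y hy => hNV hy⟩
    have h3 := hfZ z hz
    rw [hZ (c N)] at h3
    rcases h3 with h3 | h3
    · exact hK _ _ (hd _ ⟨N, hN, rfl⟩).le h3
    · exact absurd h3 (disjoint_left.1 h2 hzN)
  have hcl : ∀ A : Set Om, (∀ a ∈ A, f (x a) ∈ K d) → ∀ z ∈ closure (x '' A), f z ∈ K d := by
    intro A hA z hz
    refine closure_minimal (t := f ⁻¹' K d) ?_ (isClosed_closure.preimage hf) hz
    rintro _ ⟨a, ha, rfl⟩
    exact hA a ha
  have hall : ∀ b, f (x b) ∈ K d := by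
    intro b
    induction b using (wellFounded_lt (α := Om)).induction with
    | _ b ih =>
    have hxZ : x b ∈ Z := hRZ b (hxR b)
    by_cases hb : ∃ a, a < b
    · obtain ⟨a0, ha0⟩ := hb
      haveI : Nonempty (Iio b) := ⟨⟨a0, ha0⟩⟩
      obtain ⟨w, hw⟩ : (⋂ a : Iio b, K b ∩ R a).Nonempty := by
        refine IsCompact.nonempty_iInter_of_directed_nonempty_isCompact_isClosed _ ?_
          (fun a => ⟨x a, hxK _ _ a.2, hxR a⟩)
          (fun a => (isClosed_closure.inter isClosed_closure).isCompact)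
          (fun a => isClosed_closure.inter isClosed_closure)
        intro a a'
        exact ⟨max a a', inter_subset_inter_right _ (hR _ _ (le_max_left a a')),
          inter_subset_inter_right _ (hR _ _ (le_max_right a a'))⟩
      rw [mem_iInter] at hw
      have hwK : w ∈ K b := (hw ⟨a0, ha0⟩).1
      have hrel : Rel w (x b) := by
        refine ⟨hKZ b hwK, hxZ, fun a b' hab => ?_⟩
        rcases lt_or_ge b b' with h1 | h1
        · exact Or.inr (hxK _ _ h1)
        · exact Or.inl (hw ⟨a, hab.trans_le h1⟩).2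
      have h2 := (hF' _ _ hrel).2.2.2.2
      obtain ⟨d', hd'⟩ := exists_gt_Om d
      rcases h2 d d' hd' with h3 | h3
      · exact absurd h3 (hKR d _ (hcl _ (fun a ha => ih a ha) w hwK))
      · exact hd _ hxZ _ h3
    · have : b = b0 := by
        rcases lt_trichotomy b b0 with h1 | h1 | h1
        · exact absurd h1 (hb0 b (mem_univ _))
        · exact h1
        · exact absurd ⟨b0, h1⟩ hb
      subst this
      obtain ⟨b', hb'⟩ := exists_gt_Om b
      refine hd _ hxZ b' ?_
      rw [hf0]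
      exact hxK _ _ hb'
  have := hcl (Ici b0) (fun a _ => hall a) p (hp b0)
  rw [hfp] at this
  exact hKR d p this (hp d)

/-- Sokolov compact spaces are countably tight -/
theorem Sokolov.tight [CompactSpace X] [T2Space X] (hS : Sokolov X) : CTight X := by
  classical
  intro A p hp
  by_contra hcon
  push Not at hcon
  let B : Set X := {z | ∃ C ⊆ A, C.Countable ∧ z ∈ closure C}
  have hB : ∀ C ⊆ B, C.Countable → p ∉ closure C := by
    intro C hC hCc hpC
    have h1 : ∀ z : C, ∃ D ⊆ A, D.Countable ∧ z.1 ∈ closure D := fun z => hC z.2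
    choose D hD1 hD2 hD3 using h1
    haveI := hCc.to_subtype
    refine hcon (⋃ z, D z) (iUnion_subset hD1) (countable_iUnion hD2) ?_
    refine closure_minimal ?_ isClosed_closure hpC
    intro z hz
    exact closure_mono (subset_iUnion D ⟨z, hz⟩) (hD3 ⟨z, hz⟩)
  have hG : ∀ C : Set X, ∃ g : C(X, ℝ), g p = 0 ∧ (p ∉ closure C → ∀ z ∈ closure C, g z = 1) := by
    intro C
    by_cases hC : p ∈ closure C
    · exact ⟨0, rfl, fun h => absurd hC h⟩
    · obtain ⟨g, hg0, hg1, -⟩ := exists_continuous_zero_one_of_isClosed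
        (isClosed_singleton (x := p)) (isClosed_closure (s := C)) (disjoint_singleton_left.2 hC)
      exact ⟨g, hg0 rfl, fun _ z hz => hg1 hz⟩
  choose G hG0 hG1 using hG
  have key : ∀ T : Set C(X, ℝ), T.Countable → (∀ g ∈ T, g p = 0) → ∃ z ∈ B, ∀ g ∈ T, g z = 0 := by
    intro T hT hT0
    obtain ⟨g, hg⟩ := (hT.insert 0).exists_eq_range (insert_nonempty _ _)
    have hg0 : ∀ n, g n p = 0 := by
      intro n
      have : g n ∈ insert 0 T := hg ▸ mem_range_self n
      rcases this with h | h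
      · rw [h]; rfl
      · exact hT0 _ h
    have h1 : ∀ n : ℕ, ∃ a ∈ A, ∀ k ≤ n, |g k a| < 1 / ((n : ℝ) + 1) := by
      intro n
      have ho : IsOpen (⋂ k ∈ Iic n, {a | |g k a| < 1 / ((n : ℝ) + 1)}) :=
        (finite_Iic n).isOpen_biInter fun k _ => isOpen_lt (by fun_prop) continuous_const
      obtain ⟨a, ha1, ha2⟩ := mem_closure_iff.1 hp _ ho (by
        simp only [mem_iInter, mem_setOf_eq, hg0, abs_zero]
        intro k _
        positivity)
      exact ⟨a, ha2, fun k hk => by simpa using (mem_iInter₂.1 ha1) k hk⟩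
    choose a ha1 ha2 using h1
    obtain ⟨z, -, hz⟩ := isCompact_univ.exists_mapClusterPt (f := atTop) (u := a) (by simp)
    refine ⟨z, ⟨range a, range_subset_iff.2 ha1, countable_range a, ?_⟩, fun g' hg' => ?_⟩
    · exact mem_closure_iff_clusterPt.2 (hz.clusterPt.mono (by simp))
    · have : g' ∈ range g := hg ▸ mem_insert_of_mem _ hg'
      obtain ⟨k, rfl⟩ := this
      have h2 : Tendsto (fun n => g k (a n)) atTop (𝓝 0) := by
        refine squeeze_zero_norm' ?_ tendsto_one_div_add_atTop_nhds_zero_nat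
        filter_upwards [eventually_ge_atTop k] with n hn
        exact (ha2 n k hn).le
      have h3 : MapClusterPt (g k z) atTop (fun n => g k (a n)) :=
        hz.continuousAt_comp (g k).continuous.continuousAt
      exact eq_of_nhds_neBot (h3.clusterPt.mono h2)
  haveI : Inhabited X := ⟨p⟩
  obtain ⟨x, hx⟩ := exists_rec (R := X)
    (fun a f r => r ∈ B ∧ ∀ b ≤ a, G (f '' Iio b) r = 0) (by
      rintro a f f' r hff ⟨h1, h2⟩
      refine ⟨h1, fun b hb => ?_⟩
      have : f' '' Iio b = f '' Iio b :=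
        image_congr fun c hc => (hff c (lt_of_lt_of_le hc hb)).symm
      rw [this]
      exact h2 b hb) (by
      intro a f _
      obtain ⟨z, hz1, hz2⟩ := key ((fun b => G (f '' Iio b)) '' Iic a)
        ((countable_Iic a).image _) (by rintro _ ⟨b, _, rfl⟩; exact hG0 _)
      exact ⟨z, hz1, fun b hb => hz2 _ ⟨b, hb, rfl⟩⟩)
  refine hS.no_free x fun a => disjoint_left.2 fun z hz1 hz2 => ?_
  have h1 := hG1 (x '' Iio a) (hB _ (by rintro _ ⟨b, _, rfl⟩; exact (hx b).1)
    ((countable_Iio a).image x)) z hz1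
  have h2 : G (x '' Iio a) z = 0 := by
    refine closure_minimal (t := {z | G (x '' Iio a) z = 0}) ?_
      (isClosed_eq (G _).continuous continuous_const) hz2
    rintro _ ⟨b, hb, rfl⟩
    exact (hx b).2 a hb
  rw [h1] at h2
  exact one_ne_zero h2

/-- a network gives a separating family of functions -/
theorem exists_sep [CompactSpace X] [T2Space X] {ι : Type} (N : ι → Set X)
    (hN : ∀ x, ∀ V : Set X, IsOpen V → x ∈ V → ∃ n, x ∈ N n ∧ N n ⊆ V) :
    ∃ g : ι × ι → C(X, ℝ), ∀ x y, x ≠ y → ∃ i, 1 / 2 < |g i x - g i y| := by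
  have hf : ∀ p : ι × ι, ∃ f : C(X, ℝ), Disjoint (closure (N p.1)) (closure (N p.2)) →
      EqOn f 0 (closure (N p.1)) ∧ EqOn f 1 (closure (N p.2)) := by
    intro p
    by_cases hp : Disjoint (closure (N p.1)) (closure (N p.2))
    · obtain ⟨f, h1, h2, _⟩ := exists_continuous_zero_one_of_isClosed isClosed_closure
        isClosed_closure hp
      exact ⟨f, fun _ => ⟨h1, h2⟩⟩
    · exact ⟨0, fun h => absurd h hp⟩
  choose f hf using hf
  refine ⟨f, fun x y hxy => ?_⟩
  obtain ⟨u, hxu, hu, v, hyv, hv, huv⟩ := exists_open_nhds_disjoint_closure hxy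
  obtain ⟨i, hxi, hi⟩ := hN x u hu hxu
  obtain ⟨j, hyj, hj⟩ := hN y v hv hyv
  obtain ⟨h0, h1⟩ := hf (i, j) (huv.mono (closure_mono hi) (closure_mono hj))
  refine ⟨(i, j), ?_⟩
  rw [h0 (subset_closure hxi), h1 (subset_closure hyj)]
  norm_num

theorem positive (hMA : H318Z.MA.MartinAxiom.{0, 0} Om) : Answer := by
  classical
  intro X _ _ _ hS hp
  by_contra hX
  have hT : CTight X := hS.tight
  -- not separable
  have h1 : ∀ S : Set X, S.Countable → ∃ x, x ∉ closure S := by
    intro S hSc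
    by_contra hcon
    push Not at hcon
    obtain ⟨N, hN⟩ := hS.mono S hSc
    obtain ⟨g, hg⟩ := exists_sep N (fun x => hN x (hcon x))
    let F : X → (ℕ × ℕ → ℝ) := fun x b => g b x
    have hF : Continuous F := continuous_pi fun b => (g b).continuous
    have hinj : Function.Injective F := by
      intro x y hxy
      by_contra hne
      obtain ⟨i, hi⟩ := hg x y hne
      have : g i x = g i y := congrFun hxy i
      rw [this] at hi
      norm_num at hi
    exact hX (hF.isClosedEmbedding hinj).isEmbedding.metrizableSpace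
  haveI : Inhabited X := ⟨(h1 ∅ countable_empty).choose⟩
  obtain ⟨a, ha⟩ := exists_rec (R := X) (fun b f r => r ∉ closure (f '' Iio b)) (by
      intro b f f' r hff h
      have : f' '' Iio b = f '' Iio b := image_congr fun c hc => (hff c hc).symm
      rw [this]
      exact h) (fun b f _ => h1 _ ((countable_Iio b).image f))
  let Y : Set X := closure (range a)
  have hY : ∀ y ∈ Y, ∃ b, y ∈ closure (a '' Iio b) := by
    intro y hy
    obtain ⟨B, hB1, hB2, hB3⟩ := hT _ y hy
    choose c hc using fun z : B => hB1 z.2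
    haveI := hB2.to_subtype
    obtain ⟨b, hb⟩ := bdd_of_countable (countable_range c)
    refine ⟨b, closure_mono ?_ hB3⟩
    intro z hz
    exact ⟨c ⟨z, hz⟩, hb _ ⟨_, rfl⟩, hc ⟨z, hz⟩⟩
  haveI i1 : CompactSpace Y := isCompact_iff_compactSpace.1 isClosed_closure.isCompact
  have hYm : ¬ TopologicalSpace.MetrizableSpace Y := by
    intro hm
    letI := TopologicalSpace.metrizableSpaceMetric Y
    obtain ⟨D, hD1, hD2⟩ := TopologicalSpace.exists_countable_dense Y
    choose c hc using fun y : Y => hY y.1 y.2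
    obtain ⟨b, hb⟩ := bdd_of_countable (hD1.image c)
    apply ha b
    have h2 : (⟨a b, subset_closure (mem_range_self b)⟩ : Y) ∈
        Subtype.val ⁻¹' closure (a '' Iio b) := by
      refine closure_minimal ?_ (isClosed_closure.preimage continuous_subtype_val) (hD2 _)
      intro y hy
      exact closure_mono (image_mono (Iio_subset_Iio (hb _ ⟨y, hy, rfl⟩).le)) (hc y)
    exact h2
  choose N hN using fun b => hS.mono (a '' Iio b) ((countable_Iio b).image a)
  obtain ⟨g0, hg0⟩ := exists_sep (X := Y) (fun i : Om × ℕ => Subtype.val ⁻¹' N i.1 i.2) (by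
    intro y V hV hyV
    obtain ⟨W, hW, rfl⟩ := isOpen_induced_iff.1 hV
    obtain ⟨b, hb⟩ := hY y.1 y.2
    obtain ⟨n, hn1, hn2⟩ := hN b y.1 hb W hW hyV
    exact ⟨(b, n), hn1, preimage_mono hn2⟩)
  obtain ⟨e⟩ : Nonempty (Om ≃ (Om × ℕ) × (Om × ℕ)) := by
    rw [← Cardinal.eq]
    have h2 : #(Om × ℕ) = ℵ₁ := Pool.Agent.Helper647.MM.mk_U
    rw [Cardinal.mk_prod, h2, mk_Om]
    simp
  let g : Om → C(Y, ℝ) := fun i => g0 (e i)
  have hg : ∀ x y, x ≠ y → ∃ i, 1 / 2 < |g i x - g i y| := by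
    intro x y hxy
    obtain ⟨i, hi⟩ := hg0 x y hxy
    exact ⟨e.symm i, by simpa [g] using hi⟩
  have hTY : CTight Y := by
    intro A y hy
    have h2 : y.1 ∈ closure (Subtype.val '' A) :=
      (IsEmbedding.subtypeVal.isInducing.closure_eq_preimage_closure_image A ▸ hy :)
    obtain ⟨B, hB1, hB2, hB3⟩ := hT _ _ h2
    refine ⟨Subtype.val ⁻¹' B, ?_, hB2.preimage Subtype.val_injective, ?_⟩
    · intro z hz
      obtain ⟨w, hw, hwz⟩ := hB1 hz
      rwa [← Subtype.val_injective hwz]
    · rw [IsEmbedding.subtypeVal.isInducing.closure_eq_preimage_closure_image,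
        image_preimage_eq_of_subset (hB1.trans (image_subset_range _ _))]
      exact hB3
  have hT2 : CTight (Y × Y) := Pool.Agent.Helper647.FU.J1.CTight.prod hTY hTY
  obtain ⟨z, hz1, hz2⟩ := Pool.Agent.Helper647.MM.Pos.exists_pairs Y hYm g
  have hthin : ThinFamily Y := by
    refine Pool.Agent.Helper647.MM.Pos.thin_of_tight (ma1 hMA) Y g hg z hz1 hz2 ?_
    intro 𝒜 h𝒜
    refine Pool.Agent.Helper647.MM.Pos.ccc_tight (T := Y × Y)
      (fun k => Pool.Agent.Helper647.FU.J1.CTight.pi hT2 k) z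
      (fun i p => |g i p.1 - g i p.2|) (fun i => by fun_prop) ?_ 𝒜 h𝒜
    intro i
    refine (countable_Iic i).mono ?_
    intro b hb
    by_contra hai
    have hlt : i < b := not_le.1 hai
    have h1 : (1:ℝ) / 4 ≤ |g i (z b).1 - g i (z b).2| := hb
    rw [hz2 b i hlt, sub_self, abs_zero] at h1
    norm_num at h1
  obtain ⟨I, w, hI, hw, hf⟩ := hthin
  refine Pool.Agent.Helper647.MM.Pos.not_cpfc_of_thin X ⟨I, fun i => ((w i).1, (w i).2), hI,
    fun i h => hw i (Subtype.ext h), fun f => ?_⟩ ((cpfc_iff X).1 hp)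
  exact hf (f.restrict Y)

end Pool.Agent.H146Z.Sk
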