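import Pool.Agent.H146Z.SkPos

set_option autoImplicit false
set_option linter.all false

open Set Topology Filter Cardinal OnePoint

namespace Pool.Agent.H146Z.Sk

open Pool.Agent.Helper292.ForceCH (Om)
open Pool.Agent.Helper647.MM (countable_Iio countable_Iic bdd_of_countable exists_rec mk_Om
  exists_gt_Om U countable_below club_closure)

/-- the data of the construction: each active point is the limit of a sequence of points of
smaller levels -/
structure Data where
  act : U → Prop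
  z : U → ℕ → U
  b : U → ℕ → Om
  h1 : ∀ y j, act y → (z y j).1 < y.1
  h2 : ∀ y, act y → ∀ γ < y.1, ∃ m, ∀ j ≥ m, γ ≤ b y j
  h3 : ∀ y j, act y → b y j < (z y j).1
  h4 : ∀ y y' j j', act y → act y' → y.1 = y'.1 → y ≠ y' → ∀ γ, b y j < γ → γ ≤ (z y j).1 →
    b y' j' < γ → γ ≤ (z y' j').1 → (z y j).1 = (z y' j').1 ∧ z y j ≠ z y' j'

/-- `In D y w`: `w` is in the basic compact open neighbourhood of `y` -/
inductive In (D : Data) : U → U → Prop
  | refl (y : U) : In D y y
  | step (y : U) (j : ℕ) (w : U) : D.act y → In D (D.z y j) w → D.b y j < w.1 → In D y w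

variable {D : Data}

theorem In.cases {y w : U} (h : In D y w) :
    w = y ∨ ∃ j, D.act y ∧ In D (D.z y j) w ∧ D.b y j < w.1 := by
  cases h with
  | refl => exact Or.inl rfl
  | step _ j _ h1 h2 h3 => exact Or.inr ⟨j, h1, h2, h3⟩

theorem In.le {y w : U} (h : In D y w) : w.1 ≤ y.1 := by
  induction h with
  | refl => exact le_rfl
  | step y j w h1 _ _ ih => exact ih.trans (D.h1 y j h1).le

theorem In.lt {y w : U} (h : In D y w) (hne : w ≠ y) : w.1 < y.1 := by
  rcases h.cases with h | ⟨j, h1, h2, _⟩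
  · exact absurd h hne
  · exact h2.le.trans_lt (D.h1 y j h1)

theorem good0 (D : Data) (y : U) : D.act y → D.b y 0 < y.1 :=
  fun h => (D.h3 y 0 h).trans (D.h1 y 0 h)

theorem In.coh {y w : U} (h : In D y w) :
    ∃ γ, (D.act w → γ < w.1) ∧ ∀ v, In D w v → γ < v.1 → In D y v := by
  induction h with
  | refl y => exact ⟨D.b y 0, good0 D y, fun v hv _ => hv⟩
  | step y j w h1 _ h3 ih =>
    obtain ⟨γ, hγ, hγ'⟩ := ih
    refine ⟨max γ (D.b y j), fun h => max_lt (hγ h) h3, fun v hv hv' => ?_⟩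
    exact In.step y j v h1 (hγ' v hv ((le_max_left _ _).trans_lt hv'))
      ((le_max_right _ _).trans_lt hv')

theorem In.disj : ∀ (a : Om) (y y' : U), y.1 = a → y'.1 = a → y ≠ y' → ∀ w, In D y w →
    In D y' w → False := by
  intro a
  induction a using (wellFounded_lt (α := Om)).induction with
  | _ a ih =>
  intro y y' hy hy' hne w hw hw'
  have hyy : y.1 = y'.1 := hy.trans hy'.symm
  rcases hw.cases with h | ⟨j, h1, h2, h3⟩
  · subst h
    exact absurd hyy (hw'.lt hne).ne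
  rcases hw'.cases with h | ⟨j', h1', h2', h3'⟩
  · subst h
    exact absurd hyy.symm (hw.lt hne.symm).ne
  obtain ⟨h5, h6⟩ := D.h4 y y' j j' h1 h1' hyy hne w.1 h3 h2.le h3' h2'.le
  exact ih _ (hy ▸ D.h1 y j h1) _ _ rfl h5.symm h6 w h2 h2'

/-- the locally compact space -/
def Y (_D : Data) : Type := U

instance : Nonempty (Y D) := (inferInstance : Nonempty U)

/-- the level of a point -/
def lev (y : Y D) : Om := (y : U).1

instance (D : Data) : TopologicalSpace (Y D) where
  IsOpen O := ∀ y ∈ O, ∃ β, (D.act y → β < lev y) ∧ ∀ w : Y D, In D y w → β < lev w → w ∈ O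
  isOpen_univ := fun y _ => ⟨D.b y 0, good0 D y, fun _ _ _ => trivial⟩
  isOpen_inter := by
    intro s t hs ht y hy
    obtain ⟨β, h1, h2⟩ := hs y hy.1
    obtain ⟨β', h1', h2'⟩ := ht y hy.2
    exact ⟨max β β', fun h => max_lt (h1 h) (h1' h), fun w hw hw' =>
      ⟨h2 w hw ((le_max_left _ _).trans_lt hw'), h2' w hw ((le_max_right _ _).trans_lt hw')⟩⟩
  isOpen_sUnion := by
    rintro S hS y ⟨s, hs, hy⟩
    obtain ⟨β, h1, h2⟩ := hS s hs y hy
    exact ⟨β, h1, fun w hw hw' => ⟨s, hs, h2 w hw hw'⟩⟩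

theorem isOpen_Y {O : Set (Y D)} : IsOpen O ↔
    ∀ y ∈ O, ∃ β, (D.act y → β < lev y) ∧ ∀ w : Y D, In D y w → β < lev w → w ∈ O := Iff.rfl

theorem isOpen_In (y : Y D) : IsOpen {w : Y D | In D y w} :=
  isOpen_Y.2 fun w hw => In.coh hw

theorem isOpen_lt' (a : Om) : IsOpen {w : Y D | lev w < a} :=
  isOpen_Y.2 fun y hy => ⟨D.b y 0, good0 D y, fun w hw _ => lt_of_le_of_lt hw.le hy⟩

theorem isOpen_le' (a : Om) : IsOpen {w : Y D | lev w ≤ a} :=
  isOpen_Y.2 fun y hy => ⟨D.b y 0, good0 D y, fun w hw _ => le_trans hw.le hy⟩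

theorem isOpen_gt' (a : Om) : IsOpen {w : Y D | a < lev w} :=
  isOpen_Y.2 fun y hy => ⟨a, fun _ => hy, fun w _ hw => hw⟩

theorem isClosed_gt' (a : Om) : IsClosed {w : Y D | a < lev w} := by
  have : {w : Y D | a < lev w} = {w : Y D | lev w ≤ a}ᶜ := by ext w; simp
  rw [this]
  exact (isOpen_le' a).isClosed_compl

theorem isClosed_lt' (a : Om) (ha : ∀ y : U, y.1 = a → ¬ D.act y) :
    IsClosed {w : Y D | lev w < a} := by
  rw [← isOpen_compl_iff]
  refine isOpen_Y.2 fun y hy => ?_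
  have hy' : a ≤ lev y := not_lt.1 hy
  rcases hy'.lt_or_eq with h | h
  · exact ⟨a, fun _ => h, fun w _ hw => not_lt.2 hw.le⟩
  · refine ⟨a, fun h' => absurd h' (ha y h.symm), fun w hw _ => ?_⟩
    rcases hw.cases with h2 | ⟨j, h2, _⟩
    · rw [h2]; exact hy
    · exact absurd h2 (ha y h.symm)

theorem compact_In : ∀ (a : Om) (y : Y D), lev y = a → IsCompact {w : Y D | In D y w} := by
  intro a
  induction a using (wellFounded_lt (α := Om)).induction with
  | _ a ih =>
  intro y hy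
  refine isCompact_of_finite_subcover fun {ι} O hO hcov => ?_
  classical
  obtain ⟨i0, hi0⟩ := mem_iUnion.1 (hcov (In.refl y))
  obtain ⟨β, hβ, hβ'⟩ := isOpen_Y.1 (hO i0) y hi0
  by_cases hact : D.act y
  swap
  · refine ⟨{i0}, fun w hw => ?_⟩
    rcases In.cases hw with h | ⟨j, h, _⟩
    · rw [h]; simpa using hi0
    · exact absurd h hact
  obtain ⟨m, hm⟩ := D.h2 y hact β (hβ hact)
  have hT : IsCompact (⋃ j ∈ Iio m, ({w : Y D | In D (D.z y j) w} ∩ {w | D.b y j < lev w})) :=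
    (finite_Iio m).isCompact_biUnion fun j _ =>
      (ih _ (hy ▸ D.h1 y j hact) (D.z y j) rfl).inter_right (isClosed_gt' _)
  obtain ⟨t, ht⟩ := hT.elim_finite_subcover O hO (by
    refine Subset.trans ?_ hcov
    intro w hw
    obtain ⟨j, _, h1, h2⟩ := mem_iUnion₂.1 hw
    exact In.step y j w hact h1 h2)
  refine ⟨insert i0 t, fun w hw => ?_⟩
  by_cases hw0 : w ∈ O i0
  · exact mem_biUnion (Finset.mem_coe.2 (Finset.mem_insert_self _ _)) hw0
  rcases In.cases hw with h | ⟨j, _, h1, h2⟩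
  · exact absurd (h ▸ hi0) hw0
  have h3 : lev w ≤ β := not_lt.1 fun h => hw0 (hβ' w hw h)
  have h4 : j < m := not_le.1 fun h => absurd (h2.trans_le h3) (not_lt.2 (hm j h))
  obtain ⟨i, hi, hwi⟩ := mem_iUnion₂.1 (ht (mem_biUnion (show j ∈ Iio m from h4) ⟨h1, h2⟩))
  exact mem_biUnion (Finset.mem_coe.2 (Finset.mem_insert_of_mem hi)) hwi

instance : T2Space (Y D) := by
  refine ⟨fun y y' hne => ?_⟩
  rcases lt_trichotomy (lev y) (lev y') with h | h | h
  · exact ⟨_, _, isOpen_le' (lev y), isOpen_gt' (lev y), le_refl (lev y), h,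
      disjoint_left.2 fun w h1 h2 => lt_irrefl _ (lt_of_lt_of_le (show lev y < lev w from h2) h1)⟩
  · exact ⟨_, _, isOpen_In y, isOpen_In y', In.refl y, In.refl y',
      disjoint_left.2 fun w h1 h2 => In.disj _ y y' h rfl hne w h1 h2⟩
  · exact ⟨_, _, isOpen_gt' (lev y'), isOpen_le' (lev y'), h, le_refl (lev y'),
      disjoint_left.2 fun w h1 h2 => lt_irrefl _ (lt_of_lt_of_le (show lev y' < lev w from h1) h2)⟩

instance : WeaklyLocallyCompactSpace (Y D) :=
  ⟨fun y => ⟨_, compact_In _ y rfl, (isOpen_In y).mem_nhds (In.refl y)⟩⟩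

theorem tendsto_z (y : Y D) (hy : D.act y) :
    Tendsto (β := Y D) (fun j => D.z y j) atTop (𝓝 y) := by
  rw [tendsto_nhds]
  intro O hO hyO
  obtain ⟨β, hβ, hβ'⟩ := isOpen_Y.1 hO y hyO
  obtain ⟨m, hm⟩ := D.h2 y hy β (hβ hy)
  filter_upwards [eventually_ge_atTop m] with j hj
  exact hβ' _ (In.step y j _ hy (In.refl _) (D.h3 y j hy)) ((hm j hj).trans_lt (D.h3 y j hy))

theorem compact_bdd {s : Set (Y D)} (hs : IsCompact s) (a : Om) [Nonempty (Iio a)]
    (h : ∀ y ∈ s, lev y < a) : ∃ γ : Iio a, ∀ y ∈ s, lev y ≤ γ := by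
  obtain ⟨γ, hγ⟩ := hs.elim_directed_cover (fun γ : Iio a => {w : Y D | lev w ≤ γ})
    (fun γ => isOpen_le' _) (fun y hy => mem_iUnion.2 ⟨⟨lev y, h y hy⟩, le_refl (lev y)⟩) (by
      intro c c'
      exact ⟨max c c', fun w hw => le_trans (show lev w ≤ c.1 from hw) (le_max_left c c'),
        fun w hw => le_trans (show lev w ≤ c'.1 from hw)
          (show c'.1 ≤ (max c c').1 from le_max_right c c')⟩)
  exact ⟨γ, fun y hy => hγ hy⟩

theorem not_metr : ¬ TopologicalSpace.MetrizableSpace (OnePoint (Y D)) := by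
  intro h
  letI := TopologicalSpace.metrizableSpaceMetric (OnePoint (Y D))
  obtain ⟨A, hA, hA2⟩ := TopologicalSpace.exists_countable_dense (OnePoint (Y D))
  obtain ⟨a, ha⟩ := bdd_of_countable
    ((hA.preimage (OnePoint.coe_injective (X := Y D))).image (lev (D := D)))
  obtain ⟨c, hc⟩ := exists_gt_Om a
  obtain ⟨x, ⟨y, hy, rfl⟩, hx⟩ := hA2.inter_open_nonempty _
    (isOpen_image_coe.2 (isOpen_gt' (D := D) a)) ⟨_, ((c, 0) : U), hc, rfl⟩
  exact absurd (ha _ ⟨y, hx, rfl⟩) (not_lt.2 (le_of_lt hy))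

open Classical in
/-- the map which collapses the complement of `s` to the point at infinity -/
noncomputable def col (s : Set (Y D)) (x : OnePoint (Y D)) : OnePoint (Y D) :=
  x.elim ∞ fun y => if y ∈ s then (y : OnePoint (Y D)) else ∞

theorem col_infty (s : Set (Y D)) : col s ∞ = ∞ := rfl

theorem col_mem {s : Set (Y D)} {y : Y D} (h : y ∈ s) : col s y = y := if_pos h

theorem col_not {s : Set (Y D)} {y : Y D} (h : y ∉ s) : col s y = ∞ := if_neg h

theorem col_eq {s : Set (Y D)} {x : OnePoint (Y D)} {y : Y D} (h : col s x = y) : x = y := by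
  induction x using OnePoint.rec with
  | infty => exact h
  | coe w =>
    by_cases hw : w ∈ s
    · rwa [col_mem hw] at h
    · rw [col_not hw] at h
      exact absurd h (infty_ne_coe y)

theorem range_col {s : Set (Y D)} (hs : s.Countable) : (range (col s)).Countable := by
  refine ((hs.image ((↑) : Y D → OnePoint (Y D))).insert ∞).mono ?_
  rintro _ ⟨x, rfl⟩
  induction x using OnePoint.rec with
  | infty => exact Or.inl rfl
  | coe w =>
    by_cases hw : w ∈ s
    · exact Or.inr ⟨w, hw, (col_mem hw).symm⟩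
    · exact Or.inl (col_not hw)

theorem cont_col {s : Set (Y D)} (hs : IsClopen s) : Continuous (col s) := by
  classical
  rw [OnePoint.continuous_iff]
  constructor
  · rw [col_infty, hasBasis_nhds_infty.tendsto_right_iff]
    rintro t ⟨ht1, ht2⟩
    filter_upwards [ht2.compl_mem_coclosedCompact_of_isClosed ht1] with y hy
    by_cases hw : y ∈ s
    · exact Or.inl ⟨y, hy, (col_mem hw).symm⟩
    · exact Or.inr (col_not hw)
  · refine Continuous.if (p := fun y => y ∈ s) ?_ continuous_coe continuous_const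
    intro y hy
    have : frontier s = ∅ := hs.frontier_eq
    exact absurd (show y ∈ frontier s from hy) (by rw [this]; exact id)

theorem sokolov (hD : ∀ G : Om → Om, ∃ a, (∃ b, b < a) ∧ (∀ b < a, G b < a) ∧
    ∀ y : U, y.1 = a → ¬ D.act y) : Sokolov (OnePoint (Y D)) := by
  classical
  intro F hF
  let L : Om → Set (Y D) := fun γ => {w | lev w ≤ γ}
  have key : ∀ γ, ∃ β, ∀ n, ∀ x ∈ F n, ∃ x' ∈ F n, (∀ i, col (L γ) (x' i) = col (L γ) (x i)) ∧
      ∀ i, ∀ y : Y D, x' i = y → lev y < β := by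
    intro γ
    have h1 : ∀ n (t : Fin n → OnePoint (Y D)), ∃ x', (∃ x ∈ F n, ∀ i, col (L γ) (x i) = t i) →
        x' ∈ F n ∧ ∀ i, col (L γ) (x' i) = t i := by
      intro n t
      by_cases h : ∃ x ∈ F n, ∀ i, col (L γ) (x i) = t i
      · exact ⟨h.choose, fun _ => h.choose_spec⟩
      · exact ⟨t, fun h' => absurd h' h⟩
    choose c hc using h1
    have hc2 : ∀ n, {t : Fin n → OnePoint (Y D) | ∀ i, t i ∈ range (col (L γ))}.Countable :=
      fun n => countable_pi fun i => range_col (countable_below γ)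
    obtain ⟨β, hβ⟩ := bdd_of_countable (countable_iUnion fun n => (hc2 n).biUnion fun t _ =>
      countable_range fun i => (c n t i).elim γ lev)
    refine ⟨β, fun n x hx => ?_⟩
    obtain ⟨h2, h3⟩ := hc n (fun i => col (L γ) (x i)) ⟨x, hx, fun i => rfl⟩
    refine ⟨_, h2, h3, fun i y hy => hβ _ ?_⟩
    refine mem_iUnion.2 ⟨n, mem_iUnion₂.2 ⟨fun i => col (L γ) (x i), fun i => ⟨_, rfl⟩, i, ?_⟩⟩
    simp only [hy]
    rfl
  choose G hG using key
  obtain ⟨a, ⟨b0, hb0⟩, ha, hact⟩ := hD G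
  haveI : Nonempty (Iio a) := ⟨⟨b0, hb0⟩⟩
  let S : Set (Y D) := {w | lev w < a}
  have hS : IsClopen S := ⟨isClosed_lt' a hact, isOpen_lt' a⟩
  have hSc : S.Countable := (countable_below a).mono fun w hw => le_of_lt (show lev w < a from hw)
  refine ⟨col S, cont_col hS, ⟨(fun x => {x}) '' range (col S), (range_col hSc).image _, ?_, ?_⟩,
    fun n x hx => ?_⟩
  · rintro _ ⟨x, hx, rfl⟩
    exact singleton_subset_iff.2 hx
  · intro x hx V _ hxV
    exact ⟨{x}, ⟨x, hx, rfl⟩, rfl, singleton_subset_iff.2 hxV⟩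
  choose x' hx1 hx2 hx3 using fun γ : Iio a => hG γ n x hx
  refine (hF n).mem_of_tendsto (b := atTop) (f := x') ?_ (Eventually.of_forall hx1)
  rw [tendsto_pi_nhds]
  intro i
  by_cases hi : ∃ y ∈ S, x i = y
  · obtain ⟨y, hy, hxy⟩ := hi
    rw [hxy, col_mem hy]
    refine tendsto_const_nhds.congr' ?_
    filter_upwards [eventually_ge_atTop (⟨lev y, hy⟩ : Iio a)] with γ hγ
    have h1 := hx2 γ i
    rw [hxy, col_mem (show y ∈ L γ from hγ)] at h1
    exact (col_eq h1).symm
  · have h0 : ∀ T ⊆ S, col T (x i) = ∞ := by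
      intro T hT
      cases h : x i with
      | infty => rfl
      | coe w => exact col_not fun hw => hi ⟨w, hT hw, h⟩
    rw [h0 S Subset.rfl, hasBasis_nhds_infty.tendsto_right_iff]
    rintro t ⟨ht1, ht2⟩
    obtain ⟨γ0, hγ0⟩ := compact_bdd (ht2.inter_right hS.1) a fun y hy => hy.2
    filter_upwards [eventually_ge_atTop γ0] with γ hγ
    have h1 := hx2 γ i
    rw [h0 (L γ) fun w hw => lt_of_le_of_lt (show lev w ≤ γ.1 from hw) γ.2] at h1
    cases h : x' γ i with
    | infty => exact Or.inr rfl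
    | coe w =>
      refine Or.inl ⟨w, fun hw => ?_, rfl⟩
      have h2 : w ∈ S := (hx3 γ i w h).trans (ha γ γ.2)
      have h3 : w ∈ L γ := (hγ0 w ⟨hw, h2⟩).trans hγ
      rw [h, col_mem h3] at h1
      exact coe_ne_infty w h1

end Pool.Agent.H146Z.Sk
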