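import Mathlib

/-!
Treewidth, minors, plane drawings and disjoint cycles of finite simple graphs; a lower bound for
the treewidth of graphs with an edge between any two large disjoint vertex sets.
-/

set_option autoImplicit false

open Finset

namespace Pool.Agent.H146Z.Tw

/-- `G` has a tree decomposition all of whose bags have at most `w + 1` vertices: a finite tree
`T` with a bag `B t` of vertices for each node `t`, such that every vertex lies in a bag, the ends
of every edge lie in a common bag, and the nodes whose bags contain a given vertex induce a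
connected subgraph of `T`. -/
def HasTreeDecomp {V : Type} (G : SimpleGraph V) (w : ℕ) : Prop :=
  ∃ (m : ℕ) (T : SimpleGraph (Fin m)) (B : Fin m → Finset V), T.IsTree ∧
    (∀ v, ∃ t, v ∈ B t) ∧ (∀ u v, G.Adj u v → ∃ t, u ∈ B t ∧ v ∈ B t) ∧
    (∀ v, (T.induce {t | v ∈ B t}).Connected) ∧ ∀ t, (B t).card ≤ w + 1

/-- The treewidth: the least width of a tree decomposition. -/
noncomputable def treewidth {V : Type} (G : SimpleGraph V) : ℕ := sInf {w | HasTreeDecomp G w}

/-- `H` is a minor of `G`: there are pairwise disjoint connected (in particular nonempty) branch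
sets `X h`, one for each vertex `h` of `H`, with an edge of `G` between `X h` and `X h'` for each
edge `h h'` of `H`. -/
def IsMinor {W V : Type} (H : SimpleGraph W) (G : SimpleGraph V) : Prop :=
  ∃ X : W → Set V, (∀ h, (G.induce (X h)).Connected) ∧
    (∀ h h', h ≠ h' → Disjoint (X h) (X h')) ∧
    ∀ h h', H.Adj h h' → ∃ x ∈ X h, ∃ y ∈ X h', G.Adj x y

/-- `H` has a crossing-free straight-line drawing in the plane: distinct points for the vertices,
no vertex in the interior of an edge, and disjoint interiors for distinct edges. -/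
def HasPlaneDrawing {W : Type} (H : SimpleGraph W) : Prop :=
  ∃ p : W → ℝ × ℝ, Function.Injective p ∧
    (∀ u v w, H.Adj u v → p w ∉ openSegment ℝ (p u) (p v)) ∧
    ∀ u v x y, H.Adj u v → H.Adj x y → s(u, v) ≠ s(x, y) →
      Disjoint (openSegment ℝ (p u) (p v)) (openSegment ℝ (p x) (p y))

/-- `H` has `k` pairwise vertex-disjoint cycles. -/
def HasDisjointCycles {W : Type} (H : SimpleGraph W) (k : ℕ) : Prop :=
  ∃ (v : Fin k → W) (c : ∀ i, H.Walk (v i) (v i)), (∀ i, (c i).IsCycle) ∧
    ∀ i j, i ≠ j → ∀ x, x ∈ (c i).support → x ∉ (c j).support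

section lower

variable {V : Type} [Fintype V] [DecidableEq V] {G : SimpleGraph V} {n : ℕ}
  {T : SimpleGraph (Fin n)} {B : Fin n → Finset V}

/-- all tree edges leaving `S` go to `t` -/
def Pair (T : SimpleGraph (Fin n)) (S : Finset (Fin n)) (t : Fin n) : Prop :=
  t ∉ S ∧ ∀ w ∈ S, ∀ w', T.Adj w w' → w' ∈ S ∨ w' = t

/-- the vertices in the bags of `S` but not in the bag of `t` -/
def Y (B : Fin n → Finset V) (S : Finset (Fin n)) (t : Fin n) : Finset V := S.biUnion B \ B t

lemma walk_stay {S : Finset (Fin n)} {t : Fin n} (h : Pair T S t) {a b : Fin n} (p : T.Walk a b)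
    (ha : a ∈ S) (hp : t ∉ p.support) : b ∈ S := by
  induction p with
  | nil => exact ha
  | cons hadj q ih =>
    rename_i x y z
    rw [SimpleGraph.Walk.support_cons, List.mem_cons, not_or] at hp
    rcases h.2 x ha y hadj with h1 | h1
    · exact ih h1 hp.2
    · exact absurd (h1 ▸ q.start_mem_support) hp.2

omit [Fintype V] [DecidableEq V] in
lemma key (hconn : ∀ v, (T.induce {t | v ∈ B t}).Connected) {S : Finset (Fin n)} {t : Fin n}
    (h : Pair T S t) {v : V} (hv : v ∉ B t) {u u' : Fin n} (hu : u ∈ S) (hvu : v ∈ B u)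
    (hvu' : v ∈ B u') : u' ∈ S := by
  obtain ⟨p⟩ := (hconn v).preconnected ⟨u, hvu⟩ ⟨u', hvu'⟩
  have h1 : t ∉ (p.map (SimpleGraph.Embedding.induce _).toHom).support := by
    rw [SimpleGraph.Walk.support_map, List.mem_map]
    rintro ⟨⟨x, hx⟩, -, hxt⟩
    have : x = t := hxt
    exact hv (this ▸ hx)
  exact walk_stay h (p.map (SimpleGraph.Embedding.induce _).toHom) hu h1

theorem exists_big_bag (m : ℕ) (hN : Fintype.card V = 4 * m)
    (hexp : ∀ A C : Finset V, Disjoint A C → m ≤ A.card → m ≤ C.card →
      ∃ a ∈ A, ∃ c ∈ C, G.Adj a c)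
    (hT : T.IsTree) (hcov : ∀ v, ∃ t, v ∈ B t)
    (hedge : ∀ u v, G.Adj u v → ∃ t, u ∈ B t ∧ v ∈ B t)
    (hconn : ∀ v, (T.induce {t | v ∈ B t}).Connected) (hm : 0 < m) : ∃ t, m < (B t).card := by
  classical
  by_contra hcon
  push Not at hcon
  -- dichotomy
  have hdich : ∀ S t, Pair T S t → (Y B S t).card < m ∨ 2 * m < (Y B S t).card := by
    intro S t h
    by_contra hc
    push Not at hc
    have h1 : m ≤ (univ \ (Y B S t ∪ B t)).card := by
      rw [card_sdiff_of_subset (subset_univ _), card_univ, hN]
      have := card_union_le (Y B S t) (B t)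
      have := hcon t
      omega
    obtain ⟨a, ha, c, hc', hac⟩ := hexp (Y B S t) (univ \ (Y B S t ∪ B t))
      (disjoint_left.2 fun a ha hb => (mem_sdiff.1 hb).2 (mem_union_left _ ha)) hc.1 h1
    obtain ⟨u', hau', hcu'⟩ := hedge a c hac
    obtain ⟨ha1, ha2⟩ := mem_sdiff.1 ha
    obtain ⟨u, hu, hau⟩ := mem_biUnion.1 ha1
    have hu' : u' ∈ S := key hconn h ha2 hu hau hau'
    apply (mem_sdiff.1 hc').2
    by_cases hct : c ∈ B t
    · exact mem_union_right _ hct
    · exact mem_union_left _ (mem_sdiff.2 ⟨mem_biUnion.2 ⟨u', hu', hcu'⟩, hct⟩)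
  obtain ⟨t0⟩ := hT.connected.nonempty
  obtain ⟨⟨S, t⟩, hSt, hmax⟩ := exists_max_image
    ((univ : Finset (Finset (Fin n) × Fin n)).filter
      fun q => Pair T q.1 q.2 ∧ (Y B q.1 q.2).card < m) (fun q => q.1.card)
    ⟨(∅, t0), mem_filter.2 ⟨mem_univ _, by simp [Pair], by simp [Y, hm]⟩⟩
  simp only [mem_filter, mem_univ, true_and] at hSt hmax
  obtain ⟨hP, hsmall⟩ := hSt
  have hmax' : ∀ S' t', Pair T S' t' → (Y B S' t').card ≤ 2 * m → S'.card ≤ S.card := by
    intro S' t' h1 h2
    rcases hdich S' t' h1 with h3 | h3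
    · exact hmax (S', t') ⟨h1, h3⟩
    · omega
  by_cases h0 : ∃ u, T.Adj t u ∧ u ∉ S
  · obtain ⟨u, htu, huS⟩ := h0
    by_cases h1 : ∃ u', T.Adj t u' ∧ u' ∉ S ∧ u' ≠ u
    · obtain ⟨u', htu', hu'S, hne⟩ := h1
      set C : Finset (Fin n) := univ.filter fun w => ∃ p : T.Walk u w, t ∉ p.support with hC
      have huC : u ∈ C := by
        simp only [hC, mem_filter, mem_univ, true_and]
        exact ⟨SimpleGraph.Walk.nil, by simpa using htu.ne⟩
      have hPC : Pair T C t := by
        refine ⟨?_, ?_⟩
        · simp only [hC, mem_filter, mem_univ, true_and]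
          rintro ⟨p, hp⟩
          exact hp p.end_mem_support
        · intro w hw w' hww'
          by_cases hw't : w' = t
          · exact Or.inr hw't
          · left
            simp only [hC, mem_filter, mem_univ, true_and] at hw ⊢
            obtain ⟨p, hp⟩ := hw
            refine ⟨p.concat hww', ?_⟩
            rw [SimpleGraph.Walk.support_concat]
            simp only [List.mem_append, List.mem_singleton, not_or]
            exact ⟨hp, fun h => hw't h.symm⟩
      have hu'C : u' ∉ C := by
        simp only [hC, mem_filter, mem_univ, true_and]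
        rintro ⟨p, hp⟩
        have hq : (SimpleGraph.Walk.cons htu.symm (SimpleGraph.Walk.cons htu'
            SimpleGraph.Walk.nil) : T.Walk u u').IsPath := by
          rw [SimpleGraph.Walk.isPath_def]
          simp [htu.ne', htu'.ne, hne.symm]
        have := (hT.isAcyclic.subsingleton_path u u').elim p.toPath ⟨_, hq⟩
        apply hp
        apply p.support_toPath_subset_support
        rw [this]
        simp
      set D : Finset (Fin n) := univ \ insert t C with hD
      have hPD : Pair T D t := by
        refine ⟨by simp [hD], ?_⟩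
        intro w hw w' hww'
        by_cases hw't : w' = t
        · exact Or.inr hw't
        · left
          simp only [hD, mem_sdiff, mem_univ, true_and, mem_insert, not_or] at hw ⊢
          refine ⟨hw't, fun hw'C => ?_⟩
          rcases hPC.2 w' hw'C w hww'.symm with h2 | h2
          · exact hw.2 h2
          · exact hw.1 h2
      have hSC : ∀ w ∈ S, w ∉ C := by
        intro w hw hwC
        simp only [hC, mem_filter, mem_univ, true_and] at hwC
        obtain ⟨p, hp⟩ := hwC
        exact huS (walk_stay hP p.reverse hw (by simpa using hp))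
      have hdisj : Disjoint (Y B C t) (Y B D t) := by
        rw [disjoint_left]
        intro v hv1 hv2
        obtain ⟨h2, h3⟩ := mem_sdiff.1 hv1
        obtain ⟨h4, -⟩ := mem_sdiff.1 hv2
        obtain ⟨w, hw, hvw⟩ := mem_biUnion.1 h2
        obtain ⟨w', hw', hvw'⟩ := mem_biUnion.1 h4
        have := key hconn hPC h3 hw hvw hvw'
        simp only [hD, mem_sdiff, mem_univ, true_and, mem_insert, not_or] at hw'
        exact hw'.2 this
      have hsum : (Y B C t).card + (Y B D t).card ≤ 4 * m := by
        rw [← card_union_of_disjoint hdisj, ← hN]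
        exact card_le_univ _
      rcases hdich C t hPC with h2 | h2
      · have hPU : Pair T (S ∪ C) t := by
          refine ⟨by simp [hP.1, hPC.1], ?_⟩
          intro w hw w' hww'
          rcases mem_union.1 hw with h3 | h3
          · rcases hP.2 w h3 w' hww' with h4 | h4
            · exact Or.inl (mem_union_left _ h4)
            · exact Or.inr h4
          · rcases hPC.2 w h3 w' hww' with h4 | h4
            · exact Or.inl (mem_union_right _ h4)
            · exact Or.inr h4
        have h3 : Y B (S ∪ C) t ⊆ Y B S t ∪ Y B C t := by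
          intro v hv
          obtain ⟨h4, h5⟩ := mem_sdiff.1 hv
          obtain ⟨w, hw, hvw⟩ := mem_biUnion.1 h4
          rcases mem_union.1 hw with h6 | h6
          · exact mem_union_left _ (mem_sdiff.2 ⟨mem_biUnion.2 ⟨w, h6, hvw⟩, h5⟩)
          · exact mem_union_right _ (mem_sdiff.2 ⟨mem_biUnion.2 ⟨w, h6, hvw⟩, h5⟩)
        have h4 := (card_le_card h3).trans (card_union_le _ _)
        have h5 := hmax' (S ∪ C) t hPU (by omega)
        have h6 : S.card < (S ∪ C).card :=
          card_lt_card ⟨subset_union_left, fun h => huS (h (mem_union_right _ huC))⟩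
        omega
      · have h5 := hmax' D t hPD (by omega)
        have h6 : S.card < D.card := by
          refine card_lt_card ⟨?_, fun h => hu'S (h ?_)⟩
          · intro w hw
            simp only [hD, mem_sdiff, mem_univ, true_and, mem_insert, not_or]
            exact ⟨fun h => hP.1 (h ▸ hw), hSC w hw⟩
          · simp only [hD, mem_sdiff, mem_univ, true_and, mem_insert, not_or]
            exact ⟨htu'.ne', hu'C⟩
        omega
    · push Not at h1
      have hPU : Pair T (insert t S) u := by
        refine ⟨by simp [htu.ne', huS], ?_⟩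
        intro w hw w' hww'
        rcases mem_insert.1 hw with h3 | h3
        · subst h3
          by_cases h4 : w' ∈ S
          · exact Or.inl (mem_insert_of_mem h4)
          · exact Or.inr (h1 w' hww' h4)
        · rcases hP.2 w h3 w' hww' with h4 | h4
          · exact Or.inl (mem_insert_of_mem h4)
          · exact Or.inl (h4 ▸ mem_insert_self _ _)
      have h3 : Y B (insert t S) u ⊆ Y B S t ∪ B t := by
        intro v hv
        obtain ⟨h4, -⟩ := mem_sdiff.1 hv
        obtain ⟨w, hw, hvw⟩ := mem_biUnion.1 h4
        by_cases h5 : v ∈ B t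
        · exact mem_union_right _ h5
        · rcases mem_insert.1 hw with h6 | h6
          · exact absurd (h6 ▸ hvw) h5
          · exact mem_union_left _ (mem_sdiff.2 ⟨mem_biUnion.2 ⟨w, h6, hvw⟩, h5⟩)
      have h4 := (card_le_card h3).trans (card_union_le _ _)
      have h7 := hcon t
      have h5 := hmax' (insert t S) u hPU (by omega)
      rw [card_insert_of_notMem hP.1] at h5
      omega
  · push Not at h0
    have hall : ∀ a b (p : T.Walk a b), (a ∈ S ∨ a = t) → (b ∈ S ∨ b = t) := by
      intro a b p
      induction p with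
      | nil => exact id
      | cons hadj q ih =>
        rename_i x y z
        intro hx
        apply ih
        rcases hx with h2 | h2
        · exact hP.2 x h2 y hadj
        · exact Or.inl (h0 y (h2 ▸ hadj))
    have h3 : (univ : Finset V) ⊆ Y B S t ∪ B t := by
      intro v _
      obtain ⟨w, hw⟩ := hcov v
      by_cases h5 : v ∈ B t
      · exact mem_union_right _ h5
      · obtain ⟨p⟩ := hT.connected.preconnected t w
        rcases hall t w p (Or.inr rfl) with h6 | h6
        · exact mem_union_left _ (mem_sdiff.2 ⟨mem_biUnion.2 ⟨w, h6, hw⟩, h5⟩)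
        · exact absurd (h6 ▸ hw) h5
    have h4 := (card_le_card h3).trans (card_union_le _ _)
    rw [card_univ, hN] at h4
    have h7 := hcon t
    omega

omit [DecidableEq V] in
lemma hasTreeDecomp_card (G : SimpleGraph V) : HasTreeDecomp G (Fintype.card V) := by
  refine ⟨1, ⊥, fun _ => univ, ?_, fun v => ⟨0, mem_univ _⟩,
    fun u v _ => ⟨0, mem_univ _, mem_univ _⟩, fun v => ?_, fun _ => by simp⟩
  · exact SimpleGraph.IsTree.of_subsingleton
  · have : Nonempty {t : Fin 1 | v ∈ (univ : Finset V)} := ⟨⟨0, mem_univ _⟩⟩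
    exact SimpleGraph.Connected.of_subsingleton

theorem le_treewidth (m : ℕ) (hN : Fintype.card V = 4 * m)
    (hexp : ∀ A C : Finset V, Disjoint A C → m ≤ A.card → m ≤ C.card →
      ∃ a ∈ A, ∃ c ∈ C, G.Adj a c) (hm : 0 < m) : m ≤ treewidth G := by
  have h : treewidth G ∈ {w | HasTreeDecomp G w} :=
    Nat.sInf_mem ⟨_, hasTreeDecomp_card G⟩
  obtain ⟨n, T, B, hT, hcov, hedge, hconn, hcard⟩ := h
  obtain ⟨t, ht⟩ := exists_big_bag m hN hexp hT hcov hedge hconn hm
  have := hcard t
  omega

end lower

end Pool.Agent.H146Z.Tw
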