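import Mathlib

/-!
A counting argument: a map `f : Fin N × Fin 24 → Fin N` which joins any two large disjoint sets,
while small sets contain few pairs `(u, i)` with both `u` and `f (u, i)` inside.
-/

set_option autoImplicit false

open Finset

namespace Pool.Agent.H146Z.Tw

/-- the maps sending `P` into `T` -/
def box {E V : Type} [Fintype E] [DecidableEq E] [Fintype V] (P : Finset E) (T : Finset V) :
    Finset (E → V) := Fintype.piFinset fun p => if p ∈ P then T else univ

lemma mem_box {E V : Type} [Fintype E] [DecidableEq E] [Fintype V] {P : Finset E} {T : Finset V}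
    {f : E → V} : f ∈ box P T ↔ ∀ p ∈ P, f p ∈ T := by
  rw [box, Fintype.mem_piFinset]
  constructor
  · intro h p hp
    simpa [hp] using h p
  · intro h p
    by_cases hp : p ∈ P
    · simpa [hp] using h p hp
    · simp [hp]

lemma card_box {E V : Type} [Fintype E] [DecidableEq E] [Fintype V] (hV : 0 < Fintype.card V)
    (P : Finset E) (T : Finset V) :
    ((box P T).card : ℝ) = (Fintype.card V : ℝ) ^ Fintype.card E *
      ((T.card : ℝ) / Fintype.card V) ^ P.card := by
  have hV' : (0 : ℝ) < Fintype.card V := by exact_mod_cast hV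
  rw [box, Fintype.card_piFinset]
  push_cast
  have h1 : ∀ p : E, (((if p ∈ P then T else univ).card : ℕ) : ℝ) =
      (Fintype.card V : ℝ) * (if p ∈ P then (T.card : ℝ) / Fintype.card V else 1) := by
    intro p
    by_cases hp : p ∈ P
    · simp only [hp, if_true]
      field_simp
    · simp [hp]
  simp only [h1]
  rw [prod_mul_distrib, prod_const, card_univ, ← prod_filter, prod_const]
  congr 2
  simp

lemma choose_mul_le (N s : ℕ) (hN : 0 < N) :
    (N.choose s : ℝ) * ((s : ℝ) / N) ^ s ≤ 3 ^ s := by
  have hN' : (0 : ℝ) < N := by exact_mod_cast hN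
  have h1 : (N.choose s : ℝ) ≤ (N : ℝ) ^ s / (s.factorial : ℝ) := Nat.choose_le_pow_div s N
  have h2 : (s : ℝ) ^ s / (s.factorial : ℝ) ≤ Real.exp s :=
    Real.pow_div_factorial_le_exp (s : ℝ) (by positivity) s
  have h3 : Real.exp s ≤ 3 ^ s := by
    rw [← Real.exp_one_pow]
    exact pow_le_pow_left₀ (Real.exp_pos _).le Real.exp_one_lt_three.le s
  calc (N.choose s : ℝ) * ((s : ℝ) / N) ^ s
      ≤ (N : ℝ) ^ s / (s.factorial : ℝ) * ((s : ℝ) / N) ^ s := by gcongr
    _ = (s : ℝ) ^ s / (s.factorial : ℝ) := by
        rw [div_pow]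
        field_simp
    _ ≤ 3 ^ s := h2.trans h3

theorem exists_good (a M j m N : ℕ) (hN : N = 4 * m) (hM : N = 2 ^ a * M) (hm : 0 < m)
    (ha : 1 + 27 * M ≤ a * j) :
    ∃ f : Fin N × Fin 24 → Fin N,
      (∀ A C : Finset (Fin N), A.card = m → C.card = m → ∃ u ∈ A, ∃ i, f (u, i) ∈ C) ∧
      ∀ S : Finset (Fin N), S.card ≤ M →
        ((S ×ˢ (univ : Finset (Fin 24))).filter fun p => f p ∈ S).card < S.card + j := by
  classical
  have hN0 : 0 < N := by omega
  have hNR : (0 : ℝ) < N := by exact_mod_cast hN0
  have hcardV : Fintype.card (Fin N) = N := Fintype.card_fin N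
  set Ω : ℝ := (N : ℝ) ^ Fintype.card (Fin N × Fin 24) with hΩ
  have hΩ0 : 0 < Ω := by positivity
  set B1 : Finset (Fin N × Fin 24 → Fin N) :=
    (powersetCard m (univ : Finset (Fin N))).biUnion fun A =>
      (powersetCard m (univ : Finset (Fin N))).biUnion fun C =>
        box (A ×ˢ (univ : Finset (Fin 24))) (univ \ C) with hB1
  set B2 : Finset (Fin N × Fin 24 → Fin N) :=
    (range (M + 1)).biUnion fun s => (powersetCard s (univ : Finset (Fin N))).biUnion fun S =>
      (powersetCard (s + j) (S ×ˢ (univ : Finset (Fin 24)))).biUnion fun P => box P S with hB2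
  have hpow : ((powersetCard m (univ : Finset (Fin N))).card : ℝ) ≤ 16 ^ m := by
    rw [card_powersetCard, card_univ, hcardV]
    have h1 : N.choose m ≤ 2 ^ N := Nat.choose_le_two_pow N m
    have h2 : (2 : ℝ) ^ N = 16 ^ m := by
      rw [hN, pow_mul]
      norm_num
    rw [← h2]
    exact_mod_cast h1
  have h1 : (B1.card : ℝ) ≤ Ω * (1 / 3) := by
    have hterm : ∀ A ∈ powersetCard m (univ : Finset (Fin N)),
        ∀ C ∈ powersetCard m (univ : Finset (Fin N)),
        ((box (A ×ˢ (univ : Finset (Fin 24))) (univ \ C)).card : ℝ) =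
          Ω * ((3 / 4 : ℝ) ^ 24) ^ m := by
      intro A hA C hC
      rw [card_box (by rw [hcardV]; exact hN0), hcardV, card_product, card_univ, Fintype.card_fin,
        (mem_powersetCard.1 hA).2, card_sdiff_of_subset (subset_univ _), card_univ, hcardV,
        (mem_powersetCard.1 hC).2, ← pow_mul, mul_comm 24 m]
      congr 2
      have h3 : N - m = 3 * m := by omega
      have hm' : (0 : ℝ) < m := by exact_mod_cast hm
      rw [h3, hN]
      push_cast
      field_simp
    have hinner : ∀ A ∈ powersetCard m (univ : Finset (Fin N)),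
        (((powersetCard m (univ : Finset (Fin N))).biUnion fun C =>
          box (A ×ˢ (univ : Finset (Fin 24))) (univ \ C)).card : ℝ) ≤
          16 ^ m * (Ω * ((3 / 4 : ℝ) ^ 24) ^ m) := by
      intro A hA
      calc _ ≤ ((∑ C ∈ powersetCard m (univ : Finset (Fin N)),
            (box (A ×ˢ (univ : Finset (Fin 24))) (univ \ C)).card : ℕ) : ℝ) := by
            exact_mod_cast card_biUnion_le
        _ = ∑ C ∈ powersetCard m (univ : Finset (Fin N)), Ω * ((3 / 4 : ℝ) ^ 24) ^ m := by
            push_cast
            exact sum_congr rfl (hterm A hA)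
        _ ≤ _ := by
            rw [sum_const, nsmul_eq_mul]
            gcongr
    calc (B1.card : ℝ) ≤ ((∑ A ∈ powersetCard m (univ : Finset (Fin N)),
            ((powersetCard m (univ : Finset (Fin N))).biUnion fun C =>
              box (A ×ˢ (univ : Finset (Fin 24))) (univ \ C)).card : ℕ) : ℝ) := by
            exact_mod_cast card_biUnion_le
      _ ≤ ∑ A ∈ powersetCard m (univ : Finset (Fin N)),
            16 ^ m * (Ω * ((3 / 4 : ℝ) ^ 24) ^ m) := by
            push_cast
            exact sum_le_sum hinner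
      _ ≤ 16 ^ m * (16 ^ m * (Ω * ((3 / 4 : ℝ) ^ 24) ^ m)) := by
            rw [sum_const, nsmul_eq_mul]
            gcongr
      _ = Ω * (16 * 16 * (3 / 4 : ℝ) ^ 24) ^ m := by
            rw [mul_pow, mul_pow]
            ring
      _ ≤ Ω * (1 / 3) := by
            gcongr
            calc (16 * 16 * (3 / 4 : ℝ) ^ 24) ^ m ≤ (16 * 16 * (3 / 4 : ℝ) ^ 24) ^ 1 :=
                  pow_le_pow_of_le_one (by positivity) (by norm_num) hm
              _ ≤ 1 / 3 := by norm_num
  have h2 : (B2.card : ℝ) ≤ Ω * (1 / 2) := by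
    have hs : ∀ s ∈ range (M + 1),
        (((powersetCard s (univ : Finset (Fin N))).biUnion fun S =>
          (powersetCard (s + j) (S ×ˢ (univ : Finset (Fin 24)))).biUnion
            fun P => box P S).card : ℝ) ≤ Ω * ((2 : ℝ) ^ (26 * M) / 2 ^ (a * j)) := by
      intro s hs
      have hsM : s ≤ M := by
        have := mem_range.1 hs
        omega
      have hinner : ∀ S ∈ powersetCard s (univ : Finset (Fin N)),
          (((powersetCard (s + j) (S ×ˢ (univ : Finset (Fin 24)))).biUnion
            fun P => box P S).card : ℝ) ≤ 2 ^ (24 * s) * (Ω * ((s : ℝ) / N) ^ (s + j)) := by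
        intro S hS
        have hScard := (mem_powersetCard.1 hS).2
        calc _ ≤ ((∑ P ∈ powersetCard (s + j) (S ×ˢ (univ : Finset (Fin 24))),
              (box P S).card : ℕ) : ℝ) := by exact_mod_cast card_biUnion_le
          _ = ∑ P ∈ powersetCard (s + j) (S ×ˢ (univ : Finset (Fin 24))),
              Ω * ((s : ℝ) / N) ^ (s + j) := by
              push_cast
              refine sum_congr rfl fun P hP => ?_
              rw [card_box (by rw [hcardV]; exact hN0), hcardV, hScard,
                (mem_powersetCard.1 hP).2]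
          _ ≤ _ := by
              rw [sum_const, nsmul_eq_mul]
              gcongr
              rw [card_powersetCard, card_product, card_univ, Fintype.card_fin, hScard,
                mul_comm s 24]
              exact_mod_cast Nat.choose_le_two_pow _ _
      have hratio : (s : ℝ) / N ≤ 1 / 2 ^ a := by
        rw [div_le_div_iff₀ hNR (by positivity), hM]
        push_cast
        have : (s : ℝ) ≤ M := by exact_mod_cast hsM
        nlinarith [pow_pos (two_pos : (0 : ℝ) < 2) a]
      calc _ ≤ ((∑ S ∈ powersetCard s (univ : Finset (Fin N)),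
              ((powersetCard (s + j) (S ×ˢ (univ : Finset (Fin 24)))).biUnion
                fun P => box P S).card : ℕ) : ℝ) := by exact_mod_cast card_biUnion_le
        _ ≤ ∑ S ∈ powersetCard s (univ : Finset (Fin N)),
              2 ^ (24 * s) * (Ω * ((s : ℝ) / N) ^ (s + j)) := by
              push_cast
              exact sum_le_sum hinner
        _ = Ω * (2 ^ (24 * s) * ((N.choose s : ℝ) * ((s : ℝ) / N) ^ s) * ((s : ℝ) / N) ^ j) := by
              rw [sum_const, nsmul_eq_mul, card_powersetCard, card_univ, hcardV, pow_add]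
              ring
        _ ≤ Ω * (2 ^ (24 * s) * 3 ^ s * (1 / 2 ^ a) ^ j) := by
              gcongr
              exact choose_mul_le N s hN0
        _ ≤ Ω * (2 ^ (24 * M) * 4 ^ M * (1 / 2 ^ a) ^ j) := by
              have e1 : (2 : ℝ) ^ (24 * s) ≤ 2 ^ (24 * M) :=
                pow_le_pow_right₀ (by norm_num) (by omega)
              have e2 : (3 : ℝ) ^ s ≤ 4 ^ M :=
                (pow_le_pow_left₀ (by norm_num) (by norm_num) s).trans
                  (pow_le_pow_right₀ (by norm_num) hsM)
              gcongr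
        _ = Ω * ((2 : ℝ) ^ (26 * M) / 2 ^ (a * j)) := by
              have e3 : (4 : ℝ) ^ M = 2 ^ (2 * M) := by
                rw [pow_mul]
                norm_num
              rw [e3, ← pow_add, one_div, inv_pow, ← pow_mul, div_eq_mul_inv]
              congr 3
              ring
    calc (B2.card : ℝ) ≤ ((∑ s ∈ range (M + 1),
            ((powersetCard s (univ : Finset (Fin N))).biUnion fun S =>
              (powersetCard (s + j) (S ×ˢ (univ : Finset (Fin 24)))).biUnion
                fun P => box P S).card : ℕ) : ℝ) := by exact_mod_cast card_biUnion_le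
      _ ≤ ∑ s ∈ range (M + 1), Ω * ((2 : ℝ) ^ (26 * M) / 2 ^ (a * j)) := by
            push_cast
            exact sum_le_sum hs
      _ = Ω * (((M + 1 : ℕ) : ℝ) * (2 : ℝ) ^ (26 * M) / 2 ^ (a * j)) := by
            rw [sum_const, nsmul_eq_mul, card_range]
            ring
      _ ≤ Ω * ((2 : ℝ) ^ M * (2 : ℝ) ^ (26 * M) / 2 ^ (1 + 27 * M)) := by
            have e1 : ((M + 1 : ℕ) : ℝ) ≤ 2 ^ M := by
              exact_mod_cast Nat.lt_two_pow_self
            have e2 : (2 : ℝ) ^ (1 + 27 * M) ≤ 2 ^ (a * j) :=
              pow_le_pow_right₀ (by norm_num) ha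
            gcongr
      _ = Ω * (1 / 2) := by
            congr 1
            rw [← pow_add, show M + 26 * M = 27 * M by ring, pow_add]
            field_simp
  have hex : ∃ f : Fin N × Fin 24 → Fin N, f ∉ B1 ∪ B2 := by
    by_contra hcon
    push Not at hcon
    have h3 : (univ : Finset (Fin N × Fin 24 → Fin N)) ⊆ B1 ∪ B2 := fun f _ => hcon f
    have h4 := (card_le_card h3).trans (card_union_le _ _)
    rw [card_univ, Fintype.card_fun, hcardV] at h4
    have h5 : Ω ≤ (B1.card : ℝ) + B2.card := by
      rw [hΩ]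
      exact_mod_cast h4
    linarith
  obtain ⟨f, hf⟩ := hex
  rw [mem_union, not_or] at hf
  refine ⟨f, fun A C hA hC => ?_, fun S hS => ?_⟩
  · by_contra hcon
    push Not at hcon
    apply hf.1
    refine mem_biUnion.2 ⟨A, mem_powersetCard.2 ⟨subset_univ _, hA⟩,
      mem_biUnion.2 ⟨C, mem_powersetCard.2 ⟨subset_univ _, hC⟩, mem_box.2 ?_⟩⟩
    rintro ⟨u, i⟩ hp
    exact mem_sdiff.2 ⟨mem_univ _, hcon u (mem_product.1 hp).1 i⟩
  · by_contra hcon
    push Not at hcon
    obtain ⟨P, hP, hPc⟩ := exists_subset_card_eq hcon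
    apply hf.2
    refine mem_biUnion.2 ⟨S.card, mem_range.2 (by omega),
      mem_biUnion.2 ⟨S, mem_powersetCard.2 ⟨subset_univ _, rfl⟩,
        mem_biUnion.2 ⟨P, mem_powersetCard.2 ⟨hP.trans (filter_subset _ _), hPc⟩,
          mem_box.2 fun p hp => (mem_filter.1 (hP hp)).2⟩⟩⟩

end Pool.Agent.H146Z.Tw
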