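import Pool.Agent.H146Z.TwDefs
import Pool.Agent.H146Z.TwRand

/-!
Disjoint unions of `r` copies of `K_{2,t}`: planar, at most `2 r` disjoint cycles, and not a minor
of a locally sparse graph.
-/

set_option autoImplicit false

open Finset

namespace Pool.Agent.H146Z.Tw

/-- `r` disjoint copies of `K_{2,t}` -/
def HK (r t : ℕ) : SimpleGraph (Fin r × (Bool ⊕ Fin t)) where
  Adj x y := x.1 = y.1 ∧ ((∃ b i, x.2 = Sum.inl b ∧ y.2 = Sum.inr i) ∨
    (∃ b i, y.2 = Sum.inl b ∧ x.2 = Sum.inr i))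
  symm := ⟨fun _ _ h => ⟨h.1.symm, h.2.symm⟩⟩
  loopless := ⟨by
    rintro ⟨k, x⟩ ⟨-, ⟨b, i, h1, h2⟩ | ⟨b, i, h1, h2⟩⟩ <;>
    · simp only at h1 h2
      rw [h1] at h2
      cases h2⟩

/-- sign -/
def sg (b : Bool) : ℝ := if b then 1 else -1

/-- the drawing -/
def pos (r t : ℕ) : Fin r × (Bool ⊕ Fin t) → ℝ × ℝ
  | (k, Sum.inl b) => (0, 3 * ((k : ℕ) : ℝ) + sg b)
  | (k, Sum.inr i) => (((i : ℕ) : ℝ), 3 * ((k : ℕ) : ℝ))

lemma level_eq {k k' : ℕ} {e e' : ℝ} (h : 3 * (k : ℝ) + e = 3 * (k' : ℝ) + e')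
    (h1 : -1 ≤ e) (h2 : e ≤ 1) (h3 : -1 ≤ e') (h4 : e' ≤ 1) : k = k' ∧ e = e' := by
  have hk : k = k' := by
    rcases lt_trichotomy k k' with h5 | h5 | h5
    · have : (k : ℝ) + 1 ≤ k' := by exact_mod_cast h5
      linarith
    · exact h5
    · have : (k' : ℝ) + 1 ≤ k := by exact_mod_cast h5
      linarith
  subst hk
  exact ⟨rfl, by linarith⟩

lemma edge_cases {r t : ℕ} {u v : Fin r × (Bool ⊕ Fin t)} (h : (HK r t).Adj u v) :
    ∃ (k : Fin r) (b : Bool) (i : Fin t), s(u, v) = s((k, Sum.inl b), (k, Sum.inr i)) ∧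
      ∀ z ∈ openSegment ℝ (pos r t u) (pos r t v), ∃ l : ℝ, 0 < l ∧ l < 1 ∧
        z = (l * ((i : ℕ) : ℝ), 3 * ((k : ℕ) : ℝ) + sg b * (1 - l)) := by
  have key : ∀ (k : Fin r) (b : Bool) (i : Fin t),
      ∀ z ∈ openSegment ℝ (pos r t (k, Sum.inl b)) (pos r t (k, Sum.inr i)),
      ∃ l : ℝ, 0 < l ∧ l < 1 ∧ z = (l * ((i : ℕ) : ℝ), 3 * ((k : ℕ) : ℝ) + sg b * (1 - l)) := by
    rintro k b i z ⟨x, y, hx, hy, hxy, rfl⟩
    refine ⟨y, hy, by linarith, ?_⟩
    have : x = 1 - y := by linarith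
    subst this
    ext
    · simp [pos]
    · simp [pos]
      ring
  obtain ⟨k, x⟩ := u
  obtain ⟨k', y⟩ := v
  obtain ⟨h1, ⟨b, i, h2, h3⟩ | ⟨b, i, h2, h3⟩⟩ := h
  · simp only at h1 h2 h3
    subst h1 h2 h3
    exact ⟨k, b, i, rfl, key k b i⟩
  · simp only at h1 h2 h3
    subst h1 h2 h3
    refine ⟨k, b, i, Sym2.eq_swap, ?_⟩
    rw [openSegment_symm]
    exact key k b i

lemma sg_cases (b : Bool) : sg b = 1 ∨ sg b = -1 := by
  cases b <;> simp [sg]

lemma sg_inj {b b' : Bool} (h : sg b = sg b') : b = b' := by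
  cases b <;> cases b' <;> simp [sg] at h ⊢ <;> linarith

theorem HK_planar (r t : ℕ) : HasPlaneDrawing (HK r t) := by
  refine ⟨pos r t, ?_, ?_, ?_⟩
  · rintro ⟨k, b | i⟩ ⟨k', b' | i'⟩ h
    · have h2 : 3 * ((k : ℕ) : ℝ) + sg b = 3 * ((k' : ℕ) : ℝ) + sg b' := congrArg Prod.snd h
      obtain ⟨h3, h4⟩ := level_eq h2 (by rcases sg_cases b with h | h <;> linarith)
        (by rcases sg_cases b with h | h <;> linarith)
        (by rcases sg_cases b' with h | h <;> linarith)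
        (by rcases sg_cases b' with h | h <;> linarith)
      rw [Fin.ext h3, sg_inj h4]
    · have h2 : 3 * ((k : ℕ) : ℝ) + sg b = 3 * ((k' : ℕ) : ℝ) + 0 := by
        rw [add_zero]
        exact congrArg Prod.snd h
      obtain ⟨-, h4⟩ := level_eq h2 (by rcases sg_cases b with h | h <;> linarith)
        (by rcases sg_cases b with h | h <;> linarith) (by norm_num) (by norm_num)
      rcases sg_cases b with h | h <;> linarith
    · have h2 : 3 * ((k : ℕ) : ℝ) + 0 = 3 * ((k' : ℕ) : ℝ) + sg b' := by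
        rw [add_zero]
        exact congrArg Prod.snd h
      obtain ⟨-, h4⟩ := level_eq h2 (by norm_num) (by norm_num)
        (by rcases sg_cases b' with h | h <;> linarith)
        (by rcases sg_cases b' with h | h <;> linarith)
      rcases sg_cases b' with h | h <;> linarith
    · have h1 : ((i : ℕ) : ℝ) = ((i' : ℕ) : ℝ) := congrArg Prod.fst h
      have h2 : 3 * ((k : ℕ) : ℝ) = 3 * ((k' : ℕ) : ℝ) := congrArg Prod.snd h
      have h3 : ((k : ℕ) : ℝ) = ((k' : ℕ) : ℝ) := by linarith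
      rw [Fin.ext (Nat.cast_injective h1), Fin.ext (Nat.cast_injective h3)]
  · intro u v w huv hw
    obtain ⟨k, b, i, -, h⟩ := edge_cases huv
    obtain ⟨l, hl0, hl1, hz⟩ := h _ hw
    have hb1 : -1 ≤ sg b * (1 - l) := by rcases sg_cases b with h | h <;> rw [h] <;> linarith
    have hb2 : sg b * (1 - l) ≤ 1 := by rcases sg_cases b with h | h <;> rw [h] <;> linarith
    obtain ⟨k', b' | i'⟩ := w
    · have h2 : 3 * ((k' : ℕ) : ℝ) + sg b' = 3 * ((k : ℕ) : ℝ) + sg b * (1 - l) :=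
        congrArg Prod.snd hz
      obtain ⟨-, h4⟩ := level_eq h2 (by rcases sg_cases b' with h | h <;> linarith)
        (by rcases sg_cases b' with h | h <;> linarith) hb1 hb2
      rcases sg_cases b with h | h <;> rcases sg_cases b' with h' | h' <;> rw [h, h'] at h4 <;>
        linarith
    · have h2 : 3 * ((k' : ℕ) : ℝ) + 0 = 3 * ((k : ℕ) : ℝ) + sg b * (1 - l) := by
        rw [add_zero]
        exact congrArg Prod.snd hz
      obtain ⟨-, h4⟩ := level_eq h2 (by norm_num) (by norm_num) hb1 hb2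
      rcases sg_cases b with h | h <;> rw [h] at h4 <;> linarith
  · intro u v x y huv hxy hne
    obtain ⟨k, b, i, e1, h⟩ := edge_cases huv
    obtain ⟨k', b', i', e2, h'⟩ := edge_cases hxy
    rw [Set.disjoint_left]
    intro z hz hz'
    obtain ⟨l, hl0, hl1, hz1⟩ := h _ hz
    obtain ⟨l', hl0', hl1', hz2⟩ := h' _ hz'
    rw [hz1] at hz2
    have h1 : l * ((i : ℕ) : ℝ) = l' * ((i' : ℕ) : ℝ) := congrArg Prod.fst hz2
    have h2 : 3 * ((k : ℕ) : ℝ) + sg b * (1 - l) = 3 * ((k' : ℕ) : ℝ) + sg b' * (1 - l') :=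
      congrArg Prod.snd hz2
    obtain ⟨h3, h4⟩ := level_eq h2
      (by rcases sg_cases b with h | h <;> rw [h] <;> linarith)
      (by rcases sg_cases b with h | h <;> rw [h] <;> linarith)
      (by rcases sg_cases b' with h | h <;> rw [h] <;> linarith)
      (by rcases sg_cases b' with h | h <;> rw [h] <;> linarith)
    have h5 : sg b = sg b' ∧ l = l' := by
      rcases sg_cases b with h | h <;> rcases sg_cases b' with h' | h' <;> rw [h, h'] at h4 <;>
        rw [h, h'] <;> constructor <;> linarith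
    obtain ⟨h6, rfl⟩ := h5
    have h7 : ((i : ℕ) : ℝ) = ((i' : ℕ) : ℝ) := mul_left_cancel₀ hl0.ne' h1
    apply hne
    rw [e1, e2, Fin.ext h3, sg_inj h6, Fin.ext (Nat.cast_injective h7)]

theorem HK_cycles (r t k : ℕ) (h : HasDisjointCycles (HK r t) k) : k ≤ 2 * r := by
  obtain ⟨v, c, hc, hdis⟩ := h
  have h1 : ∀ i, ∃ q : Fin r × Bool, (q.1, Sum.inl q.2) ∈ (c i).support := by
    intro i
    have hne := (hc i).ne_nil
    generalize c i = p at hne
    cases p with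
    | nil => exact absurd rfl hne
    | cons hadj q =>
      rename_i w
      have hv : v i ∈ (SimpleGraph.Walk.cons hadj q).support :=
        SimpleGraph.Walk.start_mem_support _
      have hw : w ∈ (SimpleGraph.Walk.cons hadj q).support := by
        rw [SimpleGraph.Walk.support_cons]
        exact List.mem_cons_of_mem _ q.start_mem_support
      generalize (SimpleGraph.Walk.cons hadj q).support = l at hv hw
      obtain ⟨h2, ⟨b, i', h3, h4⟩ | ⟨b, i', h3, h4⟩⟩ := hadj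
      · refine ⟨((v i).1, b), ?_⟩
        rw [← h3]
        exact hv
      · refine ⟨(w.1, b), ?_⟩
        rw [← h3]
        exact hw
  choose g hg using h1
  have hinj : Function.Injective g := by
    intro i j hij
    by_contra hne
    exact hdis i j hne _ (hg i) (hij ▸ hg j)
  have := Fintype.card_le_of_injective g hinj
  simp only [Fintype.card_fin, Fintype.card_prod, Fintype.card_bool] at this
  omega

/-- the graph of the map `f` -/
def GF {N : ℕ} (f : Fin N × Fin 24 → Fin N) : SimpleGraph (Fin N) :=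
  SimpleGraph.fromRel fun u v => ∃ i, f (u, i) = v

lemma inner_edges {N : ℕ} (f : Fin N × Fin 24 → Fin N) (X : Finset (Fin N))
    (h : ((GF f).induce (X : Set (Fin N))).Connected) :
    X.card ≤ ((univ : Finset (Fin N × Fin 24)).filter fun p => p.1 ∈ X ∧ f p ∈ X).card + 1 := by
  classical
  have h1 := h.card_vert_le_card_edgeSet_add_one
  have h2 : Nat.card (X : Set (Fin N)) = X.card := by simp
  rw [h2] at h1
  refine h1.trans (Nat.add_le_add_right ?_ 1)
  set P := (univ : Finset (Fin N × Fin 24)).filter fun p => p.1 ∈ X ∧ f p ∈ X with hP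
  let g : P → Sym2 (X : Set (Fin N)) := fun p =>
    s(⟨p.1.1, (mem_filter.1 p.2).2.1⟩, ⟨f p.1, (mem_filter.1 p.2).2.2⟩)
  have h3 : ((GF f).induce (X : Set (Fin N))).edgeSet ⊆ Set.range g := by
    intro e he
    induction e using Sym2.ind with
    | _ x y =>
      obtain ⟨x, hx⟩ := x
      obtain ⟨y, hy⟩ := y
      have h4 : (GF f).Adj x y := he
      rw [GF, SimpleGraph.fromRel_adj] at h4
      obtain ⟨-, ⟨i, hi⟩ | ⟨i, hi⟩⟩ := h4
      · subst hi
        exact ⟨⟨(x, i), mem_filter.2 ⟨mem_univ _, hx, hy⟩⟩, rfl⟩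
      · subst hi
        exact ⟨⟨(y, i), mem_filter.2 ⟨mem_univ _, hy, hx⟩⟩, Sym2.eq_swap⟩
  calc Nat.card ((GF f).induce (X : Set (Fin N))).edgeSet
      ≤ Nat.card (Set.range g) := Nat.card_mono (Set.toFinite _) h3
    _ ≤ Nat.card P := Finite.card_range_le g
    _ = P.card := by simp

lemma model_edges {N t : ℕ} (f : Fin N × Fin 24 → Fin N) (X : Bool ⊕ Fin t → Finset (Fin N))
    (hconn : ∀ h, ((GF f).induce (X h : Set (Fin N))).Connected)
    (hdis : ∀ h h' v, v ∈ X h → v ∈ X h' → h = h')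
    (hadj : ∀ b i, ∃ x ∈ X (Sum.inl b), ∃ y ∈ X (Sum.inr i), (GF f).Adj x y) :
    (univ.biUnion X).card + t ≤
      (((univ.biUnion X) ×ˢ (univ : Finset (Fin 24))).filter
        fun p => f p ∈ univ.biUnion X).card + 2 := by
  classical
  let Q : (Bool ⊕ Fin t) ⊕ (Bool × Fin t) → Finset (Fin N × Fin 24) := fun q =>
    match q with
    | Sum.inl h => univ.filter fun p => p.1 ∈ X h ∧ f p ∈ X h
    | Sum.inr bi => univ.filter fun p => (p.1 ∈ X (Sum.inl bi.1) ∧ f p ∈ X (Sum.inr bi.2)) ∨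
        (p.1 ∈ X (Sum.inr bi.2) ∧ f p ∈ X (Sum.inl bi.1))
  have hQdis : ((univ : Finset ((Bool ⊕ Fin t) ⊕ (Bool × Fin t))) :
      Set ((Bool ⊕ Fin t) ⊕ (Bool × Fin t))).PairwiseDisjoint Q := by
    rintro (h | ⟨b, i⟩) - (h' | ⟨b', i'⟩) - hne <;> rw [Function.onFun, disjoint_left] <;>
      intro p hp hp' <;> simp only [Q, mem_filter, mem_univ, true_and] at hp hp'
    · exact hne (by rw [hdis _ _ _ hp.1 hp'.1])
    · rcases hp' with h1 | h1
      · exact Sum.inl_ne_inr ((hdis _ _ _ h1.1 hp.1).trans (hdis _ _ _ hp.2 h1.2))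
      · exact Sum.inl_ne_inr ((hdis _ _ _ h1.2 hp.2).trans (hdis _ _ _ hp.1 h1.1))
    · rcases hp with h1 | h1
      · exact Sum.inl_ne_inr ((hdis _ _ _ h1.1 hp'.1).trans (hdis _ _ _ hp'.2 h1.2))
      · exact Sum.inl_ne_inr ((hdis _ _ _ h1.2 hp'.2).trans (hdis _ _ _ hp'.1 h1.1))
    · rcases hp with h1 | h1 <;> rcases hp' with h2 | h2
      · exact hne (by
          rw [Sum.inl_injective (hdis _ _ _ h1.1 h2.1), Sum.inr_injective (hdis _ _ _ h1.2 h2.2)])
      · exact Sum.inl_ne_inr (hdis _ _ _ h1.1 h2.1)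
      · exact Sum.inl_ne_inr (hdis _ _ _ h1.2 h2.2)
      · exact hne (by
          rw [Sum.inl_injective (hdis _ _ _ h1.2 h2.2), Sum.inr_injective (hdis _ _ _ h1.1 h2.1)])
  have hsub : univ.biUnion Q ⊆ ((univ.biUnion X) ×ˢ (univ : Finset (Fin 24))).filter
      fun p => f p ∈ univ.biUnion X := by
    intro p hp
    obtain ⟨q, -, hq⟩ := mem_biUnion.1 hp
    have : ∃ h h', p.1 ∈ X h ∧ f p ∈ X h' := by
      rcases q with h | ⟨b, i⟩ <;> simp only [Q, mem_filter, mem_univ, true_and] at hq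
      · exact ⟨h, h, hq⟩
      · rcases hq with h1 | h1
        · exact ⟨_, _, h1⟩
        · exact ⟨_, _, h1⟩
    obtain ⟨h, h', h1, h2⟩ := this
    exact mem_filter.2 ⟨mem_product.2 ⟨mem_biUnion.2 ⟨h, mem_univ _, h1⟩, mem_univ _⟩,
      mem_biUnion.2 ⟨h', mem_univ _, h2⟩⟩
  have h1 := card_le_card hsub
  rw [card_biUnion hQdis, Fintype.sum_sum_type] at h1
  have h2 : ∑ h : Bool ⊕ Fin t, (X h).card ≤ ∑ h : Bool ⊕ Fin t, ((Q (Sum.inl h)).card + 1) :=
    sum_le_sum fun h _ => inner_edges f (X h) (hconn h)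
  rw [sum_add_distrib, sum_const, card_univ, smul_eq_mul, mul_one] at h2
  have h3 : ∑ _bi : Bool × Fin t, 1 ≤ ∑ bi : Bool × Fin t, (Q (Sum.inr bi)).card := by
    refine sum_le_sum fun bi _ => card_pos.2 ?_
    obtain ⟨x, hx, y, hy, hxy⟩ := hadj bi.1 bi.2
    rw [GF, SimpleGraph.fromRel_adj] at hxy
    obtain ⟨-, ⟨i, hi⟩ | ⟨i, hi⟩⟩ := hxy
    · exact ⟨(x, i), mem_filter.2 ⟨mem_univ _, Or.inl ⟨hx, hi ▸ hy⟩⟩⟩
    · exact ⟨(y, i), mem_filter.2 ⟨mem_univ _, Or.inr ⟨hy, hi ▸ hx⟩⟩⟩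
  rw [sum_const, card_univ, smul_eq_mul, mul_one] at h3
  have h4 : (univ.biUnion X).card ≤ ∑ h : Bool ⊕ Fin t, (X h).card := card_biUnion_le
  simp only [Fintype.card_sum, Fintype.card_prod, Fintype.card_bool, Fintype.card_fin] at h2 h3
  omega

theorem not_minor {N r M j : ℕ} (hN : N = r * M) (hr : 0 < r) (f : Fin N × Fin 24 → Fin N)
    (hf : ∀ S : Finset (Fin N), S.card ≤ M →
      ((S ×ˢ (univ : Finset (Fin 24))).filter fun p => f p ∈ S).card < S.card + j) :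
    ¬ IsMinor (HK r (j + 2)) (GF f) := by
  classical
  rintro ⟨X, hconn, hdis, hadj⟩
  let X' : Fin r → Bool ⊕ Fin (j + 2) → Finset (Fin N) := fun k h => (X (k, h)).toFinset
  have huniq : ∀ q q' v, v ∈ X q → v ∈ X q' → q = q' := by
    intro q q' v h1 h2
    by_contra hne
    exact Set.disjoint_left.1 (hdis q q' hne) h1 h2
  have hsum : ∑ k : Fin r, (univ.biUnion (X' k)).card ≤ ∑ _k : Fin r, M := by
    rw [← card_biUnion]
    · rw [sum_const, card_univ, Fintype.card_fin, smul_eq_mul, ← hN]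
      exact (card_le_univ _).trans (Fintype.card_fin N).le
    · intro k _ k' _ hne
      rw [Function.onFun, disjoint_left]
      intro v h1 h2
      obtain ⟨h, -, h3⟩ := mem_biUnion.1 h1
      obtain ⟨h', -, h4⟩ := mem_biUnion.1 h2
      exact hne (congrArg Prod.fst (huniq _ _ v (Set.mem_toFinset.1 h3) (Set.mem_toFinset.1 h4)))
  obtain ⟨k, -, hk⟩ := exists_le_of_sum_le ⟨⟨0, hr⟩, mem_univ _⟩ hsum
  have h1 := hf _ hk
  have h2 := model_edges f (X' k) (fun h => by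
      have e : ((X' k h : Finset (Fin N)) : Set (Fin N)) = X (k, h) := Set.coe_toFinset _
      rw [e]
      exact hconn (k, h))
    (fun h h' v h1 h2 =>
      congrArg Prod.snd (huniq _ _ v (Set.mem_toFinset.1 h1) (Set.mem_toFinset.1 h2)))
    (fun b i => by
      obtain ⟨x, hx, y, hy, hxy⟩ := hadj (k, Sum.inl b) (k, Sum.inr i)
        ⟨rfl, Or.inl ⟨b, i, rfl, rfl⟩⟩
      exact ⟨x, Set.mem_toFinset.2 hx, y, Set.mem_toFinset.2 hy, hxy⟩)
  omega

theorem tw_GF {N m : ℕ} (hN : N = 4 * m) (hm : 0 < m) (f : Fin N × Fin 24 → Fin N)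
    (hf : ∀ A C : Finset (Fin N), A.card = m → C.card = m → ∃ u ∈ A, ∃ i, f (u, i) ∈ C) :
    m ≤ treewidth (GF f) := by
  refine le_treewidth m (by rw [Fintype.card_fin, hN]) ?_ hm
  intro A C hAC hA hC
  obtain ⟨A', hA', hA''⟩ := exists_subset_card_eq hA
  obtain ⟨C', hC', hC''⟩ := exists_subset_card_eq hC
  obtain ⟨u, hu, i, hi⟩ := hf A' C' hA'' hC''
  refine ⟨u, hA' hu, f (u, i), hC' hi, ?_⟩
  rw [GF, SimpleGraph.fromRel_adj]
  refine ⟨fun h => ?_, Or.inl ⟨i, rfl⟩⟩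
  exact disjoint_left.1 hAC (hA' hu) (h ▸ hC' hi)

/-- With `r = 2 ^ (27 * L + 2)` copies of `K_{2, j + 2}`, treewidth `r * L * j / 4` does not force
the minor. -/
theorem exists_host (L j : ℕ) (hL : 0 < L) (hj : 0 < j) :
    ∃ (N : ℕ) (G : SimpleGraph (Fin N)), ¬ IsMinor (HK (2 ^ (27 * L + 2)) (j + 2)) G ∧
      2 ^ (27 * L) * (L * j) ≤ treewidth G := by
  have hm : 0 < 2 ^ (27 * L) * (L * j) := by positivity
  have hM : 4 * (2 ^ (27 * L) * (L * j)) = 2 ^ (27 * L + 2) * (L * j) := by ring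
  obtain ⟨f, hf1, hf2⟩ := exists_good (27 * L + 2) (L * j) j (2 ^ (27 * L) * (L * j)) _ rfl hM hm
    (by nlinarith)
  exact ⟨_, GF f, not_minor hM (by positivity) f hf2, tw_GF rfl hm f hf1⟩

end Pool.Agent.H146Z.Tw
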